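import Pool.Agent.H517R2.RS.Defs

/-! Task ANCA (helper143): anchors with exponentially many indices. -/

namespace Pool.Agent.H517R2.RS

open Finset Filter Topology

theorem ANCA_desc {m n : ℕ} (h : m ≤ n) (a : ℕ) :
    m.descFactorial a * n ^ a ≤ m ^ a * n.descFactorial a := by
  induction a with
  | zero => simp
  | succ a ih =>
    rw [Nat.descFactorial_succ, Nat.descFactorial_succ, pow_succ, pow_succ]
    have h1 : (m - a) * n ≤ m * (n - a) := by
      rcases le_or_gt m a with h2 | h2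
      · rw [Nat.sub_eq_zero_of_le h2, zero_mul]; exact Nat.zero_le _
      · rw [Nat.sub_mul, Nat.mul_sub]
        have : m * a ≤ a * n := by rw [mul_comm]; exact Nat.mul_le_mul_left _ h
        omega
    calc (m - a) * m.descFactorial a * (n ^ a * n)
        = ((m - a) * n) * (m.descFactorial a * n ^ a) := by ring
      _ ≤ (m * (n - a)) * (m ^ a * n.descFactorial a) := Nat.mul_le_mul h1 ih
      _ = m ^ a * m * ((n - a) * n.descFactorial a) := by ring

theorem ANCA_choose_up {m n : ℕ} (h : m ≤ n) (a : ℕ) :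
    m.choose a * n ^ a ≤ m ^ a * n.choose a := by
  have h1 := ANCA_desc h a
  rw [Nat.descFactorial_eq_factorial_mul_choose, Nat.descFactorial_eq_factorial_mul_choose] at h1
  have h2 : 0 < a.factorial := Nat.factorial_pos a
  have h3 : a.factorial * (m.choose a * n ^ a) ≤ a.factorial * (m ^ a * n.choose a) := by
    calc _ = a.factorial * m.choose a * n ^ a := by ring
      _ ≤ _ := h1
      _ = _ := by ring
  exact Nat.le_of_mul_le_mul_left h3 h2

theorem ANCA_choose_low (m n a : ℕ) :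
    (m - a) ^ a * n.choose a ≤ m.choose a * n ^ a := by
  have h2 : 0 < a.factorial := Nat.factorial_pos a
  have h3 : a.factorial * ((m - a) ^ a * n.choose a) ≤ a.factorial * (m.choose a * n ^ a) := by
    calc _ = (m - a) ^ a * n.descFactorial a := by
          rw [Nat.descFactorial_eq_factorial_mul_choose]; ring
      _ ≤ m.descFactorial a * n ^ a := by
          apply Nat.mul_le_mul
          · exact (Nat.pow_le_pow_left (by omega) a).trans (Nat.pow_sub_le_descFactorial m a)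
          · exact Nat.descFactorial_le_pow n a
      _ = _ := by rw [Nat.descFactorial_eq_factorial_mul_choose]; ring
  exact Nat.le_of_mul_le_mul_left h3 h2

/-- polynomials against the exponential function -/
theorem ANCA_lim (C c : ℝ) (hc : 0 < c) (j : ℕ) :
    ∀ᶠ n : ℕ in atTop, C * (n : ℝ) ^ j * Real.exp (-(c * n)) < 1 := by
  have h1 : Tendsto (fun y : ℝ => y ^ j * Real.exp (-y)) atTop (𝓝 0) :=
    Real.tendsto_pow_mul_exp_neg_atTop_nhds_zero j
  have h2 : Tendsto (fun n : ℕ => c * (n : ℝ)) atTop atTop :=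
    Tendsto.const_mul_atTop hc tendsto_natCast_atTop_atTop
  have h3 := (h1.comp h2).const_mul (C / c ^ j)
  rw [mul_zero] at h3
  have h4 := h3.eventually (gt_mem_nhds (show (0 : ℝ) < 1 by norm_num))
  filter_upwards [h4] with n hn
  have h5 : C * (n : ℝ) ^ j * Real.exp (-(c * n)) =
      C / c ^ j * ((fun y : ℝ => y ^ j * Real.exp (-y)) ∘ fun n : ℕ => c * (n : ℝ)) n := by
    simp only [Function.comp]
    rw [mul_pow]
    field_simp
  rw [h5]
  exact hn

theorem ANCA_pow2 (n : ℕ) : (2 : ℝ) ^ n ≤ Real.exp n := by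
  have h2 : (2 : ℝ) ≤ Real.exp 1 := by
    have := Real.add_one_le_exp (1 : ℝ)
    linarith
  calc (2 : ℝ) ^ n ≤ (Real.exp 1) ^ n := pow_le_pow_left₀ (by norm_num) h2 n
    _ = Real.exp n := by rw [← Real.exp_nat_mul, mul_one]

theorem t_ANCA (h : ANCC) : ANCA := by
  intro τ hτ α hα hx
  obtain ⟨x, hxd⟩ : ∃ x, x = τ + α := ⟨_, rfl⟩
  have hx0 : 0 < x := by linarith
  have hx1 : 0 < 1 - x := by linarith
  obtain ⟨L, hL⟩ : ∃ L, L = Real.log ((1 - x) / x) := ⟨_, rfl⟩
  have hL0 : 0 < L := by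
    rw [hL]
    apply Real.log_pos
    rw [lt_div_iff₀ hx0]
    linarith
  have hthL : x / (1 - x) = Real.exp (-L) := by
    rw [hL, Real.exp_neg, Real.exp_log (by positivity), inv_div]
  obtain ⟨c0, hc0⟩ : ∃ c0, c0 = α * L := ⟨_, rfl⟩
  have hc0p : 0 < c0 := by rw [hc0]; positivity
  obtain ⟨ρ, hρ⟩ : ∃ ρ, ρ = min (c0 / 4) (1 / 4 : ℝ) := ⟨_, rfl⟩
  have hρ0 : 0 < ρ := by rw [hρ]; exact lt_min (by linarith) (by norm_num)
  have hρ1 : ρ ≤ c0 / 4 := by rw [hρ]; exact min_le_left _ _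
  have hρ2 : ρ ≤ 1 / 4 := by rw [hρ]; exact min_le_right _ _
  obtain ⟨B, hB1, hB2⟩ : ∃ B : ℕ, 1 ≤ B ∧ 2 ≤ ((B : ℝ) + 1) * (c0 / 4) := by
    obtain ⟨B, hB⟩ := exists_nat_ge (2 / (c0 / 4))
    refine ⟨max B 1, le_max_right _ _, ?_⟩
    have h1 : (2 : ℝ) / (c0 / 4) ≤ ((max B 1 : ℕ) : ℝ) :=
      hB.trans (by exact_mod_cast le_max_left _ _)
    rw [div_le_iff₀ (by linarith)] at h1
    linarith
  obtain ⟨n₁, hn₁⟩ := eventually_atTop.mp
    ((ANCA_lim (30 * B * 2 ^ B * Real.exp L) (c0 / 4) (by linarith) 2).and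
      (ANCA_lim (12 * B * 2 ^ B) (11 / 4) (by norm_num) 1))
  refine ⟨ρ, hρ0, max n₁ 1, ?_⟩
  intro n t hn ht
  have hn1 : 1 ≤ n := (le_max_right _ _).trans hn
  obtain ⟨hE1, hE2⟩ := hn₁ n ((le_max_left _ _).trans hn)
  have hnr : (1 : ℝ) ≤ n := by exact_mod_cast hn1
  have hn0 : (0 : ℝ) < n := by linarith
  obtain ⟨a, ha⟩ : ∃ a, a = ⌊α * n⌋₊ := ⟨_, rfl⟩
  have ha1 : (a : ℝ) ≤ α * n := by rw [ha]; exact Nat.floor_le (by positivity)
  have ha2 : α * n - 1 ≤ a := by
    have := Nat.lt_floor_add_one (α * (n : ℝ))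
    rw [← ha] at this
    linarith
  obtain ⟨K, hK⟩ : ∃ K, K = ⌈Real.exp (ρ * n)⌉₊ := ⟨_, rfl⟩
  have hK1 : Real.exp (ρ * n) ≤ K := by rw [hK]; exact Nat.le_ceil _
  have hK2 : (K : ℝ) ≤ 2 * Real.exp (ρ * n) := by
    have h1 := Nat.ceil_lt_add_one (Real.exp_pos (ρ * n)).le
    rw [← hK] at h1
    have h2 : 1 ≤ Real.exp (ρ * n) := Real.one_le_exp (by positivity)
    linarith
  obtain ⟨R, hR⟩ : ∃ R, R = 2 ^ B * (3 * n) := ⟨_, rfl⟩
  have hRr : (R : ℝ) = 2 ^ B * (3 * n) := by rw [hR]; push_cast; ring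
  have hpa : 0 < (1 - x) ^ a := by positivity
  have hpa1 : (1 - x) ^ a ≤ 1 := pow_le_one₀ hx1.le (by linarith)
  obtain ⟨N, hN⟩ : ∃ N, N = ⌈4 * (n : ℝ) / (1 - x) ^ a⌉₊ := ⟨_, rfl⟩
  have hN1 : 4 * (n : ℝ) / (1 - x) ^ a ≤ N := by rw [hN]; exact Nat.le_ceil _
  have hN2 : (N : ℝ) ≤ 5 * n / (1 - x) ^ a := by
    have h1 := Nat.ceil_lt_add_one (show 0 ≤ 4 * (n : ℝ) / (1 - x) ^ a by positivity)
    rw [← hN] at h1
    have h2 : 1 ≤ (n : ℝ) / (1 - x) ^ a := by
      rw [le_div_iff₀ hpa]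
      linarith
    have h3 : 5 * (n : ℝ) / (1 - x) ^ a = 4 * (n : ℝ) / (1 - x) ^ a + n / (1 - x) ^ a := by
      ring
    rw [h3]
    linarith
  have hta : ((t + a : ℕ) : ℝ) ≤ x * n := by
    push_cast
    rw [hxd]
    linarith
  have htan : t + a ≤ n := by
    have : ((t + a : ℕ) : ℝ) ≤ n := hta.trans (by nlinarith)
    exact_mod_cast this
  have han : a ≤ n := by omega
  have hc : (0 : ℝ) < n.choose a := by exact_mod_cast Nat.choose_pos han
  have hup : (((t + a).choose a : ℕ) : ℝ) ≤ x ^ a * n.choose a := by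
    have h1 : (((t + a).choose a : ℕ) : ℝ) * (n : ℝ) ^ a ≤ ((t + a : ℕ) : ℝ) ^ a * n.choose a := by
      exact_mod_cast ANCA_choose_up htan a
    have h2 : ((t + a : ℕ) : ℝ) ^ a ≤ (x * n) ^ a :=
      pow_le_pow_left₀ (Nat.cast_nonneg _) hta a
    have h3 : (((t + a).choose a : ℕ) : ℝ) * (n : ℝ) ^ a ≤ (x ^ a * n.choose a) * (n : ℝ) ^ a := by
      calc _ ≤ ((t + a : ℕ) : ℝ) ^ a * n.choose a := h1
        _ ≤ (x * n) ^ a * n.choose a := mul_le_mul_of_nonneg_right h2 hc.le
        _ = _ := by rw [mul_pow]; ring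
    exact le_of_mul_le_mul_right h3 (by positivity)
  have hlow : (1 - x) ^ a * n.choose a ≤ (((n - t).choose a : ℕ) : ℝ) := by
    have h1 : ((n - t - a : ℕ) : ℝ) ^ a * n.choose a ≤ (((n - t).choose a : ℕ) : ℝ) * (n : ℝ) ^ a := by
      exact_mod_cast ANCA_choose_low (n - t) n a
    have h2 : (1 - x) * n ≤ ((n - t - a : ℕ) : ℝ) := by
      have h4 : ((n - t - a : ℕ) : ℝ) = n - ((t + a : ℕ) : ℝ) := by
        rw [Nat.sub_sub, Nat.cast_sub htan]
      rw [h4]
      linarith
    have h3 : ((1 - x) * n) ^ a ≤ ((n - t - a : ℕ) : ℝ) ^ a :=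
      pow_le_pow_left₀ (by positivity) h2 a
    have h5 : ((1 - x) ^ a * n.choose a) * (n : ℝ) ^ a ≤
        (((n - t).choose a : ℕ) : ℝ) * (n : ℝ) ^ a := by
      calc _ = ((1 - x) * n) ^ a * n.choose a := by rw [mul_pow]; ring
        _ ≤ ((n - t - a : ℕ) : ℝ) ^ a * n.choose a := mul_le_mul_of_nonneg_right h3 hc.le
        _ ≤ _ := h1
    exact le_of_mul_le_mul_right h5 (by positivity)
  have hpow := ANCA_pow2 n
  refine ⟨a, K, ha1, hK1, h n t a K R N B hB1 ?_ ?_ ?_⟩
  · -- first condition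
    have hth : x ^ a / (1 - x) ^ a ≤ Real.exp L * Real.exp (-(c0 * n)) := by
      rw [← div_pow, hthL, ← Real.exp_nat_mul, ← Real.exp_add]
      apply Real.exp_le_exp.mpr
      have : (α * n - 1) * L ≤ a * L := mul_le_mul_of_nonneg_right ha2 hL0.le
      rw [hc0]
      linarith
    obtain ⟨Y, hY⟩ : ∃ Y : ℝ, Y = (K : ℝ) * (B * R) * N * x ^ a := ⟨_, rfl⟩
    have hY0 : 0 ≤ Y := by rw [hY]; positivity
    have hY1 : Y ≤ Real.exp (-(c0 / 2 * n)) := by
      have hs1 : Real.exp (ρ * n) ≤ Real.exp (c0 / 4 * n) :=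
        Real.exp_le_exp.mpr (mul_le_mul_of_nonneg_right hρ1 hn0.le)
      have hs2 : (K : ℝ) ≤ 2 * Real.exp (c0 / 4 * n) := hK2.trans (by linarith)
      calc Y = ((K : ℝ) * (B * (2 ^ B * (3 * n))) * x ^ a) * N := by rw [hY, hRr]; ring
        _ ≤ ((2 * Real.exp (c0 / 4 * n)) * (B * (2 ^ B * (3 * n))) * x ^ a) *
            (5 * n / (1 - x) ^ a) := by
            apply mul_le_mul _ hN2 (Nat.cast_nonneg _) (by positivity)
            apply mul_le_mul_of_nonneg_right _ (by positivity)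
            exact mul_le_mul_of_nonneg_right hs2 (by positivity)
        _ = (30 * B * 2 ^ B * (n : ℝ) ^ 2 * Real.exp (c0 / 4 * n)) * (x ^ a / (1 - x) ^ a) := by
            ring
        _ ≤ (30 * B * 2 ^ B * (n : ℝ) ^ 2 * Real.exp (c0 / 4 * n)) *
            (Real.exp L * Real.exp (-(c0 * n))) :=
            mul_le_mul_of_nonneg_left hth (by positivity)
        _ = (30 * B * 2 ^ B * Real.exp L * (n : ℝ) ^ 2 * Real.exp (-(c0 / 4 * n))) *
            Real.exp (-(c0 / 2 * n)) := by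
            have : Real.exp (c0 / 4 * n) * Real.exp (-(c0 * n)) =
                Real.exp (-(c0 / 4 * n)) * Real.exp (-(c0 / 2 * n)) := by
              rw [← Real.exp_add, ← Real.exp_add]
              congr 1
              ring
            linear_combination (30 * B * 2 ^ B * (n : ℝ) ^ 2 * Real.exp L) * this
        _ ≤ 1 * Real.exp (-(c0 / 2 * n)) :=
            mul_le_mul_of_nonneg_right hE1.le (Real.exp_pos _).le
        _ = _ := one_mul _
    have hY2 : Y ^ (B + 1) ≤ Real.exp (-(4 * n)) := by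
      calc Y ^ (B + 1) ≤ (Real.exp (-(c0 / 2 * n))) ^ (B + 1) := pow_le_pow_left₀ hY0 hY1 _
        _ = Real.exp (-(((B : ℝ) + 1) * (c0 / 4) * (2 * n))) := by
            rw [← Real.exp_nat_mul]
            congr 1
            push_cast
            ring
        _ ≤ Real.exp (-(4 * n)) := by
            apply Real.exp_le_exp.mpr
            have : 2 * (2 * (n : ℝ)) ≤ ((B : ℝ) + 1) * (c0 / 4) * (2 * n) :=
              mul_le_mul_of_nonneg_right hB2 (by positivity)
            linarith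
    have hfin : 2 * ((2 : ℝ) ^ n * Real.exp (-(4 * n))) < 1 := by
      have h2 : (2 : ℝ) ≤ Real.exp n := by
        have := Real.add_one_le_exp (n : ℝ)
        linarith
      calc 2 * ((2 : ℝ) ^ n * Real.exp (-(4 * n)))
          ≤ Real.exp n * (Real.exp n * Real.exp (-(4 * n))) := by
            apply mul_le_mul h2 _ (by positivity) (by positivity)
            exact mul_le_mul_of_nonneg_right hpow (by positivity)
        _ = Real.exp (-(2 * n)) := by
            rw [← Real.exp_add, ← Real.exp_add]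
            congr 1
            ring
        _ < 1 := by
            rw [Real.exp_lt_one_iff]
            linarith
    have hgoal : 2 * ((2 : ℝ) ^ n * ((K : ℝ) * (B * R) * N * (((t + a).choose a : ℕ) : ℝ)) ^ (B + 1)) <
        (n.choose a : ℝ) ^ (B + 1) := by
      have h1 : (K : ℝ) * (B * R) * N * (((t + a).choose a : ℕ) : ℝ) ≤ Y * n.choose a := by
        calc _ ≤ (K : ℝ) * (B * R) * N * (x ^ a * n.choose a) :=
              mul_le_mul_of_nonneg_left hup (by positivity)
          _ = _ := by rw [hY]; ring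
      have h2 : ((K : ℝ) * (B * R) * N * (((t + a).choose a : ℕ) : ℝ)) ^ (B + 1) ≤
          Real.exp (-(4 * n)) * (n.choose a : ℝ) ^ (B + 1) := by
        calc _ ≤ (Y * n.choose a) ^ (B + 1) := pow_le_pow_left₀ (by positivity) h1 _
          _ = Y ^ (B + 1) * (n.choose a : ℝ) ^ (B + 1) := mul_pow _ _ _
          _ ≤ _ := mul_le_mul_of_nonneg_right hY2 (by positivity)
      calc _ ≤ 2 * ((2 : ℝ) ^ n * (Real.exp (-(4 * n)) * (n.choose a : ℝ) ^ (B + 1))) := by
            apply mul_le_mul_of_nonneg_left _ (by norm_num)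
            exact mul_le_mul_of_nonneg_left h2 (by positivity)
        _ = (2 * ((2 : ℝ) ^ n * Real.exp (-(4 * n)))) * (n.choose a : ℝ) ^ (B + 1) := by ring
        _ < 1 * (n.choose a : ℝ) ^ (B + 1) := mul_lt_mul_of_pos_right hfin (by positivity)
        _ = _ := one_mul _
    exact_mod_cast hgoal
  · -- second condition
    have hle : (n - t).choose a ≤ n.choose a := Nat.choose_le_choose a (Nat.sub_le n t)
    have h1 : (((n.choose a - (n - t).choose a : ℕ) : ℝ)) ^ N ≤
        Real.exp (-(4 * n)) * (n.choose a : ℝ) ^ N := by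
      rw [Nat.cast_sub hle]
      have h2 : (n.choose a : ℝ) - ((n - t).choose a : ℕ) ≤
          Real.exp (-(1 - x) ^ a) * n.choose a := by
        have h3 : 1 - (1 - x) ^ a ≤ Real.exp (-(1 - x) ^ a) := by
          have := Real.add_one_le_exp (-(1 - x) ^ a)
          linarith
        calc _ ≤ (1 - (1 - x) ^ a) * n.choose a := by linarith
          _ ≤ _ := mul_le_mul_of_nonneg_right h3 hc.le
      have h4 : (0 : ℝ) ≤ (n.choose a : ℝ) - ((n - t).choose a : ℕ) := by
        rw [sub_nonneg]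
        exact_mod_cast hle
      calc _ ≤ (Real.exp (-(1 - x) ^ a) * n.choose a) ^ N := pow_le_pow_left₀ h4 h2 _
        _ = (Real.exp (-(1 - x) ^ a)) ^ N * (n.choose a : ℝ) ^ N := mul_pow _ _ _
        _ ≤ _ := by
            apply mul_le_mul_of_nonneg_right _ (by positivity)
            rw [← Real.exp_nat_mul]
            apply Real.exp_le_exp.mpr
            rw [div_le_iff₀ hpa] at hN1
            linarith
    have hfin : 2 * ((2 : ℝ) ^ n * K * (B * R) * Real.exp (-(4 * n))) < 1 := by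
      have hK3 : (K : ℝ) ≤ 2 * Real.exp (1 / 4 * n) := by
        refine hK2.trans ?_
        have := Real.exp_le_exp.mpr (mul_le_mul_of_nonneg_right hρ2 hn0.le)
        linarith
      calc 2 * ((2 : ℝ) ^ n * K * (B * R) * Real.exp (-(4 * n)))
          ≤ 2 * (Real.exp n * (2 * Real.exp (1 / 4 * n)) * (B * R) * Real.exp (-(4 * n))) := by
            apply mul_le_mul_of_nonneg_left _ (by norm_num)
            apply mul_le_mul_of_nonneg_right _ (by positivity)
            apply mul_le_mul_of_nonneg_right _ (by positivity)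
            exact mul_le_mul hpow hK3 (Nat.cast_nonneg _) (Real.exp_pos _).le
        _ = 12 * B * 2 ^ B * (n : ℝ) ^ 1 * Real.exp (-(11 / 4 * n)) := by
            have : Real.exp n * Real.exp (1 / 4 * n) * Real.exp (-(4 * n)) =
                Real.exp (-(11 / 4 * n)) := by
              rw [← Real.exp_add, ← Real.exp_add]
              congr 1
              ring
            rw [hRr]
            linear_combination (12 * (B : ℝ) * 2 ^ B * n) * this
        _ < 1 := hE2
    have hgoal : 2 * ((2 : ℝ) ^ n * K * (B * R) *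
        (((n.choose a - (n - t).choose a : ℕ) : ℝ)) ^ N) < (n.choose a : ℝ) ^ N := by
      calc _ ≤ 2 * ((2 : ℝ) ^ n * K * (B * R) * (Real.exp (-(4 * n)) * (n.choose a : ℝ) ^ N)) := by
            apply mul_le_mul_of_nonneg_left _ (by norm_num)
            exact mul_le_mul_of_nonneg_left h1 (by positivity)
        _ = (2 * ((2 : ℝ) ^ n * K * (B * R) * Real.exp (-(4 * n)))) * (n.choose a : ℝ) ^ N := by ring
        _ < 1 * (n.choose a : ℝ) ^ N := mul_lt_mul_of_pos_right hfin (by positivity)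
        _ = _ := one_mul _
    exact_mod_cast hgoal
  · -- third condition
    have hone : 1 ≤ 2 ^ B := Nat.one_le_two_pow
    have h1 : (((2 ^ B - 1 : ℕ) : ℝ)) ^ R ≤ Real.exp (-(3 * n)) * ((2 : ℝ) ^ B) ^ R := by
      have h2 : ((2 ^ B - 1 : ℕ) : ℝ) ≤ Real.exp (-((2 : ℝ) ^ B)⁻¹) * (2 : ℝ) ^ B := by
        rw [Nat.cast_sub hone]
        push_cast
        have h3 : 1 - ((2 : ℝ) ^ B)⁻¹ ≤ Real.exp (-((2 : ℝ) ^ B)⁻¹) := by
          have := Real.add_one_le_exp (-((2 : ℝ) ^ B)⁻¹)
          linarith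
        calc (2 : ℝ) ^ B - 1 = (1 - ((2 : ℝ) ^ B)⁻¹) * (2 : ℝ) ^ B := by
              rw [sub_mul, inv_mul_cancel₀ (by positivity), one_mul]
          _ ≤ _ := mul_le_mul_of_nonneg_right h3 (by positivity)
      calc _ ≤ (Real.exp (-((2 : ℝ) ^ B)⁻¹) * (2 : ℝ) ^ B) ^ R :=
            pow_le_pow_left₀ (Nat.cast_nonneg _) h2 _
        _ = (Real.exp (-((2 : ℝ) ^ B)⁻¹)) ^ R * ((2 : ℝ) ^ B) ^ R := mul_pow _ _ _
        _ = Real.exp (-(3 * n)) * ((2 : ℝ) ^ B) ^ R := by
            congr 1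
            rw [← Real.exp_nat_mul, hRr]
            congr 1
            have : (2 : ℝ) ^ B ≠ 0 := by positivity
            field_simp
    have hfin : (2 : ℝ) ^ n * K * Real.exp (-(3 * n)) < 1 := by
      have hK3 : (K : ℝ) ≤ Real.exp n * Real.exp (1 / 4 * n) := by
        refine hK2.trans ?_
        have h5 := Real.exp_le_exp.mpr (mul_le_mul_of_nonneg_right hρ2 hn0.le)
        have h6 : (2 : ℝ) ≤ Real.exp n := by
          have := Real.add_one_le_exp (n : ℝ)
          linarith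
        exact mul_le_mul h6 h5 (Real.exp_pos _).le (Real.exp_pos _).le
      calc (2 : ℝ) ^ n * K * Real.exp (-(3 * n))
          ≤ Real.exp n * (Real.exp n * Real.exp (1 / 4 * n)) * Real.exp (-(3 * n)) := by
            apply mul_le_mul_of_nonneg_right _ (Real.exp_pos _).le
            exact mul_le_mul hpow hK3 (Nat.cast_nonneg _) (Real.exp_pos _).le
        _ = Real.exp (-(3 / 4 * n)) := by
            rw [← Real.exp_add, ← Real.exp_add, ← Real.exp_add]
            congr 1
            ring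
        _ < 1 := by
            rw [Real.exp_lt_one_iff]
            linarith
    have hgoal : (2 : ℝ) ^ n * K * (((2 ^ B - 1 : ℕ) : ℝ)) ^ R < ((2 : ℝ) ^ B) ^ R := by
      calc _ ≤ (2 : ℝ) ^ n * K * (Real.exp (-(3 * n)) * ((2 : ℝ) ^ B) ^ R) :=
            mul_le_mul_of_nonneg_left h1 (by positivity)
        _ = ((2 : ℝ) ^ n * K * Real.exp (-(3 * n))) * ((2 : ℝ) ^ B) ^ R := by ring
        _ < 1 * ((2 : ℝ) ^ B) ^ R := mul_lt_mul_of_pos_right hfin (by positivity)
        _ = _ := one_mul _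
    exact_mod_cast hgoal

end Pool.Agent.H517R2.RS
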