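import Pool.Agent.H517R2.RS.Defs

/-!
# RS6: existence of anchors, combinatorial part
-/

set_option autoImplicit false

namespace Pool.Agent.H517R2.RS

open Finset

theorem ANCC_card_sub {n a : ℕ} (F : Finset (Fin n)) :
    ((univ : Finset {S : Finset (Fin n) // S.card = a}).filter (fun x => x.1 ⊆ F)).card =
      F.card.choose a := by
  classical
  rw [← Finset.card_powersetCard a F]
  refine Finset.card_bij (fun x _ => x.1) ?_ ?_ ?_
  · intro x hx
    rw [Finset.mem_filter] at hx
    rw [Finset.mem_powersetCard]
    exact ⟨hx.2, x.2⟩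
  · intro x _ y _ h
    exact Subtype.ext h
  · intro b hb
    rw [Finset.mem_powersetCard] at hb
    exact ⟨⟨b, hb.2⟩, by rw [Finset.mem_filter]; exact ⟨Finset.mem_univ _, hb.1⟩, rfl⟩

theorem ANCC_card_dis {n a : ℕ} (E : Finset (Fin n)) :
    ((univ : Finset {S : Finset (Fin n) // S.card = a}).filter (fun x => Disjoint x.1 E)).card =
      (n - E.card).choose a := by
  classical
  have h : (univ : Finset {S : Finset (Fin n) // S.card = a}).filter (fun x => Disjoint x.1 E) =
      univ.filter (fun x => x.1 ⊆ Eᶜ) := by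
    apply Finset.filter_congr
    intro x _
    rw [Finset.subset_compl_iff_disjoint_right]
  rw [h, ANCC_card_sub, Finset.card_compl, Fintype.card_fin]

theorem t_ANCC (h1 : RND) (h2 : TOUR) : ANCC := by
  classical
  intro n t a K R N B hB hc1 hc2 hc3
  have hpos : 0 < n.choose a := by
    rcases Nat.eq_zero_or_pos (n.choose a) with h | h
    · rw [h, zero_pow (by omega)] at hc1
      exact absurd hc1 (Nat.not_lt_zero _)
    · exact h
  have han : a ≤ n := by
    by_contra h
    rw [Nat.choose_eq_zero_of_lt (by omega)] at hpos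
    exact lt_irrefl _ hpos
  have hcX : Fintype.card {S : Finset (Fin n) // S.card = a} = n.choose a := by
    rw [Fintype.card_finset_len, Fintype.card_fin]
  have : Nonempty {S : Finset (Fin n) // S.card = a} := by
    rw [← Fintype.card_pos_iff, hcX]; exact hpos
  have hcA : Fintype.card {F : Finset (Fin n) // F.card ≤ t + a} ≤ 2 ^ n := by
    refine (Fintype.card_subtype_le _).trans ?_
    rw [Fintype.card_finset, Fintype.card_fin]
  have hcE : Fintype.card {E : Finset (Fin n) // E.card ≤ t} ≤ 2 ^ n := by
    refine (Fintype.card_subtype_le _).trans ?_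
    rw [Fintype.card_finset, Fintype.card_fin]
  obtain ⟨f, hf1, hf2⟩ := h1 {S : Finset (Fin n) // S.card = a} (Fin K × Fin (B * R) × Fin N)
    {F : Finset (Fin n) // F.card ≤ t + a}
    ({E : Finset (Fin n) // E.card ≤ t} × Fin K × Fin (B * R))
    (fun F => univ.filter (fun x => x.1 ⊆ F.1)) ((t + a).choose a) B
    (fun p => (univ : Finset (Fin N)).image (fun l => (p.2.1, p.2.2, l)))
    (fun p => univ.filter (fun x => Disjoint x.1 p.1.1)) N ((n - t).choose a)
    (by
      intro F
      rw [ANCC_card_sub]
      exact Nat.choose_le_choose a F.2)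
    (by
      intro p
      rw [Finset.card_image_of_injective, Finset.card_univ, Fintype.card_fin]
      intro x y h
      simpa using h)
    (by
      intro p
      rw [ANCC_card_dis]
      exact Nat.choose_le_choose a (Nat.sub_le_sub_left p.1.2 n))
    (by
      rw [hcX]
      refine lt_of_le_of_lt ?_ hc1
      have e1 : Fintype.card (Fin K × Fin (B * R) × Fin N) = K * (B * R) * N := by
        rw [Fintype.card_prod, Fintype.card_prod, Fintype.card_fin, Fintype.card_fin,
          Fintype.card_fin]
        ring
      rw [e1]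
      exact Nat.mul_le_mul_left _ (Nat.mul_le_mul_right _ hcA))
    (by
      rw [hcX]
      refine lt_of_le_of_lt ?_ hc2
      have e1 : Fintype.card ({E : Finset (Fin n) // E.card ≤ t} × Fin K × Fin (B * R)) =
          Fintype.card {E : Finset (Fin n) // E.card ≤ t} * K * (B * R) := by
        rw [Fintype.card_prod, Fintype.card_prod, Fintype.card_fin, Fintype.card_fin, mul_assoc]
      rw [e1]
      exact Nat.mul_le_mul_left _ (Nat.mul_le_mul_right _
        (Nat.mul_le_mul_right _ (Nat.mul_le_mul_right _ hcE))))
  -- the chosen indices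
  have hl : ∀ (p : {E : Finset (Fin n) // E.card ≤ t} × Fin K) (r : Fin (B * R)),
      ∃ l : Fin N, Disjoint (f (p.2, r, l)).1 p.1.1 := by
    intro p r
    obtain ⟨i, hi, hi2⟩ := hf2 (p.1, p.2, r)
    rw [Finset.mem_image] at hi
    obtain ⟨l, _, rfl⟩ := hi
    rw [Finset.mem_filter] at hi2
    exact ⟨l, hi2.2⟩
  choose lc hlc using hl
  set D : ({E : Finset (Fin n) // E.card ≤ t} × Fin K) → Finset (Fin K × Fin (B * R) × Fin N) :=
    fun p => (univ : Finset (Fin (B * R))).image (fun r => (p.2, r, lc p r)) with hD
  have hDmem : ∀ p, ∀ i ∈ D p, i.1 = p.2 ∧ Disjoint (f i).1 p.1.1 := by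
    intro p i hi
    rw [hD, Finset.mem_image] at hi
    obtain ⟨r, _, rfl⟩ := hi
    exact ⟨rfl, hlc p r⟩
  have hDcard : ∀ p, (D p).card = B * R := by
    intro p
    rw [hD]
    rw [Finset.card_image_of_injective, Finset.card_univ, Fintype.card_fin]
    intro x y h
    simp only [Prod.mk.injEq] at h
    exact h.2.1
  have hfib : ∀ F : Finset (Fin n), F.card ≤ t + a →
      ((univ : Finset (Fin K × Fin (B * R) × Fin N)).filter (fun i => (f i).1 ⊆ F)).card ≤ B := by
    intro F hF
    have h := hf1 ⟨F, hF⟩
    have e : (univ : Finset (Fin K × Fin (B * R) × Fin N)).filter (fun i => (f i).1 ⊆ F) =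
        univ.filter (fun i => f i ∈ (univ : Finset {S : Finset (Fin n) // S.card = a}).filter
          (fun x => x.1 ⊆ F)) := by
      apply Finset.filter_congr
      intro i _
      rw [Finset.mem_filter]
      simp
    rw [e]
    exact h
  have hCex : ∀ p : {E : Finset (Fin n) // E.card ≤ t} × Fin K, ∃ C : Finset _, C ⊆ D p ∧
      R ≤ C.card ∧ ∀ x ∈ C, ∀ y ∈ C, f x = f y → x = y := by
    intro p
    have hpre : ∀ v : {S : Finset (Fin n) // S.card = a}, ∃ g : Fin K × Fin (B * R) × Fin N,
        v ∈ (D p).image f → g ∈ D p ∧ f g = v := by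
      intro v
      by_cases hv : v ∈ (D p).image f
      · obtain ⟨g, hg1, hg2⟩ := Finset.mem_image.1 hv
        exact ⟨g, fun _ => ⟨hg1, hg2⟩⟩
      · by_cases hne : Nonempty (Fin K × Fin (B * R) × Fin N)
        · exact ⟨hne.some, fun h => absurd h hv⟩
        · exfalso
          have hempty : IsEmpty (Fin K × Fin (B * R) × Fin N) := not_nonempty_iff.1 hne
          -- then every index type is empty; use the index supplied by `lc`
          rcases Nat.eq_zero_or_pos (B * R) with hBR | hBR
          · have hR : R = 0 := by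
              rcases Nat.mul_eq_zero.1 hBR with h | h
              · omega
              · exact h
            rw [hR, pow_zero, pow_zero, mul_one] at hc3
            have hK : 0 < K := p.2.pos
            have : 1 ≤ 2 ^ n * K := Nat.succ_le_of_lt (by positivity)
            omega
          · exact hempty.false (p.2, ⟨0, hBR⟩, lc p ⟨0, hBR⟩)
    choose g hg using hpre
    refine ⟨((D p).image f).image g, ?_, ?_, ?_⟩
    · intro x hx
      rw [Finset.mem_image] at hx
      obtain ⟨v, hv, rfl⟩ := hx
      exact (hg v hv).1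
    · rw [Finset.card_image_of_injOn]
      · have h3 : (D p).card ≤ B * ((D p).image f).card := by
          apply Finset.card_le_mul_card_image
          intro v _
          refine le_trans (Finset.card_le_card ?_) (hfib v.1 (by rw [v.2]; omega))
          intro i hi
          rw [Finset.mem_filter] at hi ⊢
          exact ⟨Finset.mem_univ _, by rw [hi.2]⟩
        rw [hDcard] at h3
        exact Nat.le_of_mul_le_mul_left h3 (by omega)
      · intro v hv w hw h
        have e1 := (hg v hv).2
        have e2 := (hg w hw).2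
        rw [← e1, ← e2]
        exact congrArg f h
    · intro x hx y hy hxy
      rw [Finset.mem_image] at hx hy
      obtain ⟨v, hv, rfl⟩ := hx
      obtain ⟨w, hw, rfl⟩ := hy
      rw [(hg v hv).2, (hg w hw).2] at hxy
      rw [hxy]
  choose C hCD hCR hCinj using hCex
  obtain ⟨T, hT1, hT2⟩ := h2 (Fin K × Fin (B * R) × Fin N)
    ({E : Finset (Fin n) // E.card ≤ t} × Fin K) B R C
    (fun p l => univ.filter (fun i => i ≠ l ∧ (f i).1 ⊆ p.1.1 ∪ (f l).1)) hCR
    (by
      intro p l hl
      constructor
      · refine le_trans (Finset.card_le_card ?_) (hfib (p.1.1 ∪ (f l).1) ?_)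
        · intro i hi
          rw [Finset.mem_filter] at hi ⊢
          exact ⟨hi.1, hi.2.2⟩
        · refine (Finset.card_union_le _ _).trans ?_
          rw [(f l).2]
          exact Nat.add_le_add_right p.1.2 a
      · rw [Finset.disjoint_left]
        intro i hi hiC
        rw [Finset.mem_filter] at hi
        obtain ⟨_, hne, hsub⟩ := hi
        have hd := (hDmem p i (hCD p hiC)).2
        have hsub2 : (f i).1 ⊆ (f l).1 := by
          intro x hx
          rcases Finset.mem_union.1 (hsub hx) with h | h
          · exact absurd h (Finset.disjoint_left.1 hd hx)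
          · exact h
        have heq : (f i).1 = (f l).1 :=
          Finset.eq_of_subset_of_card_le hsub2 (by rw [(f i).2, (f l).2])
        exact hne (hCinj p i hiC l hl (Subtype.ext heq)))
    (by
      refine lt_of_le_of_lt ?_ hc3
      rw [Fintype.card_prod, Fintype.card_fin]
      exact Nat.mul_le_mul_right _ (Nat.mul_le_mul_right _ hcE))
  choose L hLC hLT using hT2
  refine ⟨fun E k => if h : E.card ≤ t then (f (L (⟨E, h⟩, k))).1 else ∅, ?_, ?_⟩
  · intro E k hE
    simp only [dif_pos hE]
    exact ⟨(f _).2, (hDmem _ _ (hCD _ (hLC (⟨E, hE⟩, k)))).2⟩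
  · intro E E' k k' hE hE' hs hs'
    simp only [dif_pos hE, dif_pos hE'] at hs hs' ⊢
    have hLL : L (⟨E, hE⟩, k) = L (⟨E', hE'⟩, k') := by
      by_contra hne
      have t1 := hLT (⟨E, hE⟩, k) (L (⟨E', hE'⟩, k'))
        (by rw [Finset.mem_filter]; exact ⟨Finset.mem_univ _, fun h => hne h.symm, hs'⟩)
      have t2 := hLT (⟨E', hE'⟩, k') (L (⟨E, hE⟩, k))
        (by rw [Finset.mem_filter]; exact ⟨Finset.mem_univ _, hne, hs⟩)
      exact hT1 _ _ hne t1 t2
    refine ⟨by rw [hLL], ?_⟩
    have k1 := (hDmem _ _ (hCD _ (hLC (⟨E, hE⟩, k)))).1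
    have k2 := (hDmem _ _ (hCD _ (hLC (⟨E', hE'⟩, k')))).1
    rw [hLL] at k1
    rw [k1] at k2
    exact k2

end Pool.Agent.H517R2.RS
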