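import Pool.Agent.H517R2.RS.Defs

/-!
# RS, task BASE: a single stage
-/

set_option autoImplicit false

namespace Pool.Agent.H517R2.RS

open Finset

theorem base_emb {n Q d M : ℕ} (hM : M ≤ Q ^ d) (S : Finset (Fin n)) (hS : S.card = d) :
    Nonempty (Fin M ↪ (S → Fin Q)) := by
  apply Function.Embedding.nonempty_of_card_le
  simp [hS, hM]

theorem t_BASE (h : COV) : BASE := by
  intro n t Q d g J M hQ hdt hg hJ hM G hG
  obtain ⟨D, hD, hcov⟩ := h n t g d J hdt hg hJ G hG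
  refine ⟨D, hD, hcov, ?_⟩
  have ψ : ∀ i, Fin M ↪ (D i → Fin Q) := fun i => (base_emb hM (D i) (hD i).2).some
  refine ⟨fun m _ i p => if hp : p ∈ D i then ψ i m ⟨p, hp⟩ else ⟨0, hQ⟩, ?_⟩
  intro i m m' E E' _ _ h1 h2 h3
  apply (ψ i).injective
  funext p
  have hp := p.2
  have h4 := h3 p.1 ((hD i).1 hp) (Finset.disjoint_left.mp h1 hp) (Finset.disjoint_left.mp h2 hp)
  simpa [hp] using h4

end Pool.Agent.H517R2.RS
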