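import Pool.Agent.H517R2.RS.Defs2

/-! Task BASE2 (helper873, duplicate) -/

set_option autoImplicit false

namespace Pool.Agent.H517R2.RS

open Finset

theorem t_BASE2 (h1 : COV) (h2 : WORDS) : BASE2 := by
  classical
  intro n t Q d b g J M hQ hdt hg hJ hM G hG
  obtain ⟨D, hD, hE⟩ := h1 n t g d J hdt hg hJ G hG
  refine ⟨D, hD, hE, ?_⟩
  have hψ := fun i => h2 n Q d b M (D i) hQ (hD i).2 hM
  choose ψ hψ0 hψb hψi using hψ
  refine ⟨fun m _ i p => ψ i m p, fun m _ i => hψb i m, ?_⟩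
  intro i m m' E E' _ _ hd1 hd2 hx
  apply hψi i
  intro p hp
  exact hx p ((hD i).1 hp) (Finset.disjoint_left.1 hd1 hp) (Finset.disjoint_left.1 hd2 hp)

end Pool.Agent.H517R2.RS
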