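import Pool.Agent.H517R2.RS.Defs

set_option autoImplicit false

/-!
# BINE: lower bound of binomial coefficients by entropy
-/

namespace Pool.Agent.H517R2.RS


theorem bine_core (l t : ℕ) (h1 : 1 ≤ t) (h2 : t ≤ l)
    (h : (l : ℝ) ^ l ≤ (l + 1) * (l.choose t : ℝ) * (t : ℝ) ^ t * ((l - t : ℕ) : ℝ) ^ (l - t)) :
    (l : ℝ) * Real.binEntropy ((t : ℝ) / l) ≤ Real.log (l + 1) + Real.log (l.choose t) := by
  have hl : (0 : ℝ) < l := by exact_mod_cast (by omega : 0 < l)
  rcases h2.eq_or_lt with rfl | h3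
  · rw [div_self hl.ne', Real.binEntropy_one, mul_zero, Nat.choose_self]
    have : 0 ≤ Real.log ((t : ℝ) + 1) := Real.log_nonneg (by linarith)
    simpa using this
  · have ht : (0 : ℝ) < t := by exact_mod_cast (by omega : 0 < t)
    obtain ⟨u, rfl⟩ : ∃ u, l = t + u := ⟨l - t, by omega⟩
    have hu : (0 : ℝ) < u := by exact_mod_cast (by omega : 0 < u)
    have hc : (0 : ℝ) < ((t + u).choose t : ℕ) := by
      exact_mod_cast Nat.choose_pos (by omega)
    rw [Nat.add_sub_cancel_left] at h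
    have h4 := Real.log_le_log (by positivity) h
    rw [Real.log_pow, Real.log_mul (by positivity) (by positivity),
      Real.log_mul (by positivity) (by positivity), Real.log_mul (by positivity) (by positivity),
      Real.log_pow, Real.log_pow] at h4
    have e1 : (1 : ℝ) - (t : ℝ) / ((t + u : ℕ) : ℝ) = (u : ℝ) / ((t + u : ℕ) : ℝ) := by
      push_cast
      field_simp
      ring
    have e2 : ((t + u : ℕ) : ℝ) * Real.binEntropy ((t : ℝ) / ((t + u : ℕ) : ℝ)) =
        ((t + u : ℕ) : ℝ) * Real.log ((t + u : ℕ) : ℝ) - t * Real.log t - u * Real.log u := by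
      unfold Real.binEntropy
      rw [e1, inv_div, inv_div, Real.log_div hl.ne' ht.ne', Real.log_div hl.ne' hu.ne']
      have e3 : (((t + u : ℕ) : ℝ)) = (t : ℝ) + u := by push_cast; ring
      have hs : (t : ℝ) + u ≠ 0 := by positivity
      rw [e3]
      field_simp
      ring
    rw [e2]
    linarith

/-- BINE -/
theorem t_BINE (h : MODE) : BINE := by
  intro l t h1 h2
  have h3 := h l t h2
  have h4 : (l : ℝ) ^ l ≤ (l + 1) * (l.choose t : ℝ) * (t : ℝ) ^ t *
      ((l - t : ℕ) : ℝ) ^ (l - t) := by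
    have h5 : ((l ^ l : ℕ) : ℝ) ≤ (((l + 1) * (l.choose t * (t ^ t * (l - t) ^ (l - t))) : ℕ) : ℝ) := by
      exact_mod_cast h3
    have h6 : (((l + 1) * (l.choose t * (t ^ t * (l - t) ^ (l - t))) : ℕ) : ℝ) =
        (l + 1) * (l.choose t : ℝ) * (t : ℝ) ^ t * ((l - t : ℕ) : ℝ) ^ (l - t) := by
      push_cast [Nat.cast_sub h2]
      ring
    rw [h6] at h5
    simpa using h5
  have := bine_core l t h1 h2 h4
  linarith

end Pool.Agent.H517R2.RS
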