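import Pool.Agent.H517R2.RS.Defs2

/-! Task CHN2 (helper873, adapted from CHN of helper623): the chain of `L` stages. -/

set_option autoImplicit false

namespace Pool.Agent.H517R2.RS

open Finset

lemma chn2_Jf_ge (t d g : ℕ) (h : d + t ≤ g) :
    g * g.choose d ≤ Jf t d g * (g - t).choose d := by
  unfold Jf
  have hpos : 0 < (g - t).choose d := Nat.choose_pos (by omega)
  have := Nat.div_add_mod (g * g.choose d) ((g - t).choose d)
  have hlt := Nat.mod_lt (g * g.choose d) hpos
  nlinarith

lemma chn2_Jf_le (t d g : ℕ) :
    Jf t d g * (g - t).choose d ≤ (g + 1) * g.choose d := by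
  unfold Jf
  have h1 : g * g.choose d / (g - t).choose d * (g - t).choose d ≤ g * g.choose d :=
    Nat.div_mul_le_self _ _
  have h2 : (g - t).choose d ≤ g.choose d := Nat.choose_le_choose d (Nat.sub_le _ _)
  nlinarith

lemma chn2_arith (G t d m : ℕ) (h : d + m + t ≤ G) :
    G.choose d * (G - d).choose m = G.choose (d + m) * (d + m).choose d ∧
    (G - t).choose d * (G - t - d).choose m = (G - t).choose (d + m) * (d + m).choose d := by
  constructor
  · have := Nat.choose_mul (n := G) (k := d + m) (s := d) (by omega)
    rw [this, Nat.add_sub_cancel_left]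
  · have := Nat.choose_mul (n := G - t) (k := d + m) (s := d) (by omega)
    rw [this, Nat.add_sub_cancel_left]

theorem t_CHN2 (h1 : BASE2) (h2 : STEP2) : CHN2 := by
  intro n t Q d b L
  induction L with
  | zero => intro g _ _ h; omega
  | succ L ih =>
    intro g hQ hd _ hLg hgn hcond
    generalize hW : Wn Q d b = W at hcond ih ⊢
    rcases Nat.eq_zero_or_pos L with hL0 | hL
    · subst hL0
      refine ⟨W, ?_, ?_, ?_⟩
      · have h3 := h1 n t Q d b g (Jf t d g) W hQ (by omega) (by omega)
          (chn2_Jf_ge t d g (by omega)) hW.ge
        have e : (0 + 1) * b = b := by ring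
        rw [e]
        exact h3
      · simp
      · simp
    · have hLd : (L + 1) * d = L * d + d := by ring
      have hdL : d ≤ L * d := Nat.le_mul_of_pos_left d hL
      have hLd1 : (L - 1) * d + d = L * d := by
        obtain ⟨k, rfl⟩ : ∃ k, L = k + 1 := ⟨L - 1, by omega⟩
        simp
        ring
      obtain ⟨M', hM', hMW, hI⟩ := ih (g - d) hQ hd hL (by omega) (by omega) (by
        intro g' ha hb
        apply hcond g'
        · have : (L + 1 - 1) * d = L * d := by simp
          omega
        · omega)
      set G := g - d with hG
      have hcG : 2 * n * G.choose d ≤ W * (G - t).choose d := by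
        apply hcond G
        · have : (L + 1 - 1) * d = L * d := by simp
          omega
        · omega
      have hCpos : 0 < (G - t).choose d := Nat.choose_pos (by omega)
      have hJ1 : Jf t d G * (G - t).choose d ≤ 2 * n * G.choose d := by
        refine (chn2_Jf_le t d G).trans ?_
        exact Nat.mul_le_mul_right _ (by omega)
      have hJQ : Jf t d G ≤ W := by
        have := hJ1.trans hcG
        exact Nat.le_of_mul_le_mul_right this hCpos
      have hJpos : 0 < Jf t d G := by unfold Jf; exact Nat.succ_pos _
      set M1 := W / Jf t d G with hM1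
      have hM1pos : 1 ≤ M1 := by
        rw [hM1]
        exact (Nat.one_le_div_iff hJpos).2 hJQ
      have hM1J : M1 * Jf t d G ≤ W := Nat.div_mul_le_self _ _
      have hM1W : M1 ≤ W := Nat.div_le_self _ _
      have hQ2 : W ≤ 2 * Jf t d G * M1 := by
        have e1 := Nat.div_add_mod W (Jf t d G)
        have e2 := Nat.mod_lt W hJpos
        rw [← hM1] at e1
        nlinarith
      refine ⟨M1 * M', ?_, ?_, ?_⟩
      · have h3 := h2 n t Q d b (L * b) g (Jf t d g) M1 (Jf t d G) M' hQ (by omega) (by omega)
          (chn2_Jf_ge t d g (by omega)) hM' (hM1J.trans hW.ge)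
        have e : (L + 1) * b = b + L * b := by ring
        rw [e]
        exact h3
      · rw [pow_succ, mul_comm (W ^ L) W]
        exact Nat.mul_le_mul hM1W hMW
      · have hsub : L + 1 - 1 = L := by omega
        rw [hsub]
        have hA : W * (G - t).choose d ≤ 4 * n * M1 * G.choose d := by
          calc W * (G - t).choose d ≤ 2 * Jf t d G * M1 * (G - t).choose d :=
                Nat.mul_le_mul_right _ hQ2
            _ = 2 * M1 * (Jf t d G * (G - t).choose d) := by ring
            _ ≤ 2 * M1 * (2 * n * G.choose d) := Nat.mul_le_mul_left _ hJ1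
            _ = 4 * n * M1 * G.choose d := by ring
        obtain ⟨c1, c2⟩ := chn2_arith G t d ((L - 1) * d) (by omega)
        have hdm : d + (L - 1) * d = L * d := by omega
        rw [hdm] at c1 c2
        have hsw : G - d - t = G - t - d := by omega
        rw [hsw] at hI
        have hpos : 0 < (L * d).choose d := Nat.choose_pos hdL
        have hmul := Nat.mul_le_mul hA hI
        refine Nat.le_of_mul_le_mul_right (c := (L * d).choose d) ?_ hpos
        have hpw : (4 * n) ^ L = 4 * n * (4 * n) ^ (L - 1) := by
          obtain ⟨k, rfl⟩ : ∃ k, L = k + 1 := ⟨L - 1, by omega⟩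
          simp [pow_succ]
          ring
        calc W ^ (L + 1) * (G - t).choose (L * d) * (L * d).choose d
            = W ^ L * W * ((G - t).choose (L * d) * (L * d).choose d) := by
              rw [pow_succ]; ring
          _ = (W * (G - t).choose d) * (W ^ L * (G - t - d).choose ((L - 1) * d)) := by
              rw [← c2]; ring
          _ ≤ (4 * n * M1 * G.choose d) *
              (M' * (4 * n) ^ (L - 1) * (G - d).choose ((L - 1) * d)) := hmul
          _ = M1 * M' * (4 * n * (4 * n) ^ (L - 1)) *
              (G.choose d * (G - d).choose ((L - 1) * d)) := by ring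
          _ = M1 * M' * (4 * n) ^ L * G.choose (L * d) * (L * d).choose d := by
              rw [c1, ← hpw]; ring

end Pool.Agent.H517R2.RS
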