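import Pool.Agent.H517R2.RS.Defs

/-! Task CHU: upper bound of binomial coefficients by entropy. -/

namespace Pool.Agent.H517R2.RS

theorem chu_aux (n t : ℕ) (τ : ℝ) (h0 : 0 < τ) (h1 : τ < 1 / 2) (ht : (t : ℝ) ≤ τ * n) :
    Real.log (n.choose t) ≤ n * Real.binEntropy τ := by
  have h1' : 0 < 1 - τ := by linarith
  have hn0 : (0 : ℝ) ≤ n := Nat.cast_nonneg n
  have htn : t ≤ n := by
    have : (t : ℝ) ≤ n := by nlinarith
    exact_mod_cast this
  have hc : 0 < n.choose t := Nat.choose_pos htn
  have hcR : (0 : ℝ) < n.choose t := by exact_mod_cast hc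
  have hsum : (n.choose t : ℝ) * (τ ^ t * (1 - τ) ^ (n - t)) ≤ 1 := by
    have hb := add_pow τ (1 - τ) n
    have e1 : τ + (1 - τ) = 1 := by ring
    rw [e1, one_pow] at hb
    have := Finset.single_le_sum (f := fun m => τ ^ m * (1 - τ) ^ (n - m) * (n.choose m : ℝ))
      (fun m _ => by positivity) (Finset.mem_range.2 (Nat.lt_succ_of_le htn))
    calc (n.choose t : ℝ) * (τ ^ t * (1 - τ) ^ (n - t)) =
        τ ^ t * (1 - τ) ^ (n - t) * (n.choose t : ℝ) := by ring
      _ ≤ _ := this
      _ = 1 := hb.symm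
  have hpos : 0 < τ ^ t * (1 - τ) ^ (n - t) := by positivity
  have hlog := Real.log_le_log (by positivity) hsum
  rw [Real.log_one, Real.log_mul (by positivity) (by positivity),
    Real.log_mul (by positivity) (by positivity), Real.log_pow, Real.log_pow,
    Nat.cast_sub htn] at hlog
  have hbr : 0 ≤ Real.log (1 - τ) - Real.log τ := by
    have := Real.log_le_log h0 (show τ ≤ 1 - τ by linarith)
    linarith
  have hbin : Real.binEntropy τ = - (τ * Real.log τ) - (1 - τ) * Real.log (1 - τ) := by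
    rw [Real.binEntropy]
    rw [Real.log_inv, Real.log_inv]
    ring
  rw [hbin]
  nlinarith [mul_le_mul_of_nonneg_right ht hbr]

theorem t_CHU : CHU := fun τ h0 h1 n t ht => chu_aux n t τ h0 h1 ht

end Pool.Agent.H517R2.RS
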