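import Pool.Agent.H517R2.RS.Defs

/-!
# Localized errors: task COMB
-/

namespace Pool.Agent.H517R2.RS

open Finset
open Pool.Agent.H517R2.LE (Corrects)

/-- the number of messages of one stage -/
theorem comb_stage (n t Q d G : ℕ) (hn : 1 ≤ n) (hdt : d + t ≤ G) (hG : G ≤ n)
    (h : 2 * n * G.choose d ≤ Q ^ d * (G - t).choose d) :
    ∃ M : ℕ, M * Jf t d G ≤ Q ^ d ∧
      Q ^ d * (G - t).choose d ≤ 4 * n * M * G.choose d := by
  set c := (G - t).choose d with hc
  set b := G.choose d with hb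
  have hc0 : 0 < c := Nat.choose_pos (by omega)
  have hcb : c ≤ b := Nat.choose_le_choose d (Nat.sub_le _ _)
  have hJ : Jf t d G = G * b / c + 1 := rfl
  have h1 : Jf t d G * c ≤ 2 * n * b := by
    rw [hJ, add_mul, one_mul]
    calc G * b / c * c + c ≤ G * b + b := Nat.add_le_add (Nat.div_mul_le_self _ _) hcb
      _ = (G + 1) * b := by ring
      _ ≤ (2 * n) * b := Nat.mul_le_mul_right _ (by omega)
  have h2 : Jf t d G ≤ Q ^ d := Nat.le_of_mul_le_mul_right (h1.trans h) hc0
  have hJ0 : 0 < Jf t d G := by rw [hJ]; exact Nat.succ_pos _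
  refine ⟨Q ^ d / Jf t d G, Nat.div_mul_le_self _ _, ?_⟩
  set M := Q ^ d / Jf t d G with hM
  have hM1 : 1 ≤ M := by
    rw [hM, Nat.one_le_div_iff hJ0]
    exact h2
  have h3 : Q ^ d ≤ 2 * M * Jf t d G := by
    have h4 : Q ^ d < Jf t d G * (M + 1) := Nat.lt_mul_div_succ _ hJ0
    have h5 : Jf t d G * (M + 1) ≤ Jf t d G * (2 * M) := Nat.mul_le_mul_left _ (by omega)
    calc Q ^ d ≤ Jf t d G * (2 * M) := (h4.le).trans h5
      _ = 2 * M * Jf t d G := by ring
  calc Q ^ d * c ≤ (2 * M * Jf t d G) * c := Nat.mul_le_mul_right _ h3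
    _ = 2 * M * (Jf t d G * c) := by ring
    _ ≤ 2 * M * (2 * n * b) := Nat.mul_le_mul_left _ h1
    _ = 4 * n * M * b := by ring

theorem comb_mul (n t Q d G m L M M' : ℕ) (hdt : d + m + t ≤ G)
    (h1 : Q ^ d * (G - t).choose d ≤ 4 * n * M * G.choose d)
    (h2 : Q ^ (L * d) * (G - d - t).choose m ≤ M' * (4 * n) ^ (L - 1) * (G - d).choose m)
    (hL : 1 ≤ L) :
    Q ^ ((L + 1) * d) * (G - t).choose (d + m) ≤ (M * M') * (4 * n) ^ L * G.choose (d + m) := by
  have e1 : G.choose (d + m) * (d + m).choose d = G.choose d * (G - d).choose m := by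
    have := Nat.choose_mul (n := G) (k := d + m) (s := d) (by omega)
    rw [this, Nat.add_sub_cancel_left]
  have e2 : (G - t).choose (d + m) * (d + m).choose d =
      (G - t).choose d * (G - d - t).choose m := by
    have := Nat.choose_mul (n := G - t) (k := d + m) (s := d) (by omega)
    rw [this, Nat.add_sub_cancel_left, show G - t - d = G - d - t by omega]
  have hpos : 0 < (d + m).choose d := Nat.choose_pos (by omega)
  apply Nat.le_of_mul_le_mul_right _ hpos
  have h3 := Nat.mul_le_mul h1 h2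
  obtain ⟨l, rfl⟩ : ∃ l, L = l + 1 := ⟨L - 1, by omega⟩
  rw [Nat.add_sub_cancel] at h3
  calc Q ^ ((l + 1 + 1) * d) * (G - t).choose (d + m) * (d + m).choose d
      = Q ^ d * Q ^ ((l + 1) * d) * ((G - t).choose (d + m) * (d + m).choose d) := by
        rw [← pow_add]
        rw [show d + (l + 1) * d = (l + 1 + 1) * d by ring]
        ring
    _ = Q ^ d * (G - t).choose d * (Q ^ ((l + 1) * d) * (G - d - t).choose m) := by
        rw [e2]; ring
    _ ≤ 4 * n * M * G.choose d * (M' * (4 * n) ^ l * (G - d).choose m) := h3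
    _ = M * M' * (4 * n) ^ (l + 1) * (G.choose d * (G - d).choose m) := by ring
    _ = M * M' * (4 * n) ^ (l + 1) * G.choose (d + m) * (d + m).choose d := by
        rw [← e1]; ring

theorem t_COMB (h1 : CHN) (h2 : TOP) : COMB := by
  intro n t a K Q d L s hs hQ hn hd hL hsum hK hnum
  obtain ⟨l, rfl⟩ : ∃ l, L = l + 1 := ⟨L - 1, by omega⟩
  have e1 : (l + 1 + 1) * d = l * d + d + d := by ring
  have e2 : (l + 1) * d = l * d + d := by ring
  rw [e1] at hsum
  obtain ⟨M', hStg, hM'⟩ := h1 n t Q d (l + 1) (n - a - d) hQ hd hL (by rw [e2]; omega)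
    (by omega) (by
      intro g' hg1 hg2
      apply hnum g' _ (by omega)
      rw [e2]
      rw [Nat.add_sub_cancel] at hg1
      omega)
  obtain ⟨M, hMJ, hM⟩ := comb_stage n t Q d (n - a - d) hn (by omega) (by omega)
    (hnum _ (by rw [e2]; omega) le_rfl)
  obtain ⟨f, hf⟩ := h2 n t a K Q d _ M' M s hs hQ hn (by omega) hK hStg hMJ
  refine ⟨M * M', f, hf, ?_⟩
  have h3 := comb_mul n t Q d (n - a - d) (l * d) (l + 1) M M' (by omega) hM
    (by rw [Nat.add_sub_cancel] at hM' ⊢; exact hM') hL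
  rw [show (l + 1) * d = d + l * d by ring]
  exact h3

end Pool.Agent.H517R2.RS
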