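import Pool.Agent.H517R2.RS.Defs2

/-!
# Localized errors: combination of the chain of stages with the anchors (`COMB2`)
-/

namespace Pool.Agent.H517R2.RS

open Finset
open Pool.Agent.H517R2.LE (Corrects)

private lemma comb2_num (n B Q T : ℕ) (hn : 1 ≤ n) (hT : T ≤ (Q + 1) ^ n) :
    2 ^ n * T * (2 ^ B - 1) ^ (2 ^ B * ((Q + 2) * n)) < (2 ^ B) ^ (2 ^ B * ((Q + 2) * n)) := by
  set X : ℕ := 2 ^ B with hX
  have hX1 : 1 ≤ X := Nat.one_le_two_pow
  have hXr : (0 : ℝ) < (X : ℝ) := by exact_mod_cast hX1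
  -- real version
  have key : ((2 ^ n * T * (X - 1) ^ (X * ((Q + 2) * n)) : ℕ) : ℝ) <
      ((X ^ (X * ((Q + 2) * n)) : ℕ) : ℝ) := by
    push_cast [Nat.cast_sub hX1]
    have e1 : ((X : ℝ) - 1) ^ X ≤ X ^ X * Real.exp (-1) := by
      have h0 : (X : ℝ) - 1 = X * (1 - 1 / X) := by field_simp
      rw [h0, mul_pow]
      refine mul_le_mul_of_nonneg_left ?_ (by positivity)
      have h1 : 1 - 1 / (X : ℝ) ≤ Real.exp (-(1 / X)) := by
        have := Real.add_one_le_exp (-(1 / (X : ℝ)))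
        linarith
      have h2 : 0 ≤ 1 - 1 / (X : ℝ) := by
        have : 1 / (X : ℝ) ≤ 1 := by
          rw [div_le_one hXr]; exact_mod_cast hX1
        linarith
      calc (1 - 1 / (X : ℝ)) ^ X ≤ (Real.exp (-(1 / X))) ^ X := pow_le_pow_left₀ h2 h1 _
        _ = Real.exp (-1) := by
            rw [← Real.exp_nat_mul]
            congr 1
            field_simp
    have hXm : (0 : ℝ) ≤ (X : ℝ) - 1 := by
      have : (1 : ℝ) ≤ X := by exact_mod_cast hX1
      linarith
    have e2 : ((X : ℝ) - 1) ^ (X * ((Q + 2) * n)) ≤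
        X ^ (X * ((Q + 2) * n)) * (Real.exp (-1)) ^ ((Q + 2) * n) := by
      have e8 : ((X : ℝ) - 1) ^ (X * ((Q + 2) * n)) = (((X : ℝ) - 1) ^ X) ^ ((Q + 2) * n) :=
        pow_mul _ _ _
      have e9 : (X : ℝ) ^ (X * ((Q + 2) * n)) = ((X : ℝ) ^ X) ^ ((Q + 2) * n) :=
        pow_mul _ _ _
      rw [e8, e9, ← mul_pow]
      exact pow_le_pow_left₀ (by positivity) e1 _
    have e3 : (2 : ℝ) * (Q + 1) < Real.exp (Q + 2) := by
      have h1 : Real.exp ((Q : ℝ) + 2) = Real.exp 1 * Real.exp (Q + 1) := by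
        rw [← Real.exp_add]; congr 1; ring
      have h2 := Real.add_one_le_exp ((Q : ℝ) + 1)
      have h3 : (2.7182818283 : ℝ) < Real.exp 1 := Real.exp_one_gt_d9
      have hQ0 : (0 : ℝ) ≤ Q := Nat.cast_nonneg _
      rw [h1]
      nlinarith [Real.exp_pos ((Q : ℝ) + 1)]
    have e4 : (T : ℝ) ≤ ((Q : ℝ) + 1) ^ n := by exact_mod_cast hT
    have e5 : (2 : ℝ) ^ n * T ≤ (2 * ((Q : ℝ) + 1)) ^ n := by
      rw [mul_pow]
      exact mul_le_mul_of_nonneg_left e4 (by positivity)
    have e6 : (2 * ((Q : ℝ) + 1)) ^ n < (Real.exp (Q + 2)) ^ n :=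
      pow_lt_pow_left₀ e3 (by positivity) (by omega)
    have e7 : (Real.exp ((Q : ℝ) + 2)) ^ n * (Real.exp (-1)) ^ ((Q + 2) * n) = 1 := by
      rw [← Real.exp_nat_mul, ← Real.exp_nat_mul, ← Real.exp_add]
      rw [Real.exp_eq_one_iff]
      push_cast
      ring
    have hp : (0 : ℝ) < (Real.exp (-1)) ^ ((Q + 2) * n) := by positivity
    have hXp : (0 : ℝ) < (X : ℝ) ^ (X * ((Q + 2) * n)) := by positivity
    calc (2 : ℝ) ^ n * T * ((X : ℝ) - 1) ^ (X * ((Q + 2) * n))
        ≤ (2 * ((Q : ℝ) + 1)) ^ n *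
          (X ^ (X * ((Q + 2) * n)) * (Real.exp (-1)) ^ ((Q + 2) * n)) :=
          mul_le_mul e5 e2 (by positivity) (by positivity)
      _ < (Real.exp ((Q : ℝ) + 2)) ^ n *
          (X ^ (X * ((Q + 2) * n)) * (Real.exp (-1)) ^ ((Q + 2) * n)) :=
          mul_lt_mul_of_pos_right e6 (by positivity)
      _ = X ^ (X * ((Q + 2) * n)) *
          ((Real.exp ((Q : ℝ) + 2)) ^ n * (Real.exp (-1)) ^ ((Q + 2) * n)) := by ring
      _ = (X : ℝ) ^ (X * ((Q + 2) * n)) := by rw [e7, mul_one]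
  exact_mod_cast key

private lemma comb2_step (n t d G W : ℕ) (hG : G + 1 ≤ n) (hdt : d + t ≤ G)
    (hc : 2 * n * G.choose d ≤ W * (G - t).choose d) :
    W * (G - t).choose d ≤ 4 * n * (W / Jf t d G) * G.choose d := by
  have hc' : 0 < (G - t).choose d := Nat.choose_pos (by omega)
  have hcc : (G - t).choose d ≤ G.choose d := Nat.choose_le_choose d (Nat.sub_le _ _)
  set c := G.choose d with hcdef
  set c' := (G - t).choose d with hc'def
  have hJ : Jf t d G = G * c / c' + 1 := rfl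
  have hJpos : 0 < Jf t d G := by rw [hJ]; exact Nat.succ_pos _
  have hJc : Jf t d G * c' ≤ n * c := by
    rw [hJ, add_mul, one_mul]
    have h1 : G * c / c' * c' ≤ G * c := Nat.div_mul_le_self _ _
    calc G * c / c' * c' + c' ≤ G * c + c := Nat.add_le_add h1 hcc
      _ = (G + 1) * c := by ring
      _ ≤ n * c := Nat.mul_le_mul_right _ hG
  set J := Jf t d G with hJdef
  have h2 : 2 * J ≤ W := by
    have h3 : 2 * J * c' ≤ W * c' := by
      calc 2 * J * c' = 2 * (J * c') := by ring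
        _ ≤ 2 * (n * c) := Nat.mul_le_mul_left _ hJc
        _ = 2 * n * c := by ring
        _ ≤ W * c' := hc
    exact Nat.le_of_mul_le_mul_right h3 hc'
  have hM1 : 1 ≤ W / J := by
    rw [Nat.one_le_div_iff hJpos]; omega
  have hW : W ≤ 2 * (W / J) * J := by
    have h4 : W < (W / J + 1) * J := by
      exact Nat.lt_mul_of_div_lt (Nat.lt_succ_self _) hJpos
    have h5 : J ≤ (W / J) * J := Nat.le_mul_of_pos_left _ hM1
    have h6 : (W / J + 1) * J = W / J * J + J := by ring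
    have h7 : 2 * (W / J) * J = W / J * J + W / J * J := by ring
    omega
  calc W * c' ≤ 2 * (W / J) * J * c' := Nat.mul_le_mul_right _ hW
    _ = 2 * (W / J) * (J * c') := by ring
    _ ≤ 2 * (W / J) * (n * c) := Nat.mul_le_mul_left _ hJc
    _ = 2 * n * (W / J) * c := by ring
    _ ≤ 4 * n * (W / J) * c := by
        apply Nat.mul_le_mul_right
        apply Nat.mul_le_mul_right
        omega

theorem t_COMB2 (h1 : CHN2) (h2 : TOP2) (h3 : WNU) : COMB2 := by
  intro n t a b B N Q d L A D hF hQ hn hd hL hsz hcond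
  have hLd : (L + 1) * d = L * d + d := by ring
  have hLd1 : d ≤ L * d := Nat.le_mul_of_pos_left _ hL
  have hL1d : L * d = (L - 1) * d + d := by
    obtain ⟨l, rfl⟩ : ∃ l, L = l + 1 := ⟨L - 1, by omega⟩
    simp only [Nat.add_sub_cancel]; ring
  obtain ⟨M', hStg, hM'le, hM'ge⟩ := h1 n t Q d b L (n - a - d) hQ hd hL (by omega) (by omega) (by
    intro g' hg1 hg2
    apply hcond g' <;> omega)
  have hMJ : Wn Q d b / Jf t d (n - a - d) * Jf t d (n - a - d) ≤ Wn Q d b :=
    Nat.div_mul_le_self _ _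
  have hMM : Wn Q d b / Jf t d (n - a - d) * M' ≤ (Q + 1) ^ n := by
    calc Wn Q d b / Jf t d (n - a - d) * M' ≤ Wn Q d b * Wn Q d b ^ L :=
          Nat.mul_le_mul (Nat.div_le_self _ _) hM'le
      _ = Wn Q d b ^ (L + 1) := by ring
      _ ≤ ((Q + 1) ^ d) ^ (L + 1) := Nat.pow_le_pow_left (h3 Q d b) _
      _ = (Q + 1) ^ (d * (L + 1)) := by rw [pow_mul]
      _ ≤ (Q + 1) ^ n := Nat.pow_le_pow_right (by omega) (by rw [mul_comm]; omega)
  have hF' : Fam n t a (b + L * b) d ((2 * B + 1) * (2 ^ B * ((Q + 2) * n))) N B A D := by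
    have : (L + 1) * b = b + L * b := by ring
    rw [← this]; exact hF
  obtain ⟨f, hf⟩ := h2 n t a b (L * b) d (2 ^ B * ((Q + 2) * n)) N B Q _ M' _ A D hF' hQ
    (by omega) hStg hMJ (comb2_num n B Q _ hn hMM)
  refine ⟨_, f, hf, ?_⟩
  have hs := comb2_step n t d (n - a - d) (Wn Q d b) (by omega) (by omega)
    (hcond (n - a - d) (by omega) le_rfl)
  set G := n - a - d with hG
  set W := Wn Q d b with hW
  set M := W / Jf t d G with hM
  have hpos : 0 < (L * d).choose d := Nat.choose_pos hLd1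
  have i1 : (G - t).choose (L * d) * (L * d).choose d =
      (G - t).choose d * (G - d - t).choose ((L - 1) * d) := by
    rw [Nat.choose_mul]
    have k1 : G - t - d = G - d - t := by omega
    have k2 : L * d - d = (L - 1) * d := by omega
    rw [k1, k2]
    exact hLd1
  have i2 : G.choose (L * d) * (L * d).choose d = G.choose d * (G - d).choose ((L - 1) * d) := by
    rw [Nat.choose_mul]
    have k2 : L * d - d = (L - 1) * d := by omega
    rw [k2]
    exact hLd1
  refine Nat.le_of_mul_le_mul_right ?_ hpos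
  have hpow : (4 * n) ^ L = (4 * n) ^ (L - 1) * (4 * n) := by
    rw [← pow_succ]; congr 1; omega
  calc W ^ (L + 1) * (G - t).choose (L * d) * (L * d).choose d
      = W ^ (L + 1) * ((G - t).choose (L * d) * (L * d).choose d) := by ring
    _ = (W * (G - t).choose d) * (W ^ L * (G - d - t).choose ((L - 1) * d)) := by
        rw [i1]; ring
    _ ≤ (4 * n * M * G.choose d) * (M' * (4 * n) ^ (L - 1) * (G - d).choose ((L - 1) * d)) :=
        Nat.mul_le_mul hs hM'ge
    _ = M * M' * ((4 * n) ^ (L - 1) * (4 * n)) * (G.choose d * (G - d).choose ((L - 1) * d)) := by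
        ring
    _ = M * M' * (4 * n) ^ L * G.choose (L * d) * (L * d).choose d := by
        rw [← i2, ← hpow]; ring

end Pool.Agent.H517R2.RS
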