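import Pool.Agent.H517R2.RS.Defs

/-! COV: a family of `d`-sets such that every `E` misses one. -/

set_option autoImplicit false

namespace Pool.Agent.H517R2.RS

open Finset

/-- the number of `d`-sets meeting `F` -/
private theorem cov_cnt {n g t d : ℕ} (G F : Finset (Fin n)) (hG : G.card = g) (hF : F ⊆ G)
    (hFt : F.card ≤ t) :
    ((powersetCard d G).filter (fun D => ¬ Disjoint D F)).card ≤
      g.choose d - (g - t).choose d := by
  have h1 := Finset.card_filter_add_card_filter_not (s := powersetCard d G)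
    (fun D => Disjoint D F)
  rw [card_powersetCard, hG] at h1
  have h2 : (g - t).choose d ≤ ((powersetCard d G).filter (fun D => Disjoint D F)).card := by
    have h3 : powersetCard d (G \ F) ⊆ (powersetCard d G).filter (fun D => Disjoint D F) := by
      intro D hD
      rw [mem_powersetCard] at hD
      rw [mem_filter, mem_powersetCard]
      refine ⟨⟨hD.1.trans sdiff_subset, hD.2⟩, ?_⟩
      exact disjoint_of_subset_left hD.1 sdiff_disjoint
    refine le_trans ?_ (card_le_card h3)
    rw [card_powersetCard, card_sdiff_of_subset hF, hG]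
    exact Nat.choose_le_choose d (by omega)
  omega

/-- one step -/
private theorem cov_step {n g t d : ℕ} (hd : d ≤ g) (G : Finset (Fin n)) (hG : G.card = g)
    (U : Finset (Finset (Fin n))) (hU : ∀ F ∈ U, F ⊆ G ∧ F.card ≤ t) :
    ∃ D : Finset (Fin n), (D ⊆ G ∧ D.card = d) ∧
      (U.filter (fun F => ¬ Disjoint D F)).card * g.choose d ≤
        U.card * (g.choose d - (g - t).choose d) := by
  classical
  have hC : (powersetCard d G).card = g.choose d := by rw [card_powersetCard, hG]
  have hne : (powersetCard d G).Nonempty := by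
    rw [← card_pos, hC]
    exact Nat.choose_pos hd
  have h1 : ∑ D ∈ powersetCard d G, (U.filter (fun F => ¬ Disjoint D F)).card * g.choose d ≤
      ∑ _D ∈ powersetCard d G, U.card * (g.choose d - (g - t).choose d) := by
    rw [sum_const, smul_eq_mul, hC, ← sum_mul]
    have h2 : ∑ D ∈ powersetCard d G, (U.filter (fun F => ¬ Disjoint D F)).card ≤
        U.card * (g.choose d - (g - t).choose d) := by
      simp_rw [card_filter]
      rw [sum_comm]
      calc ∑ F ∈ U, ∑ D ∈ powersetCard d G, (if ¬ Disjoint D F then 1 else 0)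
          ≤ ∑ _F ∈ U, (g.choose d - (g - t).choose d) := by
            refine sum_le_sum fun F hF => ?_
            rw [← card_filter]
            exact cov_cnt G F hG (hU F hF).1 (hU F hF).2
        _ = _ := by rw [sum_const, smul_eq_mul]
    calc (∑ D ∈ powersetCard d G, (U.filter (fun F => ¬ Disjoint D F)).card) * g.choose d
        ≤ U.card * (g.choose d - (g - t).choose d) * g.choose d := Nat.mul_le_mul_right _ h2
      _ = _ := by ring
  obtain ⟨D, hD, h⟩ := exists_le_of_sum_le hne h1
  exact ⟨D, mem_powersetCard.1 hD, h⟩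

private theorem cov_main {n g t d : ℕ} (hd : d ≤ g) (G : Finset (Fin n)) (hG : G.card = g) :
    ∀ (J : ℕ) (U : Finset (Finset (Fin n))), (∀ F ∈ U, F ⊆ G ∧ F.card ≤ t) →
    ∃ D : Fin J → Finset (Fin n), (∀ i, D i ⊆ G ∧ (D i).card = d) ∧
      (U.filter (fun F => ∀ i, ¬ Disjoint (D i) F)).card * g.choose d ^ J ≤
        U.card * (g.choose d - (g - t).choose d) ^ J := by
  intro J
  induction J with
  | zero =>
    intro U hU
    refine ⟨Fin.elim0, fun i => i.elim0, ?_⟩
    simp only [pow_zero, mul_one]
    exact card_le_card (filter_subset _ _)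
  | succ J ih =>
    intro U hU
    obtain ⟨D', hD', h1⟩ := cov_step hd G hG U hU
    obtain ⟨D, hD, h2⟩ := ih (U.filter (fun F => ¬ Disjoint D' F))
      (fun F hF => hU F (mem_filter.1 hF).1)
    refine ⟨Fin.cons D' D, ?_, ?_⟩
    · intro i
      refine Fin.cases ?_ (fun j => ?_) i
      · exact hD'
      · exact hD j
    · have e : U.filter (fun F => ∀ i, ¬ Disjoint ((Fin.cons D' D : Fin (J + 1) → _) i) F) =
          (U.filter (fun F => ¬ Disjoint D' F)).filter (fun F => ∀ i, ¬ Disjoint (D i) F) := by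
        ext F
        simp only [mem_filter, Fin.forall_fin_succ, Fin.cons_zero, Fin.cons_succ, and_assoc]
      rw [e]
      calc ((U.filter (fun F => ¬ Disjoint D' F)).filter
            (fun F => ∀ i, ¬ Disjoint (D i) F)).card * g.choose d ^ (J + 1)
          = ((U.filter (fun F => ¬ Disjoint D' F)).filter
            (fun F => ∀ i, ¬ Disjoint (D i) F)).card * g.choose d ^ J * g.choose d := by
            rw [pow_succ]; ring
        _ ≤ (U.filter (fun F => ¬ Disjoint D' F)).card *
            (g.choose d - (g - t).choose d) ^ J * g.choose d := Nat.mul_le_mul_right _ h2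
        _ = (U.filter (fun F => ¬ Disjoint D' F)).card * g.choose d *
            (g.choose d - (g - t).choose d) ^ J := by ring
        _ ≤ U.card * (g.choose d - (g - t).choose d) * (g.choose d - (g - t).choose d) ^ J :=
            Nat.mul_le_mul_right _ h1
        _ = _ := by rw [pow_succ]; ring

/-- numerics -/
private theorem cov_num {g C C' J : ℕ} (hg : 1 ≤ g) (hC : 0 < C) (hCC : C' ≤ C)
    (h : g * C ≤ J * C') : 2 ^ g * (C - C') ^ J < C ^ J := by
  have hCr : (0 : ℝ) < C := by exact_mod_cast hC
  have hCCr : (C' : ℝ) ≤ C := by exact_mod_cast hCC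
  have hr : (g : ℝ) * C ≤ J * C' := by exact_mod_cast h
  have h1 : (1 - (C' : ℝ) / C) ≤ Real.exp (-((C' : ℝ) / C)) := by
    have := Real.add_one_le_exp (-((C' : ℝ) / C))
    linarith
  have h0 : 0 ≤ 1 - (C' : ℝ) / C := by
    rw [sub_nonneg, div_le_one hCr]
    exact hCCr
  have h2 : (1 - (C' : ℝ) / C) ^ J ≤ Real.exp (-(g : ℝ)) := by
    calc (1 - (C' : ℝ) / C) ^ J ≤ Real.exp (-((C' : ℝ) / C)) ^ J := pow_le_pow_left₀ h0 h1 J
      _ = Real.exp (-(J * (C' / C))) := by rw [← Real.exp_nat_mul]; congr 1; ring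
      _ ≤ Real.exp (-(g : ℝ)) := by
          apply Real.exp_le_exp.2
          rw [neg_le_neg_iff, ← mul_div_assoc, le_div_iff₀ hCr]
          exact hr
  have h3 : (2 : ℝ) ^ g * Real.exp (-(g : ℝ)) < 1 := by
    have h4 : (2 : ℝ) < Real.exp 1 := by
      have := Real.exp_one_gt_d9
      linarith
    have h5 : (2 : ℝ) ^ g < Real.exp 1 ^ g := pow_lt_pow_left₀ h4 (by norm_num) (by omega)
    rw [← Real.exp_nat_mul, mul_one] at h5
    rw [Real.exp_neg, ← div_eq_mul_inv, div_lt_one (Real.exp_pos _)]
    exact h5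
  have h6 : ((2 ^ g * (C - C') ^ J : ℕ) : ℝ) < ((C ^ J : ℕ) : ℝ) := by
    rw [Nat.cast_mul, Nat.cast_pow, Nat.cast_pow, Nat.cast_pow, Nat.cast_sub hCC]
    have e : ((C : ℝ) - C') ^ J = (1 - (C' : ℝ) / C) ^ J * C ^ J := by
      rw [← mul_pow]
      congr 1
      field_simp
    rw [e]
    push_cast
    calc (2 : ℝ) ^ g * ((1 - (C' : ℝ) / C) ^ J * C ^ J)
        ≤ 2 ^ g * (Real.exp (-(g : ℝ)) * C ^ J) := by gcongr
      _ = (2 ^ g * Real.exp (-(g : ℝ))) * C ^ J := by ring
      _ < 1 * C ^ J := by
          apply mul_lt_mul_of_pos_right h3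
          positivity
      _ = C ^ J := one_mul _
  exact_mod_cast h6

theorem t_COV : COV := by
  classical
  intro n t g d J hdt hg hJ G hG
  set U : Finset (Finset (Fin n)) := G.powerset.filter (fun F => F.card ≤ t) with hU
  have hU1 : ∀ F ∈ U, F ⊆ G ∧ F.card ≤ t := by
    intro F hF
    rw [hU, mem_filter, mem_powerset] at hF
    exact hF
  have hUc : U.card ≤ 2 ^ g := by
    rw [hU, ← hG, ← card_powerset]
    exact card_le_card (filter_subset _ _)
  obtain ⟨D, hD, h1⟩ := cov_main (d := d) (t := t) (by omega) G hG J U hU1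
  refine ⟨D, hD, ?_⟩
  have h2 : (U.filter (fun F => ∀ i, ¬ Disjoint (D i) F)).card = 0 := by
    by_contra hne
    have h3 : 1 ≤ (U.filter (fun F => ∀ i, ¬ Disjoint (D i) F)).card := Nat.one_le_iff_ne_zero.2 hne
    have h4 := cov_num (C := g.choose d) (C' := (g - t).choose d) hg
      (Nat.choose_pos (by omega)) (Nat.choose_le_choose d (by omega)) hJ
    have h5 : U.card * (g.choose d - (g - t).choose d) ^ J ≤
        2 ^ g * (g.choose d - (g - t).choose d) ^ J := Nat.mul_le_mul_right _ hUc
    have h6 : 1 * g.choose d ^ J ≤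
        (U.filter (fun F => ∀ i, ¬ Disjoint (D i) F)).card * g.choose d ^ J :=
      Nat.mul_le_mul_right _ h3
    omega
  intro E hE
  by_contra hcon
  push Not at hcon
  have h3 : E ∩ G ∈ U.filter (fun F => ∀ i, ¬ Disjoint (D i) F) := by
    rw [mem_filter]
    refine ⟨?_, ?_⟩
    · rw [hU, mem_filter, mem_powerset]
      exact ⟨inter_subset_right, (card_le_card inter_subset_left).trans hE⟩
    · intro i hi
      apply hcon i
      rw [disjoint_left] at hi ⊢
      intro x hx hxE
      exact hi hx (mem_inter.2 ⟨hxE, (hD i).1 hx⟩)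
  rw [card_eq_zero] at h2
  rw [h2] at h3
  exact absurd h3 (notMem_empty _)

end Pool.Agent.H517R2.RS
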