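import Pool.Agent.H517R2.RS.Defs

namespace Pool.Agent.H517R2.RS

open Finset

private theorem cov0_count {n t a d : ℕ} (S E : Finset (Fin n)) (hS : S.card = a)
    (hE : E.card ≤ t) :
    (n - a - t).choose d ≤ ((powersetCard d Sᶜ).filter (fun T => Disjoint T E)).card := by
  have h1 : powersetCard d (Sᶜ \ E) ⊆ (powersetCard d Sᶜ).filter (fun T => Disjoint T E) := by
    intro T hT
    rw [mem_powersetCard] at hT
    rw [mem_filter, mem_powersetCard]
    refine ⟨⟨hT.1.trans sdiff_subset, hT.2⟩, ?_⟩
    exact disjoint_of_subset_left hT.1 sdiff_disjoint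
  refine le_trans ?_ (card_le_card h1)
  rw [card_powersetCard]
  apply Nat.choose_le_choose
  have h2 : Sᶜ.card = n - a := by rw [card_compl, Fintype.card_fin, hS]
  have h3 := le_card_sdiff E Sᶜ
  omega

private theorem cov0_one {n t a d : ℕ} (hn : d + t + a ≤ n) (U : Finset (Finset (Fin n)))
    (hU : ∀ E ∈ U, E.card ≤ t) (s' : Finset (Fin n) → Finset (Fin n))
    (hs : ∀ E, E.card ≤ t → (s' E).card = a) :
    ∃ D : Finset (Fin n) → Finset (Fin n),
      (∀ S, S.card = a → Disjoint (D S) S ∧ (D S).card = d) ∧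
      (n - a).choose d * (U.filter (fun E => ¬ Disjoint (D (s' E)) E)).card ≤
        ((n - a).choose d - (n - a - t).choose d) * U.card := by
  classical
  have key : ∀ S : Finset (Fin n), S.card = a → ∃ T : Finset (Fin n),
      (Disjoint T S ∧ T.card = d) ∧
      (n - a).choose d * ((U.filter (fun E => s' E = S)).filter (fun E => ¬ Disjoint T E)).card ≤
        ((n - a).choose d - (n - a - t).choose d) * (U.filter (fun E => s' E = S)).card := by
    intro S hS
    have hcard : (powersetCard d Sᶜ).card = (n - a).choose d := by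
      rw [card_powersetCard, card_compl, Fintype.card_fin, hS]
    have hne : (powersetCard d Sᶜ).Nonempty := by
      rw [← card_pos, hcard]
      exact Nat.choose_pos (by omega)
    have hsum : ∑ T ∈ powersetCard d Sᶜ, (n - a).choose d *
          ((U.filter (fun E => s' E = S)).filter (fun E => ¬ Disjoint T E)).card ≤
        ∑ T ∈ powersetCard d Sᶜ,
          ((n - a).choose d - (n - a - t).choose d) * (U.filter (fun E => s' E = S)).card := by
      rw [← mul_sum, sum_const, hcard, smul_eq_mul]
      apply Nat.mul_le_mul_left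
      have h1 : ∑ T ∈ powersetCard d Sᶜ,
          ((U.filter (fun E => s' E = S)).filter (fun E => ¬ Disjoint T E)).card =
          ∑ E ∈ U.filter (fun E => s' E = S),
            ((powersetCard d Sᶜ).filter (fun T => ¬ Disjoint T E)).card := by
        simp only [Finset.card_filter]
        exact sum_comm
      rw [h1]
      calc ∑ E ∈ U.filter (fun E => s' E = S),
            ((powersetCard d Sᶜ).filter (fun T => ¬ Disjoint T E)).card
          ≤ ∑ E ∈ U.filter (fun E => s' E = S),
            ((n - a).choose d - (n - a - t).choose d) := by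
            apply sum_le_sum
            intro E hE
            rw [mem_filter] at hE
            have h2 := card_filter_add_card_filter_not (s := powersetCard d Sᶜ)
              (fun T => Disjoint T E)
            have h3 := cov0_count (d := d) S E hS (hU E hE.1)
            rw [hcard] at h2
            omega
        _ = _ := by rw [sum_const, smul_eq_mul, mul_comm]
    obtain ⟨T, hT, hle⟩ := exists_le_of_sum_le hne hsum
    rw [mem_powersetCard] at hT
    exact ⟨T, ⟨disjoint_of_subset_left hT.1 disjoint_compl_left, hT.2⟩, hle⟩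
  choose! D hD using key
  refine ⟨D, fun S hS => (hD S hS).1, ?_⟩
  have hm1 : Set.MapsTo s' (U.filter (fun E => ¬ Disjoint (D (s' E)) E) : Finset _)
      (powersetCard a (univ : Finset (Fin n)) : Finset _) := by
    intro E hE
    rw [mem_coe, mem_filter] at hE
    rw [mem_coe, mem_powersetCard]
    exact ⟨subset_univ _, hs E (hU E hE.1)⟩
  have hm2 : Set.MapsTo s' (U : Finset _) (powersetCard a (univ : Finset (Fin n)) : Finset _) := by
    intro E hE
    rw [mem_coe] at hE
    rw [mem_coe, mem_powersetCard]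
    exact ⟨subset_univ _, hs E (hU E hE)⟩
  rw [card_eq_sum_card_fiberwise hm1, card_eq_sum_card_fiberwise hm2, mul_sum, mul_sum]
  apply sum_le_sum
  intro S hS
  rw [mem_powersetCard] at hS
  have he : (U.filter (fun E => ¬ Disjoint (D (s' E)) E)).filter (fun E => s' E = S) =
      (U.filter (fun E => s' E = S)).filter (fun E => ¬ Disjoint (D S) E) := by
    ext E
    simp only [mem_filter]
    constructor
    · rintro ⟨⟨h1, h2⟩, h3⟩
      rw [h3] at h2
      exact ⟨⟨h1, h3⟩, h2⟩
    · rintro ⟨⟨h1, h3⟩, h2⟩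
      rw [← h3] at h2
      exact ⟨⟨h1, h2⟩, h3⟩
  rw [he]
  exact (hD S hS.2).2

private theorem cov0_iter {n t a d : ℕ} (hn : d + t + a ≤ n)
    (s : Finset (Fin n) → ℕ → Finset (Fin n)) (hs : ∀ E k, E.card ≤ t → (s E k).card = a)
    (j : ℕ) : ∃ D : ℕ → Finset (Fin n) → Finset (Fin n),
      (∀ k < j, ∀ S, S.card = a → Disjoint (D k S) S ∧ (D k S).card = d) ∧
      ((n - a).choose d) ^ j * ((univ : Finset (Finset (Fin n))).filter
        (fun E => E.card ≤ t ∧ ∀ k < j, ¬ Disjoint (D k (s E k)) E)).card ≤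
        ((n - a).choose d - (n - a - t).choose d) ^ j * 2 ^ n := by
  classical
  induction j with
  | zero =>
    refine ⟨fun _ _ => ∅, fun k hk => absurd hk (Nat.not_lt_zero k), ?_⟩
    rw [pow_zero, pow_zero, one_mul, one_mul]
    refine (card_le_univ _).trans ?_
    rw [Fintype.card_finset, Fintype.card_fin]
  | succ j ih =>
    obtain ⟨D, hD, hc⟩ := ih
    obtain ⟨D', hD', hc'⟩ := cov0_one (d := d) hn
      ((univ : Finset (Finset (Fin n))).filter
        (fun E => E.card ≤ t ∧ ∀ k < j, ¬ Disjoint (D k (s E k)) E))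
      (fun E hE => ((mem_filter.1 hE).2).1) (fun E => s E j) (fun E hE => hs E j hE)
    refine ⟨Function.update D j D', ?_, ?_⟩
    · intro k hk S hS
      by_cases hkj : k = j
      · subst hkj
        rw [Function.update_self]
        exact hD' S hS
      · rw [Function.update_of_ne hkj]
        exact hD k (by omega) S hS
    · have hsub : (univ : Finset (Finset (Fin n))).filter
          (fun E => E.card ≤ t ∧ ∀ k < j + 1, ¬ Disjoint (Function.update D j D' k (s E k)) E) ⊆
          ((univ : Finset (Finset (Fin n))).filter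
            (fun E => E.card ≤ t ∧ ∀ k < j, ¬ Disjoint (D k (s E k)) E)).filter
            (fun E => ¬ Disjoint (D' (s E j)) E) := by
        intro E hE
        rw [mem_filter] at hE
        obtain ⟨_, h1, h2⟩ := hE
        rw [mem_filter, mem_filter]
        refine ⟨⟨mem_univ _, h1, fun k hk => ?_⟩, ?_⟩
        · have h3 := h2 k (by omega)
          rwa [Function.update_of_ne (by omega : k ≠ j)] at h3
        · have h3 := h2 j (by omega)
          rwa [Function.update_self] at h3
      have h4 := card_le_card hsub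
      rw [pow_succ, pow_succ]
      calc _ ≤ (n - a).choose d ^ j * (n - a).choose d *
            (((univ : Finset (Finset (Fin n))).filter
            (fun E => E.card ≤ t ∧ ∀ k < j, ¬ Disjoint (D k (s E k)) E)).filter
            (fun E => ¬ Disjoint (D' (s E j)) E)).card := Nat.mul_le_mul_left _ h4
        _ = (n - a).choose d ^ j * ((n - a).choose d *
            (((univ : Finset (Finset (Fin n))).filter
            (fun E => E.card ≤ t ∧ ∀ k < j, ¬ Disjoint (D k (s E k)) E)).filter
            (fun E => ¬ Disjoint (D' (s E j)) E)).card) := by rw [mul_assoc]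
        _ ≤ (n - a).choose d ^ j * (((n - a).choose d - (n - a - t).choose d) *
            ((univ : Finset (Finset (Fin n))).filter
            (fun E => E.card ≤ t ∧ ∀ k < j, ¬ Disjoint (D k (s E k)) E)).card) :=
            Nat.mul_le_mul_left _ hc'
        _ = ((n - a).choose d - (n - a - t).choose d) * ((n - a).choose d ^ j *
            ((univ : Finset (Finset (Fin n))).filter
            (fun E => E.card ≤ t ∧ ∀ k < j, ¬ Disjoint (D k (s E k)) E)).card) := by ring
        _ ≤ ((n - a).choose d - (n - a - t).choose d) *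
            (((n - a).choose d - (n - a - t).choose d) ^ j * 2 ^ n) := Nat.mul_le_mul_left _ hc
        _ = _ := by ring

private theorem cov0_num {n K N1 N2 : ℕ} (hn : 1 ≤ n) (h2 : N2 ≤ N1) (h1 : 1 ≤ N1)
    (h : n * N1 ≤ K * N2) : (N1 - N2) ^ K * 2 ^ n < N1 ^ K := by
  have hN1 : (0 : ℝ) < N1 := by exact_mod_cast h1
  have hc : ((N1 - N2 : ℕ) : ℝ) = N1 * (1 - N2 / N1) := by
    rw [Nat.cast_sub h2]
    field_simp
  have hp0 : (0 : ℝ) ≤ 1 - N2 / N1 := by
    rw [sub_nonneg, div_le_one hN1]
    exact_mod_cast h2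
  have hp1 : (1 : ℝ) - N2 / N1 ≤ Real.exp (-(N2 / N1)) := by
    have := Real.add_one_le_exp (-((N2 : ℝ) / N1))
    linarith
  have hK : (n : ℝ) ≤ K * (N2 / N1) := by
    rw [mul_div_assoc', le_div_iff₀ hN1]
    exact_mod_cast h
  have hpow : (1 - (N2 : ℝ) / N1) ^ K ≤ Real.exp (-(n : ℝ)) := by
    calc (1 - (N2 : ℝ) / N1) ^ K ≤ (Real.exp (-(N2 / N1))) ^ K := pow_le_pow_left₀ hp0 hp1 K
      _ = Real.exp (-(K * (N2 / N1))) := by
          rw [← Real.exp_nat_mul]
          congr 1
          ring
      _ ≤ Real.exp (-(n : ℝ)) := Real.exp_le_exp.2 (by linarith)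
  have h2e : (2 : ℝ) ^ n < Real.exp n := by
    have h3 : (2 : ℝ) < Real.exp 1 := by
      have := Real.exp_one_gt_d9
      linarith
    calc (2 : ℝ) ^ n < (Real.exp 1) ^ n := pow_lt_pow_left₀ h3 (by norm_num) (by omega)
      _ = Real.exp n := by rw [← Real.exp_nat_mul, mul_one]
  have hlt : (1 - (N2 : ℝ) / N1) ^ K * 2 ^ n < 1 := by
    calc (1 - (N2 : ℝ) / N1) ^ K * 2 ^ n ≤ Real.exp (-(n : ℝ)) * 2 ^ n :=
          mul_le_mul_of_nonneg_right hpow (by positivity)
      _ < Real.exp (-(n : ℝ)) * Real.exp n := mul_lt_mul_of_pos_left h2e (Real.exp_pos _)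
      _ = 1 := by rw [← Real.exp_add, neg_add_cancel, Real.exp_zero]
  have hfin : (((N1 - N2) ^ K * 2 ^ n : ℕ) : ℝ) < ((N1 ^ K : ℕ) : ℝ) := by
    push_cast [hc]
    rw [mul_pow, mul_assoc]
    calc (N1 : ℝ) ^ K * ((1 - N2 / N1) ^ K * 2 ^ n) < (N1 : ℝ) ^ K * 1 :=
          mul_lt_mul_of_pos_left hlt (by positivity)
      _ = _ := mul_one _
  exact_mod_cast hfin

theorem t_COV0 : COV0 := by
  classical
  intro n t a K d hn hd hK s hs
  have hN2 : 1 ≤ (n - a - t).choose d := Nat.choose_pos (by omega)
  have hN1 : 1 ≤ (n - a).choose d := Nat.choose_pos (by omega)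
  have h21 : (n - a - t).choose d ≤ (n - a).choose d := Nat.choose_le_choose d (by omega)
  have hKpos : 0 < K := by
    rcases Nat.eq_zero_or_pos K with h | h
    · subst h
      rw [zero_mul] at hK
      have : 1 ≤ n * (n - a).choose d := Nat.mul_pos hn hN1
      omega
    · exact h
  set s'' : Finset (Fin n) → ℕ → Finset (Fin n) := fun E k =>
    if h : k < K then s E ⟨k, h⟩ else s E ⟨0, hKpos⟩ with hs''
  have hs2 : ∀ E k, E.card ≤ t → (s'' E k).card = a := by
    intro E k hE
    simp only [hs'']
    split_ifs with h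
    · exact (hs E _ hE).1
    · exact (hs E _ hE).1
  obtain ⟨D, hD, hc⟩ := cov0_iter (d := d) hd s'' hs2 K
  have hlt := cov0_num hn h21 hN1 hK
  have hzero : ((univ : Finset (Finset (Fin n))).filter
      (fun E => E.card ≤ t ∧ ∀ k < K, ¬ Disjoint (D k (s'' E k)) E)).card = 0 := by
    by_contra hne
    have h1 : 1 ≤ ((univ : Finset (Finset (Fin n))).filter
      (fun E => E.card ≤ t ∧ ∀ k < K, ¬ Disjoint (D k (s'' E k)) E)).card := Nat.pos_of_ne_zero hne
    have h2 := Nat.mul_le_mul_left ((n - a).choose d ^ K) h1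
    rw [mul_one] at h2
    omega
  refine ⟨fun k S => D k S, fun k S hS => hD k k.2 S hS, fun E hE => ?_⟩
  by_contra hcon
  push Not at hcon
  have hmem : E ∈ (univ : Finset (Finset (Fin n))).filter
      (fun E => E.card ≤ t ∧ ∀ k < K, ¬ Disjoint (D k (s'' E k)) E) := by
    rw [mem_filter]
    refine ⟨mem_univ _, hE, fun k hk => ?_⟩
    have h1 := hcon ⟨k, hk⟩
    have h2 : s'' E k = s E ⟨k, hk⟩ := by
      simp only [hs'']
      rw [dif_pos hk]
    rw [h2]
    exact h1
  rw [card_eq_zero] at hzero
  rw [hzero] at hmem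
  exact notMem_empty _ hmem

end Pool.Agent.H517R2.RS
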