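import Pool.Agent.H517R2.LE.Defs

/-!
# Localized errors: the `(q-1)`-ary Hamming bound for every `τ < 1/2`
-/

namespace Pool.Agent.H517R2.RS

open Finset
open Pool.Agent.H517R2.LE (Corrects)

/-! ## counting lemmas -/

/-- RND1: few functions meet `S` more than `B` times. -/
def RND1 : Prop := ∀ (X ι : Type) [Fintype X] [DecidableEq X] [Fintype ι] [DecidableEq ι]
    (S : Finset X) (B : ℕ),
    ((univ : Finset (ι → X)).filter
      (fun f => B + 1 ≤ ((univ : Finset ι).filter (fun i => f i ∈ S)).card)).card *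
        Fintype.card X ^ (B + 1) ≤
      (Fintype.card ι * S.card) ^ (B + 1) * Fintype.card X ^ Fintype.card ι

/-- RND2: the number of functions missing `H` on `I`. -/
def RND2 : Prop := ∀ (X ι : Type) [Fintype X] [DecidableEq X] [Fintype ι] [DecidableEq ι]
    (H : Finset X) (I : Finset ι),
    ((univ : Finset (ι → X)).filter (fun f => ∀ i ∈ I, f i ∉ H)).card * Fintype.card X ^ I.card =
      (Fintype.card X - H.card) ^ I.card * Fintype.card X ^ Fintype.card ι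

/-- RND: random functions (union bound). -/
def RND : Prop := ∀ (X ι A P : Type) [Fintype X] [DecidableEq X] [Nonempty X] [Fintype ι]
    [DecidableEq ι] [Fintype A] [Fintype P]
    (S : A → Finset X) (s B : ℕ) (I : P → Finset ι) (H : P → Finset X) (N h : ℕ),
    (∀ F, (S F).card ≤ s) → (∀ p, N ≤ (I p).card) → (∀ p, h ≤ (H p).card) →
    2 * (Fintype.card A * (Fintype.card ι * s) ^ (B + 1)) < Fintype.card X ^ (B + 1) →
    2 * (Fintype.card P * (Fintype.card X - h) ^ N) < Fintype.card X ^ N →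
    ∃ f : ι → X, (∀ F, ((univ : Finset ι).filter (fun i => f i ∈ S F)).card ≤ B) ∧
      ∀ p, ∃ i ∈ I p, f i ∈ H p

/-- IND: independent patterns on disjoint sets of coordinates. -/
def IND : Prop := ∀ (κ ι : Type) [Fintype κ] [DecidableEq κ] [DecidableEq ι] (B : ℕ) (C : Finset ι)
    (E : ι → Finset κ) (v : ι → κ → Bool),
    (∀ l ∈ C, (E l).card ≤ B) → (∀ l ∈ C, ∀ l' ∈ C, l ≠ l' → Disjoint (E l) (E l')) →
    ((univ : Finset (κ → Bool)).filter (fun w => ∀ l ∈ C, ∃ e ∈ E l, w e ≠ v l e)).card *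
        (2 ^ B) ^ C.card ≤ (2 ^ B - 1) ^ C.card * 2 ^ Fintype.card κ

/-- TOUR: a tournament in which for every `p` some candidate beats all its opponents. -/
def TOUR : Prop := ∀ (ι P : Type) [Fintype ι] [DecidableEq ι] [Fintype P] (B R : ℕ)
    (C : P → Finset ι) (O : P → ι → Finset ι),
    (∀ p, R ≤ (C p).card) →
    (∀ p, ∀ l ∈ C p, (O p l).card ≤ B ∧ Disjoint (O p l) (C p)) →
    Fintype.card P * (2 ^ B - 1) ^ R < (2 ^ B) ^ R →
    ∃ T : ι → ι → Prop, (∀ x y, x ≠ y → T x y → ¬ T y x) ∧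
      ∀ p, ∃ l ∈ C p, ∀ o ∈ O p l, T l o

/-! ## anchors -/

/-- `s E k` is the anchor of the error set `E` with index `k`. -/
def Anchors (n t a K : ℕ) (s : Finset (Fin n) → Fin K → Finset (Fin n)) : Prop :=
  (∀ E k, E.card ≤ t → (s E k).card = a ∧ Disjoint (s E k) E) ∧
  ∀ E E' k k', E.card ≤ t → E'.card ≤ t → s E k ⊆ E' ∪ s E' k' → s E' k' ⊆ E ∪ s E k →
    s E k = s E' k' ∧ k = k'

/-- ANCC: existence of anchors, numerical conditions. -/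
def ANCC : Prop := ∀ n t a K R N B : ℕ, 1 ≤ B →
    2 * (2 ^ n * (K * (B * R) * N * (t + a).choose a) ^ (B + 1)) < n.choose a ^ (B + 1) →
    2 * (2 ^ n * K * (B * R) * (n.choose a - (n - t).choose a) ^ N) < n.choose a ^ N →
    2 ^ n * K * (2 ^ B - 1) ^ R < (2 ^ B) ^ R →
    ∃ s, Anchors n t a K s

/-- ANCA: exponentially many indices are possible. -/
def ANCA : Prop := ∀ τ : ℝ, 0 < τ → ∀ α : ℝ, 0 < α → τ + α < 1 / 2 → ∃ ρ : ℝ, 0 < ρ ∧
    ∃ n₀ : ℕ, ∀ n t : ℕ, n₀ ≤ n → (t : ℝ) ≤ τ * n →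
      ∃ a K : ℕ, (a : ℝ) ≤ α * n ∧ Real.exp (ρ * n) ≤ K ∧ ∃ s, Anchors n t a K s

/-! ## covers and stages -/

/-- COV: a family of `d`-sets such that every `E` misses one. -/
def COV : Prop := ∀ n t g d J : ℕ, d + t ≤ g → 1 ≤ g → g * g.choose d ≤ J * (g - t).choose d →
    ∀ G : Finset (Fin n), G.card = g → ∃ D : Fin J → Finset (Fin n),
      (∀ i, D i ⊆ G ∧ (D i).card = d) ∧
      ∀ E : Finset (Fin n), E.card ≤ t → ∃ i, Disjoint (D i) E

/-- COV0: the same, the ground set depends on the index. -/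
def COV0 : Prop := ∀ n t a K d : ℕ, 1 ≤ n → d + t + a ≤ n →
    n * (n - a).choose d ≤ K * (n - a - t).choose d →
    ∀ s : Finset (Fin n) → Fin K → Finset (Fin n),
    (∀ E k, E.card ≤ t → (s E k).card = a ∧ Disjoint (s E k) E) →
    ∃ D : Fin K → Finset (Fin n) → Finset (Fin n),
      (∀ k S, S.card = a → Disjoint (D k S) S ∧ (D k S).card = d) ∧
      ∀ E : Finset (Fin n), E.card ≤ t → ∃ k, Disjoint (D k (s E k)) E

/-- Stage: for every ground set `G` of size `g` there are `J` sets of size `d` in `G`, every `E` misses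
one of them, and if the index of such a set is known, `M` messages can be sent on `G` over `Q` letters. -/
def Stg (n t Q d g J M : ℕ) : Prop := ∀ G : Finset (Fin n), G.card = g →
    ∃ D : Fin J → Finset (Fin n), (∀ i, D i ⊆ G ∧ (D i).card = d) ∧
      (∀ E : Finset (Fin n), E.card ≤ t → ∃ i, Disjoint (D i) E) ∧
      ∃ x : Fin M → Finset (Fin n) → Fin J → Fin n → Fin Q,
        ∀ (i : Fin J) (m m' : Fin M) (E E' : Finset (Fin n)), E.card ≤ t → E'.card ≤ t →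
          Disjoint (D i) E → Disjoint (D i) E' →
          (∀ p ∈ G, p ∉ E → p ∉ E' → x m E i p = x m' E' i p) → m = m'

def BASE : Prop := ∀ n t Q d g J M : ℕ, 1 ≤ Q → d + t ≤ g → 1 ≤ g →
    g * g.choose d ≤ J * (g - t).choose d → M ≤ Q ^ d → Stg n t Q d g J M

def STEP : Prop := ∀ n t Q d g J M J' M' : ℕ, 1 ≤ Q → d + t ≤ g → 1 ≤ g →
    g * g.choose d ≤ J * (g - t).choose d → Stg n t Q d (g - d) J' M' → M * J' ≤ Q ^ d →
    Stg n t Q d g J (M * M')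

/-- the number of sets of the cover -/
def Jf (t d g : ℕ) : ℕ := g * g.choose d / (g - t).choose d + 1

/-- CHN: the chain of `L` stages. -/
def CHN : Prop := ∀ n t Q d L g : ℕ, 1 ≤ Q → 1 ≤ d → 1 ≤ L → L * d + t ≤ g → g ≤ n →
    (∀ g', g - (L - 1) * d ≤ g' → g' ≤ g - d →
      2 * n * g'.choose d ≤ Q ^ d * (g' - t).choose d) →
    ∃ M : ℕ, Stg n t Q d g (Jf t d g) M ∧
      Q ^ (L * d) * (g - d - t).choose ((L - 1) * d) ≤
        M * (4 * n) ^ (L - 1) * (g - d).choose ((L - 1) * d)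

/-- TOP: anchors and the first stage. -/
def TOP : Prop := ∀ (n t a K Q d J' M' M : ℕ) (s : Finset (Fin n) → Fin K → Finset (Fin n)),
    Anchors n t a K s → 1 ≤ Q → 1 ≤ n → d + t + a ≤ n →
    n * (n - a).choose d ≤ K * (n - a - t).choose d →
    Stg n t Q d (n - a - d) J' M' → M * J' ≤ Q ^ d →
    ∃ f : Fin (M * M') → Finset (Fin n) → Fin n → Fin (Q + 1), Corrects t f

/-- COMB: the codes. -/
def COMB : Prop := ∀ (n t a K Q d L : ℕ) (s : Finset (Fin n) → Fin K → Finset (Fin n)),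
    Anchors n t a K s → 1 ≤ Q → 1 ≤ n → 1 ≤ d → 1 ≤ L → (L + 1) * d + t + a ≤ n →
    n * (n - a).choose d ≤ K * (n - a - t).choose d →
    (∀ g', n - a - L * d ≤ g' → g' ≤ n - a - d →
      2 * n * g'.choose d ≤ Q ^ d * (g' - t).choose d) →
    ∃ (T : ℕ) (f : Fin T → Finset (Fin n) → Fin n → Fin (Q + 1)), Corrects t f ∧
      Q ^ ((L + 1) * d) * (n - a - d - t).choose (L * d) ≤
        T * (4 * n) ^ L * (n - a - d).choose (L * d)

/-! ## numerics -/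

/-- MODE: the largest term of the binomial expansion of `(t + (l - t)) ^ l`. -/
def MODE : Prop := ∀ l t : ℕ, t ≤ l →
    l ^ l ≤ (l + 1) * (l.choose t * (t ^ t * (l - t) ^ (l - t)))

/-- BINE: lower bound by entropy. -/
def BINE : Prop := ∀ l t : ℕ, 1 ≤ t → t ≤ l →
    l * Real.binEntropy ((t : ℝ) / l) - Real.log (l + 1) ≤ Real.log (l.choose t)

/-- CHU: upper bound by entropy. -/
def CHU : Prop := ∀ τ : ℝ, 0 < τ → τ < 1 / 2 → ∀ n t : ℕ, (t : ℝ) ≤ τ * n →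
    Real.log (n.choose t) ≤ n * Real.binEntropy τ

/-- RAT: quotients of binomial coefficients. -/
def RAT : Prop := ∀ (g t d : ℕ) (r : ℝ), d + t ≤ g → 1 ≤ r →
    ((g : ℝ) - d) ≤ r * ((g : ℝ) - d - t) →
    (g.choose d : ℝ) ≤ r ^ d * ((g - t).choose d : ℝ)

/-- IDE: an identity. -/
def IDE : Prop := ∀ g t m : ℕ, m + t ≤ g →
    (g - t).choose m * g.choose t = (g - m).choose t * g.choose m

/-- PHI: choice of `η`. -/
def PHI : Prop := ∀ (Q : ℕ) (τ ε : ℝ), 2 ≤ Q → 0 < τ → τ < 1 / 2 → 0 < ε → ∃ η κ : ℝ, 0 < η ∧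
    η < 1 / 4 ∧ τ + η < 1 / 2 ∧ κ = τ * Q / (Q - 1) ∧ κ + η < 1 ∧
    Real.log Q - Real.binEntropy τ - τ * Real.log (Q - 1) - ε ≤
      (1 - κ - η) * Real.log Q + (κ + η / 2) * Real.binEntropy (τ / (κ + η / 2)) -
        Real.binEntropy τ

/-- NC: the numerical conditions hold for large `n`. -/
def NC : Prop := ∀ (Q : ℕ) (τ η κ ρ : ℝ), 2 ≤ Q → 0 < τ → τ < 1 / 2 → 0 < η → η < 1 / 4 →
    κ = τ * Q / (Q - 1) → κ + η < 1 → 0 < ρ → ∃ (L : ℕ) (δ : ℝ), 1 ≤ L ∧ 0 < δ ∧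
      (L + 1) * δ = 1 - κ - η ∧ ∃ n₀ : ℕ, ∀ n : ℕ, n₀ ≤ n → ∀ a K : ℕ, (a : ℝ) ≤ η / 2 * n →
        Real.exp (ρ * n) ≤ K → 1 ≤ ⌊δ * n⌋₊ ∧ (L + 1) * ⌊δ * n⌋₊ + ⌊τ * n⌋₊ + a ≤ n ∧
        n * (n - a).choose ⌊δ * n⌋₊ ≤ K * (n - a - ⌊τ * n⌋₊).choose ⌊δ * n⌋₊ ∧
        ∀ g' : ℕ, n - a - L * ⌊δ * n⌋₊ ≤ g' → g' ≤ n - a - ⌊δ * n⌋₊ →
          2 * n * g'.choose ⌊δ * n⌋₊ ≤ Q ^ ⌊δ * n⌋₊ * (g' - ⌊τ * n⌋₊).choose ⌊δ * n⌋₊

/-- NL: the limit of the rate. -/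
def NL : Prop := ∀ (Q L : ℕ) (τ η κ δ ε : ℝ), 2 ≤ Q → 0 < τ → τ < 1 / 2 → 0 < η →
    κ = τ * Q / (Q - 1) → κ + η < 1 → 0 < δ → (L + 1) * δ = 1 - κ - η → 0 < ε →
    ∃ n₀ : ℕ, ∀ n : ℕ, n₀ ≤ n → ∀ a : ℕ, (a : ℝ) ≤ η / 2 * n →
      (L + 1) * ⌊δ * n⌋₊ + ⌊τ * n⌋₊ + a ≤ n →
      n * ((1 - κ - η) * Real.log Q + (κ + η / 2) * Real.binEntropy (τ / (κ + η / 2)) -
          Real.binEntropy τ - ε) ≤
        (((L + 1) * ⌊δ * n⌋₊ : ℕ) : ℝ) * Real.log Q +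
          Real.log ((n - a - (L + 1) * ⌊δ * n⌋₊).choose ⌊τ * n⌋₊) -
          Real.log ((n - a - ⌊δ * n⌋₊).choose ⌊τ * n⌋₊) - L * Real.log (4 * n)

/-- RATEB: the final rate, in nats. -/
def RATEB : Prop := ∀ (Q : ℕ) (τ ε : ℝ), 2 ≤ Q → 0 < τ → τ < 1 / 2 → 0 < ε → ∃ n₀ : ℕ,
    ∀ n : ℕ, n₀ ≤ n → ∃ (T : ℕ) (f : Fin T → Finset (Fin n) → Fin n → Fin (Q + 1)),
      1 ≤ T ∧ Corrects ⌊τ * n⌋₊ f ∧
      n * (Real.log Q - Real.binEntropy τ - τ * Real.log (Q - 1) - ε) ≤ Real.log T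

end Pool.Agent.H517R2.RS
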