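import Pool.Agent.H517R2.RS.Defs

/-!
# Localized errors: the `w`-ary Hamming bound, `w = exp (h β) (q-1)^(1-β)`
The reserved symbol is now also used in the data, on a fraction `β` of the used positions.
-/

namespace Pool.Agent.H517R2.RS

open Finset
open Pool.Agent.H517R2.LE (Corrects)

/-- number of words of length `d` over `Q + 1` letters with at most `b` symbols `Fin.last Q`. -/
def Wn (Q d b : ℕ) : ℕ := ∑ j ∈ range (b + 1), d.choose j * Q ^ (d - j)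

/-- INDEP: independent sets in digraphs of small out-degree. -/
def INDEP : Prop := ∀ (ι : Type) [DecidableEq ι] (B R : ℕ) (C : Finset ι) (O : ι → Finset ι),
    (2 * B + 1) * R ≤ C.card → (∀ l ∈ C, (O l).card ≤ B) → (∀ l ∈ C, l ∉ O l) →
    ∃ C' ⊆ C, C'.card = R ∧ ∀ l ∈ C', Disjoint (O l) C'

/-- families of anchors `A l` with first blocks `D l`. -/
def Fam (n t a b d R N B : ℕ) (A D : Fin N → Finset (Fin n)) : Prop :=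
  (∀ l, (A l).card = a ∧ (D l).card = d ∧ Disjoint (A l) (D l)) ∧
  (∀ F : Finset (Fin n), F.card ≤ t + a + b →
    ((univ : Finset (Fin N)).filter (fun l => A l ⊆ F)).card ≤ B) ∧
  ∀ E : Finset (Fin n), E.card ≤ t →
    R ≤ ((univ : Finset (Fin N)).filter (fun l => Disjoint (A l) E ∧ Disjoint (D l) E)).card

/-- FAMC: existence, numerical conditions. -/
def FAMC : Prop := ∀ n t a b d R N B : ℕ, d + a + t ≤ n →
    2 * (2 ^ n * (R * N * (t + a + b).choose a) ^ (B + 1)) < n.choose a ^ (B + 1) →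
    2 * (2 ^ n * R * (n.choose a * (n - a).choose d -
      (n - t).choose a * (n - a - t).choose d) ^ N) < (n.choose a * (n - a).choose d) ^ N →
    ∃ A D : Fin (R * N) → Finset (Fin n), Fam n t a b d R (R * N) B A D

/-- FAMA: existence, asymptotics. -/
def FAMA : Prop := ∀ τ β α : ℝ, 0 < τ → 0 ≤ β → 0 < α → 2 * τ + β + 2 * α < 1 →
    ∃ ρ : ℝ, 0 < ρ ∧ ∀ c : ℕ, ∃ B n₀ : ℕ, ∀ n t b d : ℕ, n₀ ≤ n → (t : ℝ) ≤ τ * n →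
      (b : ℝ) ≤ β * n → d + ⌊α * n⌋₊ + t ≤ n →
      ((n - ⌊α * n⌋₊).choose d : ℝ) ≤ Real.exp (ρ * n) * ((n - ⌊α * n⌋₊ - t).choose d : ℝ) →
      ∃ (N : ℕ) (A D : Fin N → Finset (Fin n)),
        Fam n t ⌊α * n⌋₊ b d ((2 * B + 1) * (2 ^ B * (c * n))) N B A D

/-- Stage, words over `Q + 1` letters with at most `c` symbols `Fin.last Q`. -/
def Stg2 (n t Q d c g J M : ℕ) : Prop := ∀ G : Finset (Fin n), G.card = g →
    ∃ D : Fin J → Finset (Fin n), (∀ i, D i ⊆ G ∧ (D i).card = d) ∧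
      (∀ E : Finset (Fin n), E.card ≤ t → ∃ i, Disjoint (D i) E) ∧
      ∃ x : Fin M → Finset (Fin n) → Fin J → Fin n → Fin (Q + 1),
        (∀ m E i, ((univ : Finset (Fin n)).filter (fun p => x m E i p = Fin.last Q)).card ≤ c) ∧
        ∀ (i : Fin J) (m m' : Fin M) (E E' : Finset (Fin n)), E.card ≤ t → E'.card ≤ t →
          Disjoint (D i) E → Disjoint (D i) E' →
          (∀ p ∈ G, p ∉ E → p ∉ E' → x m E i p = x m' E' i p) → m = m'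

/-- WORDS: injections into the words with few symbols `Fin.last Q` on a set `D`. -/
def WORDS : Prop := ∀ (n Q d b M : ℕ) (D : Finset (Fin n)), 1 ≤ Q → D.card = d → M ≤ Wn Q d b →
    ∃ ψ : Fin M → Fin n → Fin (Q + 1),
      (∀ m p, p ∉ D → ψ m p = 0) ∧
      (∀ m, ((univ : Finset (Fin n)).filter (fun p => ψ m p = Fin.last Q)).card ≤ b) ∧
      ∀ m m', (∀ p ∈ D, ψ m p = ψ m' p) → m = m'

def BASE2 : Prop := ∀ n t Q d b g J M : ℕ, 1 ≤ Q → d + t ≤ g → 1 ≤ g →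
    g * g.choose d ≤ J * (g - t).choose d → M ≤ Wn Q d b → Stg2 n t Q d b g J M

def STEP2 : Prop := ∀ n t Q d b c g J M J' M' : ℕ, 1 ≤ Q → d + t ≤ g → 1 ≤ g →
    g * g.choose d ≤ J * (g - t).choose d → Stg2 n t Q d c (g - d) J' M' → M * J' ≤ Wn Q d b →
    Stg2 n t Q d (b + c) g J (M * M')

/-- CHN2: the chain of `L` stages. -/
def CHN2 : Prop := ∀ n t Q d b L g : ℕ, 1 ≤ Q → 1 ≤ d → 1 ≤ L → L * d + t ≤ g → g ≤ n →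
    (∀ g', g - (L - 1) * d ≤ g' → g' ≤ g - d →
      2 * n * g'.choose d ≤ Wn Q d b * (g' - t).choose d) →
    ∃ M : ℕ, Stg2 n t Q d (L * b) g (Jf t d g) M ∧ M ≤ Wn Q d b ^ L ∧
      Wn Q d b ^ L * (g - d - t).choose ((L - 1) * d) ≤
        M * (4 * n) ^ (L - 1) * (g - d).choose ((L - 1) * d)

/-- TOP2: anchors and the first stage. -/
def TOP2 : Prop := ∀ (n t a b c d R N B Q J' M' M : ℕ) (A D : Fin N → Finset (Fin n)),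
    Fam n t a (b + c) d ((2 * B + 1) * R) N B A D → 1 ≤ Q → d + a ≤ n →
    Stg2 n t Q d c (n - a - d) J' M' → M * J' ≤ Wn Q d b →
    2 ^ n * (M * M') * (2 ^ B - 1) ^ R < (2 ^ B) ^ R →
    ∃ f : Fin (M * M') → Finset (Fin n) → Fin n → Fin (Q + 1), Corrects t f

/-- COMB2: the codes. -/
def COMB2 : Prop := ∀ (n t a b B N Q d L : ℕ) (A D : Fin N → Finset (Fin n)),
    Fam n t a ((L + 1) * b) d ((2 * B + 1) * (2 ^ B * ((Q + 2) * n))) N B A D →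
    1 ≤ Q → 1 ≤ n → 1 ≤ d → 1 ≤ L → (L + 1) * d + t + a ≤ n →
    (∀ g', n - a - L * d ≤ g' → g' ≤ n - a - d →
      2 * n * g'.choose d ≤ Wn Q d b * (g' - t).choose d) →
    ∃ (T : ℕ) (f : Fin T → Finset (Fin n) → Fin n → Fin (Q + 1)), Corrects t f ∧
      Wn Q d b ^ (L + 1) * (n - a - d - t).choose (L * d) ≤
        T * (4 * n) ^ L * (n - a - d).choose (L * d)

/-- `w = exp (h β) Q^(1-β)`. -/
noncomputable def wf (Q : ℕ) (β : ℝ) : ℝ := Real.exp (Real.binEntropy β + (1 - β) * Real.log Q)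

/-- WNL: exponential size of `Wn` and its upper bound. -/
def WNL : Prop := ∀ (Q : ℕ) (β ε : ℝ), 1 ≤ Q → 0 ≤ β → β ≤ 1 / 2 → 0 < ε → ∃ d₀ : ℕ,
    ∀ d : ℕ, d₀ ≤ d → d * (Real.log (wf Q β) - ε) ≤ Real.log (Wn Q d ⌊β * d⌋₊)

/-- WNU. -/
def WNU : Prop := ∀ Q d b : ℕ, Wn Q d b ≤ (Q + 1) ^ d

/-- PHI2: choice of `η`. -/
def PHI2 : Prop := ∀ (τ β w κ ε : ℝ), 0 < τ → τ < 1 / 2 → 0 ≤ β → 1 < w * (1 - τ) →
    κ = τ * w / (w - 1) → β * (1 - κ) < 1 - 2 * τ → 0 < ε → ∃ η : ℝ, 0 < η ∧ η < 1 / 4 ∧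
      κ + η < 1 ∧ 2 * τ + β * (1 - κ) + η < 1 ∧
      Real.log w - Real.binEntropy τ - τ * Real.log (w - 1) - ε ≤
        (1 - κ - η) * Real.log w + (κ + η / 2) * Real.binEntropy (τ / (κ + η / 2)) -
          Real.binEntropy τ

/-- NC2: the numerical conditions hold for large `n` (`a = ⌊η/2 n⌋`). -/
def NC2 : Prop := ∀ (Q : ℕ) (τ β w η κ ρ : ℝ), 1 ≤ Q → 0 < τ → τ < 1 / 2 → 0 ≤ β → β ≤ 1 / 2 →
    w = wf Q β → 1 < w * (1 - τ) → 0 < η → η < 1 / 4 →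
    κ = τ * w / (w - 1) → κ + η < 1 → 0 < ρ → ∃ (L : ℕ) (δ : ℝ), 1 ≤ L ∧ 0 < δ ∧
      (L + 1) * δ = 1 - κ - η ∧ ∃ n₀ : ℕ, ∀ n : ℕ, n₀ ≤ n →
        1 ≤ ⌊δ * n⌋₊ ∧ (L + 1) * ⌊δ * n⌋₊ + ⌊τ * n⌋₊ + ⌊η / 2 * n⌋₊ ≤ n ∧
        ((n - ⌊η / 2 * n⌋₊).choose ⌊δ * n⌋₊ : ℝ) ≤
          Real.exp (ρ * n) * ((n - ⌊η / 2 * n⌋₊ - ⌊τ * n⌋₊).choose ⌊δ * n⌋₊ : ℝ) ∧
        ∀ g' : ℕ, n - ⌊η / 2 * n⌋₊ - L * ⌊δ * n⌋₊ ≤ g' → g' ≤ n - ⌊η / 2 * n⌋₊ - ⌊δ * n⌋₊ →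
          2 * n * g'.choose ⌊δ * n⌋₊ ≤
            Wn Q ⌊δ * n⌋₊ ⌊β * ⌊δ * n⌋₊⌋₊ * (g' - ⌊τ * n⌋₊).choose ⌊δ * n⌋₊

/-- NL2: the limit of the rate. -/
def NL2 : Prop := ∀ (Q L : ℕ) (τ β w η κ δ ε : ℝ), 1 ≤ Q → 0 < τ → τ < 1 / 2 → 0 ≤ β →
    β ≤ 1 / 2 → w = wf Q β → 1 < w * (1 - τ) → 0 < η → κ = τ * w / (w - 1) → κ + η < 1 →
    0 < δ → (L + 1) * δ = 1 - κ - η → 0 < ε →
    ∃ n₀ : ℕ, ∀ n : ℕ, n₀ ≤ n →
      n * ((1 - κ - η) * Real.log w + (κ + η / 2) * Real.binEntropy (τ / (κ + η / 2)) -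
          Real.binEntropy τ - ε) ≤
        (L + 1) * Real.log (Wn Q ⌊δ * n⌋₊ ⌊β * ⌊δ * n⌋₊⌋₊) +
          Real.log ((n - ⌊η / 2 * n⌋₊ - (L + 1) * ⌊δ * n⌋₊).choose ⌊τ * n⌋₊) -
          Real.log ((n - ⌊η / 2 * n⌋₊ - ⌊δ * n⌋₊).choose ⌊τ * n⌋₊) - L * Real.log (4 * n)

/-- RATE2: the `w`-ary Hamming bound, in nats. -/
def RATE2 : Prop := ∀ (Q : ℕ) (τ β κ w ε : ℝ), 1 ≤ Q → 0 < τ → τ < 1 / 2 → 0 ≤ β → β ≤ 1 / 2 →
    w = wf Q β → 1 < w * (1 - τ) → κ = τ * w / (w - 1) → β * (1 - κ) < 1 - 2 * τ → 0 < ε →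
    ∃ n₀ : ℕ, ∀ n : ℕ, n₀ ≤ n → ∃ (T : ℕ) (f : Fin T → Finset (Fin n) → Fin n → Fin (Q + 1)),
      1 ≤ T ∧ Corrects ⌊τ * n⌋₊ f ∧
      n * (Real.log w - Real.binEntropy τ - τ * Real.log (w - 1) - ε) ≤ Real.log T

end Pool.Agent.H517R2.RS
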