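import Pool.Agent.H517R2.RS.Defs2

/-!
FAMA: existence of the families, asymptotics.
-/

set_option autoImplicit false

namespace Pool.Agent.H517R2.RS

open Finset Filter

theorem fama_up (n s : ℕ) (h : s ≤ n) (a : ℕ) : s.choose a * n ^ a ≤ s ^ a * n.choose a := by
  have h1 : s.descFactorial a * n ^ a ≤ s ^ a * n.descFactorial a := by
    induction a with
    | zero => simp
    | succ a ih =>
      rw [Nat.descFactorial_succ, Nat.descFactorial_succ, pow_succ, pow_succ]
      have h2 : (s - a) * n ≤ s * (n - a) := by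
        rcases Nat.lt_or_ge s a with h3 | h3
        · rw [Nat.sub_eq_zero_of_le h3.le]; simp
        · obtain ⟨k, rfl⟩ := Nat.exists_eq_add_of_le h3
          obtain ⟨m, rfl⟩ := Nat.exists_eq_add_of_le h
          have e1 : a + k - a = k := by omega
          have e2 : a + k + m - a = k + m := by omega
          rw [e1, e2]
          nlinarith [Nat.zero_le (a * m)]
      calc (s - a) * s.descFactorial a * (n ^ a * n) =
            ((s - a) * n) * (s.descFactorial a * n ^ a) := by ring
        _ ≤ (s * (n - a)) * (s ^ a * n.descFactorial a) := Nat.mul_le_mul h2 ih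
        _ = _ := by ring
  rw [Nat.descFactorial_eq_factorial_mul_choose, Nat.descFactorial_eq_factorial_mul_choose] at h1
  have h3 : a.factorial * (s.choose a * n ^ a) ≤ a.factorial * (s ^ a * n.choose a) := by
    calc a.factorial * (s.choose a * n ^ a) = a.factorial * s.choose a * n ^ a := by ring
      _ ≤ s ^ a * (a.factorial * n.choose a) := h1
      _ = _ := by ring
  exact Nat.le_of_mul_le_mul_left h3 (Nat.factorial_pos a)

theorem fama_low (n t a : ℕ) : (n - t - a) ^ a * n.choose a ≤ n ^ a * (n - t).choose a := by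
  have h1 : ∀ i, i ≤ a →
      (n - t - a) ^ i * n.descFactorial i ≤ n ^ i * (n - t).descFactorial i := by
    intro i
    induction i with
    | zero => simp
    | succ i ih =>
      intro hi
      have ih' := ih (by omega)
      rw [Nat.descFactorial_succ, Nat.descFactorial_succ, pow_succ, pow_succ]
      calc (n - t - a) ^ i * (n - t - a) * ((n - i) * n.descFactorial i) =
            ((n - t - a) * (n - i)) * ((n - t - a) ^ i * n.descFactorial i) := by ring
        _ ≤ ((n - t - i) * n) * (n ^ i * (n - t).descFactorial i) :=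
            Nat.mul_le_mul (Nat.mul_le_mul (by omega) (by omega)) ih'
        _ = _ := by ring
  have h2 := h1 a le_rfl
  rw [Nat.descFactorial_eq_factorial_mul_choose, Nat.descFactorial_eq_factorial_mul_choose] at h2
  have h3 : a.factorial * ((n - t - a) ^ a * n.choose a) ≤
      a.factorial * (n ^ a * (n - t).choose a) := by
    calc a.factorial * ((n - t - a) ^ a * n.choose a) =
          (n - t - a) ^ a * (a.factorial * n.choose a) := by ring
      _ ≤ n ^ a * (a.factorial * (n - t).choose a) := h2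
      _ = _ := by ring
  exact Nat.le_of_mul_le_mul_left h3 (Nat.factorial_pos a)

theorem fama_upR {n s a : ℕ} {x : ℝ} (hn : 0 < n) (h : s ≤ n) (hs : (s : ℝ) ≤ x * n) :
    (s.choose a : ℝ) ≤ x ^ a * n.choose a := by
  have h1 : (s.choose a : ℝ) * (n : ℝ) ^ a ≤ (s : ℝ) ^ a * n.choose a := by
    exact_mod_cast fama_up n s h a
  have h2 : (s : ℝ) ^ a ≤ (x * n) ^ a := pow_le_pow_left₀ (Nat.cast_nonneg _) hs _
  have hn0 : (0 : ℝ) < (n : ℝ) ^ a := by positivity
  have h3 : (s.choose a : ℝ) * (n : ℝ) ^ a ≤ (x ^ a * n.choose a) * (n : ℝ) ^ a := by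
    calc (s.choose a : ℝ) * (n : ℝ) ^ a ≤ (s : ℝ) ^ a * n.choose a := h1
      _ ≤ (x * n) ^ a * n.choose a := mul_le_mul_of_nonneg_right h2 (Nat.cast_nonneg _)
      _ = _ := by rw [mul_pow]; ring
  exact le_of_mul_le_mul_right h3 hn0

theorem fama_lowR {n t a : ℕ} {y : ℝ} (hn : 0 < n) (hy : 0 ≤ y) (hta : t + a ≤ n)
    (h : y * n ≤ (n : ℝ) - t - a) : y ^ a * n.choose a ≤ ((n - t).choose a : ℝ) := by
  have h1 : (((n - t - a : ℕ) : ℝ)) ^ a * n.choose a ≤ (n : ℝ) ^ a * (n - t).choose a := by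
    exact_mod_cast fama_low n t a
  have h0 : ((n - t - a : ℕ) : ℝ) = (n : ℝ) - t - a := by
    rw [Nat.cast_sub (by omega), Nat.cast_sub (by omega)]
  rw [h0] at h1
  have h2 : (y * n) ^ a ≤ ((n : ℝ) - t - a) ^ a := pow_le_pow_left₀ (by positivity) h _
  have hn0 : (0 : ℝ) < (n : ℝ) ^ a := by positivity
  have h3 : (n : ℝ) ^ a * (y ^ a * n.choose a) ≤ (n : ℝ) ^ a * ((n - t).choose a : ℝ) := by
    calc (n : ℝ) ^ a * (y ^ a * n.choose a) = (y * n) ^ a * n.choose a := by rw [mul_pow]; ring
      _ ≤ ((n : ℝ) - t - a) ^ a * n.choose a := mul_le_mul_of_nonneg_right h2 (Nat.cast_nonneg _)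
      _ ≤ _ := h1
  exact le_of_mul_le_mul_left h3 hn0

/-- the asymptotic conditions -/
theorem fama_ev (b C : ℝ) (hb : 0 < b) (hC : 0 ≤ C) :
    ∃ n₀ : ℕ, ∀ n : ℕ, n₀ ≤ n → 1 ≤ n ∧ C * (n : ℝ) ^ 2 ≤ Real.exp (b * n) ∧
      C * n ≤ Real.exp n := by
  have h1 : ∀ᶠ x : ℝ in atTop, C * x ^ 2 ≤ Real.exp (b * x) := by
    have h := (isLittleO_pow_exp_pos_mul_atTop (k := 2) hb).def (c := 1 / (C + 1)) (by positivity)
    filter_upwards [h] with x hx
    rw [Real.norm_of_nonneg (by positivity), Real.norm_of_nonneg (Real.exp_pos _).le,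
      one_div, ← div_eq_inv_mul, le_div_iff₀ (by positivity)] at hx
    nlinarith [sq_nonneg x]
  have h2 : ∀ᶠ x : ℝ in atTop, C * x ≤ Real.exp x := by
    have h := (isLittleO_pow_exp_pos_mul_atTop (k := 1) one_pos).def (c := 1 / (C + 1))
      (by positivity)
    filter_upwards [h, eventually_ge_atTop 0] with x hx hx0
    rw [pow_one, one_mul, Real.norm_of_nonneg hx0, Real.norm_of_nonneg (Real.exp_pos _).le,
      one_div, ← div_eq_inv_mul, le_div_iff₀ (by positivity)] at hx
    nlinarith
  have h3 := tendsto_natCast_atTop_atTop.eventually (h1.and h2)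
  obtain ⟨n₀, hn₀⟩ := eventually_atTop.1 (h3.and (eventually_ge_atTop 1))
  exact ⟨n₀, fun n hn => ⟨(hn₀ n hn).2, (hn₀ n hn).1.1, (hn₀ n hn).1.2⟩⟩

theorem fama_two {n : ℕ} (hn : 1 ≤ n) : 2 * (2 : ℝ) ^ n < Real.exp (2 * n) := by
  have h0 : (2 : ℝ) < Real.exp 1 := by
    have := Real.exp_one_gt_d9
    linarith
  have h1 : (2 : ℝ) ^ n ≤ Real.exp n := by
    have : (2 : ℝ) ^ n ≤ Real.exp 1 ^ n := pow_le_pow_left₀ (by norm_num) h0.le _
    rwa [← Real.exp_nat_mul, mul_one] at this
  have h2 : (2 : ℝ) < Real.exp n := by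
    refine h0.trans_le (Real.exp_le_exp.2 ?_)
    exact_mod_cast hn
  have h3 : Real.exp (2 * n) = Real.exp n * Real.exp n := by
    rw [← Real.exp_add]; congr 1; ring
  rw [h3]
  exact mul_lt_mul h2 h1 (by positivity) (Real.exp_pos _).le

theorem t_FAMA (h : FAMC) : FAMA := by
  intro τ β α hτ hβ hα hsum
  set x : ℝ := τ + β + α with hx
  set y : ℝ := 1 - τ - α with hy
  have hx0 : 0 < x := by rw [hx]; linarith
  have hy0 : 0 < y := by rw [hy]; linarith
  have hxy : x < y := by rw [hx, hy]; linarith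
  set θ : ℝ := x / y with hθ
  have hθ0 : 0 < θ := div_pos hx0 hy0
  have hθ1 : θ < 1 := (div_lt_one hy0).2 hxy
  have hlog : Real.log θ < 0 := Real.log_neg hθ0 hθ1
  set c0 : ℝ := α * (-Real.log θ) with hc0
  have hc00 : 0 < c0 := mul_pos hα (by linarith)
  refine ⟨c0 / 4, by positivity, fun c => ?_⟩
  set B : ℕ := ⌈8 / c0⌉₊ with hB
  have hB8 : 8 ≤ ((B : ℝ) + 1) * c0 := by
    have h1 : 8 / c0 ≤ B := Nat.le_ceil _
    rw [div_le_iff₀ hc00] at h1
    linarith
  set Rc : ℝ := (((2 * B + 1) * (2 ^ B * c) : ℕ) : ℝ) with hRc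
  have hRc0 : 0 ≤ Rc := Nat.cast_nonneg _
  obtain ⟨n₀, hn₀⟩ := fama_ev (c0 / 4) (6 * Rc / θ + Rc) (by positivity) (by positivity)
  refine ⟨B, n₀, fun n t b d hn ht hb hd hdd => ?_⟩
  obtain ⟨hn1, hE1, hE2⟩ := hn₀ n hn
  have hnR : (0 : ℝ) < n := by exact_mod_cast hn1
  set a : ℕ := ⌊α * n⌋₊ with ha
  have haR : (a : ℝ) ≤ α * n := Nat.floor_le (by positivity)
  have haR' : α * n ≤ (a : ℝ) + 1 := (Nat.lt_floor_add_one _).le
  set R : ℕ := (2 * B + 1) * (2 ^ B * (c * n)) with hR
  have hRR : (R : ℝ) = Rc * n := by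
    rw [hR, hRc]; push_cast; ring
  -- the quantities
  have hK : 0 < n.choose a := Nat.choose_pos (by omega)
  have hD : 0 < (n - a).choose d := Nat.choose_pos (by omega)
  have hK' : 0 < (n - t).choose a := Nat.choose_pos (by omega)
  have hD' : 0 < (n - a - t).choose d := Nat.choose_pos (by omega)
  set P : ℝ := (n.choose a : ℝ) * ((n - a).choose d : ℝ) with hP
  set P' : ℝ := ((n - t).choose a : ℝ) * ((n - a - t).choose d : ℝ) with hP'
  have hP0 : 0 < P := by rw [hP]; positivity
  have hP'0 : 0 < P' := by rw [hP']; positivity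
  have hPPn : (n - t).choose a * (n - a - t).choose d ≤ n.choose a * (n - a).choose d :=
    Nat.mul_le_mul (Nat.choose_le_choose _ (by omega)) (Nat.choose_le_choose _ (by omega))
  have hPP : P' ≤ P := by rw [hP, hP']; exact_mod_cast hPPn
  have hylow : y ^ a * n.choose a ≤ ((n - t).choose a : ℝ) := by
    refine fama_lowR hn1 hy0.le (by omega) ?_
    rw [hy]
    linarith
  have hpl : y ^ a * P ≤ Real.exp (c0 / 4 * n) * P' := by
    calc y ^ a * P = (y ^ a * n.choose a) * ((n - a).choose d : ℝ) := by rw [hP]; ring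
      _ ≤ ((n - t).choose a : ℝ) * (Real.exp (c0 / 4 * n) * ((n - a - t).choose d : ℝ)) :=
          mul_le_mul hylow hdd (Nat.cast_nonneg _) (Nat.cast_nonneg _)
      _ = _ := by rw [hP']; ring
  -- the number of members
  set N : ℕ := ⌈5 * n * (P / P')⌉₊ with hN
  have hPq : 1 ≤ P / P' := by rw [le_div_iff₀ hP'0]; linarith
  have hNl : 5 * n * (P / P') ≤ N := Nat.le_ceil _
  have hNu : (N : ℝ) ≤ 6 * n * (P / P') := by
    have h1 : (N : ℝ) < 5 * n * (P / P') + 1 := Nat.ceil_lt_add_one (by positivity)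
    have h2 : 1 ≤ n * (P / P') := by
      have h3 : (1 : ℝ) ≤ n := by exact_mod_cast hn1
      nlinarith
    nlinarith
  have hNu2 : (N : ℝ) ≤ 6 * n * (Real.exp (c0 / 4 * n) / y ^ a) := by
    refine hNu.trans ?_
    have h1 : P / P' ≤ Real.exp (c0 / 4 * n) / y ^ a := by
      rw [div_le_div_iff₀ hP'0 (by positivity)]
      linarith
    gcongr
  suffices hmain : 2 * (2 ^ n * (R * N * (t + a + b).choose a) ^ (B + 1)) <
      n.choose a ^ (B + 1) ∧ 2 * (2 ^ n * R * (n.choose a * (n - a).choose d -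
      (n - t).choose a * (n - a - t).choose d) ^ N) < (n.choose a * (n - a).choose d) ^ N by
    obtain ⟨A, D, hAD⟩ := h n t a b d R N B (by omega) hmain.1 hmain.2
    exact ⟨R * N, A, D, hAD⟩
  constructor
  · -- condition (ii)
    have hs : t + a + b ≤ n := by
      have : ((t + a + b : ℕ) : ℝ) ≤ n := by
        push_cast
        have h1 : x ≤ 1 := by rw [hx]; linarith
        nlinarith
      exact_mod_cast this
    have hsx : ((t + a + b).choose a : ℝ) ≤ x ^ a * n.choose a := by
      refine fama_upR hn1 hs ?_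
      push_cast
      rw [hx]
      linarith
    have hθa : θ ^ a * θ ≤ Real.exp (-(c0 * n)) := by
      rw [← pow_succ]
      have h1 : θ ^ (a + 1) = Real.exp (((a : ℝ) + 1) * Real.log θ) := by
        rw [← Real.rpow_natCast, Real.rpow_def_of_pos hθ0]
        push_cast
        congr 1
        ring
      rw [h1]
      apply Real.exp_le_exp.2
      rw [hc0]
      nlinarith
    have key : (R : ℝ) * N * ((t + a + b).choose a : ℝ) ≤
        n.choose a * Real.exp (-(c0 * n / 2)) := by
      have e1 : (R : ℝ) * N * ((t + a + b).choose a : ℝ) ≤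
          (Rc * n) * (6 * n * (Real.exp (c0 / 4 * n) / y ^ a)) * (x ^ a * n.choose a) := by
        rw [hRR]
        gcongr
      have e2 : (Rc * n) * (6 * n * (Real.exp (c0 / 4 * n) / y ^ a)) * (x ^ a * n.choose a) =
          n.choose a * ((6 * Rc / θ * (n : ℝ) ^ 2) * (Real.exp (c0 / 4 * n) * (θ ^ a * θ))) := by
        have : θ ^ a = x ^ a / y ^ a := by rw [hθ, div_pow]
        rw [this]
        field_simp
      have e3 : 6 * Rc / θ * (n : ℝ) ^ 2 ≤ Real.exp (c0 / 4 * n) := by
        refine le_trans ?_ hE1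
        have : 0 ≤ Rc * (n : ℝ) ^ 2 := by positivity
        nlinarith
      have e4 : (6 * Rc / θ * (n : ℝ) ^ 2) * (Real.exp (c0 / 4 * n) * (θ ^ a * θ)) ≤
          Real.exp (c0 / 4 * n) * (Real.exp (c0 / 4 * n) * Real.exp (-(c0 * n))) := by
        gcongr
      have e5 : Real.exp (c0 / 4 * n) * (Real.exp (c0 / 4 * n) * Real.exp (-(c0 * n))) =
          Real.exp (-(c0 * n / 2)) := by
        rw [← Real.exp_add, ← Real.exp_add]
        congr 1
        ring
      rw [e5] at e4
      refine e1.trans ?_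
      rw [e2]
      exact mul_le_mul_of_nonneg_left e4 (Nat.cast_nonneg _)
    have key2 : ((R : ℝ) * N * ((t + a + b).choose a : ℝ)) ^ (B + 1) ≤
        (n.choose a : ℝ) ^ (B + 1) * Real.exp (-(4 * n)) := by
      refine (pow_le_pow_left₀ (by positivity) key _).trans ?_
      rw [mul_pow, ← Real.exp_nat_mul]
      refine mul_le_mul_of_nonneg_left (Real.exp_le_exp.2 ?_) (by positivity)
      push_cast
      nlinarith
    have fin : 2 * ((2 : ℝ) ^ n * ((R : ℝ) * N * ((t + a + b).choose a : ℝ)) ^ (B + 1)) <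
        (n.choose a : ℝ) ^ (B + 1) := by
      have hKp : (0 : ℝ) < (n.choose a : ℝ) ^ (B + 1) := by positivity
      calc 2 * ((2 : ℝ) ^ n * ((R : ℝ) * N * ((t + a + b).choose a : ℝ)) ^ (B + 1)) ≤
            2 * ((2 : ℝ) ^ n * ((n.choose a : ℝ) ^ (B + 1) * Real.exp (-(4 * n)))) := by gcongr
        _ = (n.choose a : ℝ) ^ (B + 1) * ((2 * (2 : ℝ) ^ n) * Real.exp (-(4 * n))) := by ring
        _ < (n.choose a : ℝ) ^ (B + 1) * (Real.exp (2 * n) * Real.exp (-(4 * n))) := by
            have := fama_two hn1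
            gcongr
        _ ≤ (n.choose a : ℝ) ^ (B + 1) * 1 := by
            rw [← Real.exp_add]
            gcongr
            rw [Real.exp_le_one_iff]
            linarith
        _ = _ := mul_one _
    exact_mod_cast fin
  · -- condition (iii)
    have hp : (P - P') ^ N ≤ P ^ N * Real.exp (-(5 * n)) := by
      have h1 : P - P' ≤ P * Real.exp (-(P' / P)) := by
        have h2 : 1 - P' / P ≤ Real.exp (-(P' / P)) := Real.one_sub_le_exp_neg _
        have h3 : P - P' = P * (1 - P' / P) := by field_simp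
        rw [h3]
        exact mul_le_mul_of_nonneg_left h2 hP0.le
      refine (pow_le_pow_left₀ (by linarith) h1 _).trans ?_
      rw [mul_pow, ← Real.exp_nat_mul]
      refine mul_le_mul_of_nonneg_left (Real.exp_le_exp.2 ?_) (by positivity)
      have h4 : 5 * n * (P / P') * (P' / P) ≤ N * (P' / P) :=
        mul_le_mul_of_nonneg_right hNl (by positivity)
      have h5 : 5 * n * (P / P') * (P' / P) = 5 * n := by field_simp
      rw [h5] at h4
      linarith
    have hcast : (((n.choose a * (n - a).choose d -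
        (n - t).choose a * (n - a - t).choose d : ℕ) : ℝ)) = P - P' := by
      rw [Nat.cast_sub hPPn, hP, hP']
      push_cast
      ring
    have hRe : (R : ℝ) ≤ Real.exp n := by
      rw [hRR]
      refine le_trans ?_ hE2
      have : 0 ≤ 6 * Rc / θ * n := by positivity
      nlinarith
    have fin : 2 * ((2 : ℝ) ^ n * R * (P - P') ^ N) < P ^ N := by
      have hPN : (0 : ℝ) < P ^ N := by positivity
      have hPP0 : 0 ≤ P - P' := by linarith
      calc 2 * ((2 : ℝ) ^ n * R * (P - P') ^ N) ≤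
            2 * ((2 : ℝ) ^ n * Real.exp n * (P ^ N * Real.exp (-(5 * n)))) := by gcongr
        _ = P ^ N * ((2 * (2 : ℝ) ^ n) * (Real.exp n * Real.exp (-(5 * n)))) := by ring
        _ < P ^ N * (Real.exp (2 * n) * (Real.exp n * Real.exp (-(5 * n)))) := by
            have := fama_two hn1
            gcongr
        _ ≤ P ^ N * 1 := by
            rw [← Real.exp_add, ← Real.exp_add]
            gcongr
            rw [Real.exp_le_one_iff]
            linarith
        _ = _ := mul_one _
    rw [← hcast, hP] at fin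
    exact_mod_cast fin

end Pool.Agent.H517R2.RS
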