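import Pool.Agent.H517R2.RS.Defs2

/-!
# RT3: families of anchors with first blocks, combinatorial part (helper631)
-/

set_option autoImplicit false

namespace Pool.Agent.H517R2.RS

open Finset

/-- disjoint pairs of sets -/
abbrev FAMC_X (n a d : ℕ) : Type :=
  {p : Finset (Fin n) × Finset (Fin n) // p.1.card = a ∧ p.2.card = d ∧ Disjoint p.1 p.2}

theorem FAMC_card {n a d : ℕ} (F W : Finset (Fin n)) (hFW : F ⊆ W) :
    ((univ : Finset (FAMC_X n a d)).filter (fun x => x.1.1 ⊆ F ∧ x.1.2 ⊆ W)).card =
      F.card.choose a * (W.card - a).choose d := by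
  classical
  have h1 : ((powersetCard a F).sigma (fun A => powersetCard d (W \ A))).card =
      F.card.choose a * (W.card - a).choose d := by
    rw [Finset.card_sigma]
    have h2 : ∀ A ∈ powersetCard a F, (powersetCard d (W \ A)).card = (W.card - a).choose d := by
      intro A hA
      rw [Finset.mem_powersetCard] at hA
      rw [Finset.card_powersetCard]
      have h3 := Finset.card_sdiff_add_card_eq_card (hA.1.trans hFW)
      congr 1
      omega
    rw [Finset.sum_congr rfl h2, Finset.sum_const, Finset.card_powersetCard, smul_eq_mul]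
  rw [← h1]
  refine Finset.card_bij (fun x _ => (⟨x.1.1, x.1.2⟩ : Σ _ : Finset (Fin n), Finset (Fin n)))
    ?_ ?_ ?_
  · intro x hx
    rw [Finset.mem_filter] at hx
    rw [Finset.mem_sigma, Finset.mem_powersetCard, Finset.mem_powersetCard]
    refine ⟨⟨hx.2.1, x.2.1⟩, ?_, x.2.2.1⟩
    intro y hy
    rw [Finset.mem_sdiff]
    exact ⟨hx.2.2 hy, Finset.disjoint_right.1 x.2.2.2 hy⟩
  · intro x _ y _ h
    simp only [Sigma.mk.injEq, heq_eq_eq] at h
    exact Subtype.ext (Prod.ext h.1 h.2)
  · intro s hs
    rw [Finset.mem_sigma, Finset.mem_powersetCard, Finset.mem_powersetCard] at hs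
    obtain ⟨⟨h2, h3⟩, h4, h5⟩ := hs
    refine ⟨⟨(s.1, s.2), h3, h5, ?_⟩, ?_, rfl⟩
    · rw [Finset.disjoint_right]
      intro y hy
      exact (Finset.mem_sdiff.1 (h4 hy)).2
    · rw [Finset.mem_filter]
      exact ⟨Finset.mem_univ _, h2, fun y hy => (Finset.mem_sdiff.1 (h4 hy)).1⟩

theorem t_FAMC (h1 : RND) : FAMC := by
  classical
  intro n t a b d R N B hn hc1 hc2
  have hcX : Fintype.card (FAMC_X n a d) = n.choose a * (n - a).choose d := by
    have h := FAMC_card (n := n) (a := a) (d := d) univ univ subset_rfl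
    rw [Finset.filter_true_of_mem (fun x _ => ⟨Finset.subset_univ _, Finset.subset_univ _⟩),
      Finset.card_univ, Finset.card_univ, Fintype.card_fin] at h
    exact h
  have hca : 0 < n.choose a := Nat.choose_pos (by omega)
  have hcd : 0 < (n - a).choose d := Nat.choose_pos (by omega)
  have : Nonempty (FAMC_X n a d) := by
    rw [← Fintype.card_pos_iff, hcX]; exact Nat.mul_pos hca hcd
  have hcA : Fintype.card {F : Finset (Fin n) // F.card ≤ t + a + b} ≤ 2 ^ n := by
    refine (Fintype.card_subtype_le _).trans ?_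
    rw [Fintype.card_finset, Fintype.card_fin]
  have hcE : Fintype.card {E : Finset (Fin n) // E.card ≤ t} ≤ 2 ^ n := by
    refine (Fintype.card_subtype_le _).trans ?_
    rw [Fintype.card_finset, Fintype.card_fin]
  obtain ⟨f, hf1, hf2⟩ := h1 (FAMC_X n a d) (Fin R × Fin N)
    {F : Finset (Fin n) // F.card ≤ t + a + b}
    ({E : Finset (Fin n) // E.card ≤ t} × Fin R)
    (fun F => univ.filter (fun x => x.1.1 ⊆ F.1 ∧ x.1.2 ⊆ univ))
    ((t + a + b).choose a * (n - a).choose d) B
    (fun p => (univ : Finset (Fin N)).image (fun l => (p.2, l)))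
    (fun p => univ.filter (fun x => x.1.1 ⊆ p.1.1ᶜ ∧ x.1.2 ⊆ p.1.1ᶜ)) N
    ((n - t).choose a * (n - a - t).choose d)
    (by
      intro F
      rw [FAMC_card _ _ (Finset.subset_univ _), Finset.card_univ, Fintype.card_fin]
      exact Nat.mul_le_mul_right _ (Nat.choose_le_choose a F.2))
    (by
      intro p
      rw [Finset.card_image_of_injective, Finset.card_univ, Fintype.card_fin]
      intro x y h
      simpa using h)
    (by
      intro p
      rw [FAMC_card _ _ subset_rfl, Finset.card_compl, Fintype.card_fin]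
      have h2 := p.1.2
      exact Nat.mul_le_mul (Nat.choose_le_choose a (by omega)) (Nat.choose_le_choose d (by omega)))
    (by
      rw [hcX]
      have e1 : Fintype.card (Fin R × Fin N) = R * N := by
        rw [Fintype.card_prod, Fintype.card_fin, Fintype.card_fin]
      have e2 : R * N * ((t + a + b).choose a * (n - a).choose d) =
          R * N * (t + a + b).choose a * (n - a).choose d := by ring
      rw [e1, e2, mul_pow (R * N * (t + a + b).choose a), mul_pow (n.choose a)]
      calc 2 * (Fintype.card {F : Finset (Fin n) // F.card ≤ t + a + b} *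
            ((R * N * (t + a + b).choose a) ^ (B + 1) * (n - a).choose d ^ (B + 1)))
          ≤ 2 * (2 ^ n *
            ((R * N * (t + a + b).choose a) ^ (B + 1) * (n - a).choose d ^ (B + 1))) :=
            Nat.mul_le_mul_left _ (Nat.mul_le_mul_right _ hcA)
        _ = 2 * (2 ^ n * (R * N * (t + a + b).choose a) ^ (B + 1)) * (n - a).choose d ^ (B + 1) := by
            ring
        _ < n.choose a ^ (B + 1) * (n - a).choose d ^ (B + 1) :=
            Nat.mul_lt_mul_of_pos_right hc1 (pow_pos hcd _))
    (by
      rw [hcX]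
      refine lt_of_le_of_lt ?_ hc2
      rw [Fintype.card_prod, Fintype.card_fin]
      exact Nat.mul_le_mul_left _ (Nat.mul_le_mul_right _ (Nat.mul_le_mul_right _ hcE)))
  refine ⟨fun l => (f (finProdFinEquiv.symm l)).1.1, fun l => (f (finProdFinEquiv.symm l)).1.2,
    ?_, ?_, ?_⟩
  · intro l
    exact (f (finProdFinEquiv.symm l)).2
  · intro F hF
    refine le_trans ?_ (hf1 ⟨F, hF⟩)
    refine Finset.card_le_card_of_injOn (fun l => finProdFinEquiv.symm l) ?_
      (finProdFinEquiv.symm.injective.injOn)
    intro l hl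
    simp only [Finset.coe_filter, Set.mem_ofPred_eq, Finset.mem_univ, true_and] at hl
    simp only [Finset.coe_filter, Set.mem_ofPred_eq, Finset.mem_univ, true_and, Finset.mem_filter]
    exact ⟨hl, Finset.subset_univ _⟩
  · intro E hE
    have hl : ∀ r : Fin R, ∃ l : Fin N, Disjoint (f (r, l)).1.1 E ∧ Disjoint (f (r, l)).1.2 E := by
      intro r
      obtain ⟨i, hi, hi2⟩ := hf2 (⟨E, hE⟩, r)
      rw [Finset.mem_image] at hi
      obtain ⟨l, _, rfl⟩ := hi
      rw [Finset.mem_filter] at hi2
      exact ⟨l, Finset.subset_compl_iff_disjoint_right.1 hi2.2.1,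
        Finset.subset_compl_iff_disjoint_right.1 hi2.2.2⟩
    choose lc hlc using hl
    have hcard : (univ : Finset (Fin R)).card = R := by rw [Finset.card_univ, Fintype.card_fin]
    refine le_trans hcard.ge ?_
    refine Finset.card_le_card_of_injOn (fun r => finProdFinEquiv (r, lc r)) ?_ ?_
    · intro r _
      simp only [Finset.coe_filter, Set.mem_ofPred_eq, Finset.mem_univ, true_and,
        Equiv.symm_apply_apply]
      exact hlc r
    · intro r _ r' _ h
      have h2 := finProdFinEquiv.injective h
      exact (Prod.mk.inj h2).1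

end Pool.Agent.H517R2.RS
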