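import Pool.Agent.H517R2.RS.Defs

/-!
# Localized errors: the final form of the bound
-/

namespace Pool.Agent.H517R2.RS

open Finset
open Pool.Agent.H517R2.LE (Corrects hammingRate)

theorem fin_gap (Q : ℝ) (hQ : 2 ≤ Q) (τ : ℝ) (h0 : 0 < τ) :
    Real.log (Q + 1) - τ * Real.log Q - 1 / Q ≤ Real.log Q - τ * Real.log (Q - 1) := by
  have h1 : Real.log (Q - 1) ≤ Real.log Q := Real.log_le_log (by linarith) (by linarith)
  have h2 : Real.log (Q + 1) - Real.log Q ≤ 1 / Q := by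
    rw [← Real.log_div (by linarith) (by linarith)]
    have h3 : (Q + 1) / Q = 1 + 1 / Q := by field_simp
    rw [h3]
    have h4 := Real.log_le_sub_one_of_pos (show (0 : ℝ) < 1 + 1 / Q by positivity)
    linarith
  nlinarith [mul_le_mul_of_nonneg_left h1 h0.le]

theorem fin_half (Q : ℝ) (hQ : 2 ≤ Q) (τ : ℝ) (h1 : τ < 1 / 2) :
    Real.log (Q ^ 2 / (4 * (Q - 1))) / 2 ≤
      Real.log Q - Real.binEntropy τ - τ * Real.log (Q - 1) := by
  have h2 : Real.binEntropy τ ≤ Real.log 2 := Real.binEntropy_le_log_two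
  have h3 : 0 ≤ Real.log (Q - 1) := Real.log_nonneg (by linarith)
  have h4 : Real.log (Q ^ 2 / (4 * (Q - 1))) = 2 * Real.log Q - 2 * Real.log 2 - Real.log (Q - 1) := by
    rw [Real.log_div (by positivity) (by nlinarith), Real.log_mul (by norm_num) (by linarith),
      Real.log_pow, show (4 : ℝ) = 2 ^ 2 by norm_num, Real.log_pow]
    push_cast
    ring
  rw [h4]
  nlinarith [mul_le_mul_of_nonneg_right h1.le h3]

theorem fin_ham (Q : ℕ) (hQ : 2 ≤ Q) (τ : ℝ) :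
    hammingRate (Q + 1) τ =
      (Real.log ((Q : ℝ) + 1) - Real.binEntropy τ - τ * Real.log Q) / Real.log ((Q : ℝ) + 1) := by
  have hl : 0 < Real.log ((Q : ℝ) + 1) := Real.log_pos (by
    have : (2 : ℝ) ≤ Q := by exact_mod_cast hQ
    linarith)
  unfold hammingRate Real.logb Real.binEntropy
  push_cast
  rw [Real.log_inv, Real.log_inv]
  field_simp
  ring_nf

/-- The final form. -/
theorem t_FIN (h : RATEB) : ∀ q : ℕ, 3 ≤ q → ∀ τ : ℝ, 0 < τ → τ < 1 / 2 → ∀ ε : ℝ, 0 < ε →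
    ∃ n₀ : ℕ, ∀ n : ℕ, n₀ ≤ n → ∃ M : ℕ, 1 ≤ M ∧
      (∃ f : Fin M → Finset (Fin n) → Fin n → Fin q, Corrects ⌊τ * n⌋₊ f) ∧
      (Real.log ((q : ℝ) - 1) - Real.binEntropy τ - τ * Real.log ((q : ℝ) - 2)) / Real.log q - ε ≤
        Real.logb q M / n ∧
      hammingRate q τ - 1 / (((q : ℝ) - 1) * Real.log q) - ε ≤ Real.logb q M / n ∧
      Real.log (((q : ℝ) - 1) ^ 2 / (4 * ((q : ℝ) - 2))) / (2 * Real.log q) - ε ≤
        Real.logb q M / n := by
  intro q hq τ h0 h1 ε hε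
  obtain ⟨Q, rfl⟩ : ∃ Q, q = Q + 1 := ⟨q - 1, by omega⟩
  have hQ : 2 ≤ Q := by omega
  have hQr : (2 : ℝ) ≤ Q := by exact_mod_cast hQ
  have hl : 0 < Real.log ((Q : ℝ) + 1) := Real.log_pos (by linarith)
  obtain ⟨n₀, hn⟩ := h Q τ (ε * Real.log ((Q : ℝ) + 1)) hQ h0 h1 (by positivity)
  refine ⟨max n₀ 1, fun n hn' => ?_⟩
  obtain ⟨T, f, hT, hf, hr⟩ := hn n (le_trans (le_max_left _ _) hn')
  have hn1 : 1 ≤ n := le_trans (le_max_right _ _) hn'
  have hnr : (0 : ℝ) < n := by exact_mod_cast hn1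
  have hmain : (Real.log (Q : ℝ) - Real.binEntropy τ - τ * Real.log ((Q : ℝ) - 1)) /
      Real.log ((Q : ℝ) + 1) - ε ≤ Real.logb ((Q + 1 : ℕ) : ℝ) T / n := by
    unfold Real.logb
    push_cast
    rw [div_div, le_div_iff₀ (by positivity)]
    have : ((Real.log (Q : ℝ) - Real.binEntropy τ - τ * Real.log ((Q : ℝ) - 1)) /
        Real.log ((Q : ℝ) + 1) - ε) * (Real.log ((Q : ℝ) + 1) * n) =
        n * (Real.log Q - Real.binEntropy τ - τ * Real.log ((Q : ℝ) - 1) -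
          ε * Real.log ((Q : ℝ) + 1)) := by
      field_simp
    rw [this]
    exact hr
  have e1 : (((Q + 1 : ℕ) : ℝ) - 1) = Q := by push_cast; ring
  have e2 : (((Q + 1 : ℕ) : ℝ) - 2) = (Q : ℝ) - 1 := by push_cast; ring
  have e3 : (((Q + 1 : ℕ) : ℝ)) = (Q : ℝ) + 1 := by push_cast; ring
  refine ⟨T, hT, ⟨f, hf⟩, ?_, ?_, ?_⟩
  · rw [e1, e2]
    refine le_trans (le_of_eq ?_) hmain
    rw [e3]
  · refine le_trans ?_ hmain
    rw [fin_ham Q hQ τ, e1, e3]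
    have hg := fin_gap Q hQr τ h0
    have : (Real.log ((Q : ℝ) + 1) - Real.binEntropy τ - τ * Real.log Q) / Real.log ((Q : ℝ) + 1) -
        1 / ((Q : ℝ) * Real.log ((Q : ℝ) + 1)) =
        (Real.log ((Q : ℝ) + 1) - Real.binEntropy τ - τ * Real.log Q - 1 / Q) /
          Real.log ((Q : ℝ) + 1) := by
      field_simp
    rw [this]
    have h5 : (Real.log ((Q : ℝ) + 1) - Real.binEntropy τ - τ * Real.log Q - 1 / Q) /
          Real.log ((Q : ℝ) + 1) ≤
        (Real.log (Q : ℝ) - Real.binEntropy τ - τ * Real.log ((Q : ℝ) - 1)) /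
          Real.log ((Q : ℝ) + 1) := by
      apply div_le_div_of_nonneg_right _ hl.le
      linarith
    linarith
  · refine le_trans ?_ hmain
    rw [e1, e2, e3]
    have hh := fin_half Q hQr τ h1
    have h6 : Real.log ((Q : ℝ) ^ 2 / (4 * ((Q : ℝ) - 1))) / (2 * Real.log ((Q : ℝ) + 1)) =
        (Real.log ((Q : ℝ) ^ 2 / (4 * ((Q : ℝ) - 1))) / 2) / Real.log ((Q : ℝ) + 1) := by
      rw [div_div]
    rw [h6]
    have h7 : (Real.log ((Q : ℝ) ^ 2 / (4 * ((Q : ℝ) - 1))) / 2) / Real.log ((Q : ℝ) + 1) ≤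
        (Real.log (Q : ℝ) - Real.binEntropy τ - τ * Real.log ((Q : ℝ) - 1)) /
          Real.log ((Q : ℝ) + 1) := div_le_div_of_nonneg_right hh hl.le
    linarith

end Pool.Agent.H517R2.RS
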