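import Pool.Agent.H517R2.RS.Defs2
import Pool.Agent.H517R2.RS.FIN

/-!
# Localized errors: the final form of the `w`-ary Hamming bound
-/

namespace Pool.Agent.H517R2.RS

open Finset
open Pool.Agent.H517R2.LE (Corrects hammingRate)

theorem wf_zero (Q : ℕ) (hQ : 1 ≤ Q) : wf Q 0 = Q := by
  unfold wf
  rw [Real.binEntropy_zero]
  simp only [zero_add, sub_zero, one_mul]
  exact Real.exp_log (by exact_mod_cast hQ)

/-- the `(q-1)`-ary bound is the case `β = 0`. -/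
theorem rateb_of_rate2 (h : RATE2) : RATEB := by
  intro Q τ ε hQ h0 h1 hε
  have hQr : (2 : ℝ) ≤ Q := by exact_mod_cast hQ
  obtain ⟨n₀, hn⟩ := h Q τ 0 (τ * Q / (Q - 1)) Q ε (by omega) h0 h1 le_rfl (by norm_num)
    (wf_zero Q (by omega)).symm (by nlinarith) rfl (by linarith) hε
  exact ⟨n₀, hn⟩

theorem bin_ge (β : ℝ) (h0 : 0 ≤ β) (h1 : β ≤ 1 / 2) : β * Real.log 2 ≤ Real.binEntropy β := by
  rcases h0.eq_or_lt with rfl | h0
  · simp
  · unfold Real.binEntropy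
    have a1 : Real.log 2 ≤ Real.log β⁻¹ := by
      apply Real.log_le_log (by norm_num)
      rw [le_inv_comm₀ (by norm_num) h0]
      linarith
    have a2 : 0 ≤ (1 - β) * Real.log (1 - β)⁻¹ := by
      apply mul_nonneg (by linarith)
      apply Real.log_nonneg
      rw [one_le_inv₀ (by linarith)]
      linarith
    nlinarith

theorem two_le_wf (Q : ℕ) (hQ : 2 ≤ Q) (β : ℝ) (h0 : 0 ≤ β) (h1 : β ≤ 1 / 2) : 2 ≤ wf Q β := by
  unfold wf
  have hQr : (2 : ℝ) ≤ Q := by exact_mod_cast hQ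
  rw [← Real.exp_log (show (0 : ℝ) < 2 by norm_num)]
  apply Real.exp_le_exp.mpr
  have a1 := bin_ge β h0 h1
  have a2 : Real.log 2 ≤ Real.log Q := Real.log_le_log (by norm_num) hQr
  nlinarith

theorem wf_eq (Q : ℕ) (hQ : 1 ≤ Q) (β : ℝ) :
    wf Q β = Real.exp (Real.binEntropy β) * (Q : ℝ) ^ (1 - β) := by
  unfold wf
  rw [Real.exp_add, Real.rpow_def_of_pos (by exact_mod_cast hQ), mul_comm (1 - β)]

/-- General form. -/
theorem t_FIN2 (h : RATE2) : ∀ q : ℕ, 3 ≤ q → ∀ τ : ℝ, 0 < τ → τ < 1 / 2 → ∀ ε : ℝ, 0 < ε →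
    ∀ β w : ℝ, 0 ≤ β → β ≤ 1 / 2 → w = Real.exp (Real.binEntropy β) * ((q : ℝ) - 1) ^ (1 - β) →
    β * (1 - τ * w / (w - 1)) < 1 - 2 * τ →
    ∃ n₀ : ℕ, ∀ n : ℕ, n₀ ≤ n → ∃ M : ℕ, 1 ≤ M ∧
      (∃ f : Fin M → Finset (Fin n) → Fin n → Fin q, Corrects ⌊τ * n⌋₊ f) ∧
      (Real.log w - Real.binEntropy τ - τ * Real.log (w - 1)) / Real.log q - ε ≤
        Real.logb q M / n := by
  intro q hq τ h0 h1 ε hε β w hb0 hb1 hw hc
  obtain ⟨Q, rfl⟩ : ∃ Q, q = Q + 1 := ⟨q - 1, by omega⟩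
  have hQ : 2 ≤ Q := by omega
  have hQr : (2 : ℝ) ≤ Q := by exact_mod_cast hQ
  have hl : 0 < Real.log ((Q : ℝ) + 1) := Real.log_pos (by linarith)
  have hw' : w = wf Q β := by
    rw [hw, wf_eq Q (by omega)]
    push_cast
    rw [add_sub_cancel_right]
  have hw2 : 2 ≤ w := by rw [hw']; exact two_le_wf Q hQ β hb0 hb1
  obtain ⟨n₀, hn⟩ := h Q τ β (τ * w / (w - 1)) w (ε * Real.log ((Q : ℝ) + 1)) (by omega) h0 h1
    hb0 hb1 hw' (by nlinarith) rfl hc (by positivity)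
  refine ⟨max n₀ 1, fun n hn' => ?_⟩
  obtain ⟨T, f, hT, hf, hr⟩ := hn n (le_trans (le_max_left _ _) hn')
  have hn1 : 1 ≤ n := le_trans (le_max_right _ _) hn'
  have hnr : (0 : ℝ) < n := by exact_mod_cast hn1
  refine ⟨T, hT, ⟨f, hf⟩, ?_⟩
  unfold Real.logb
  push_cast
  rw [div_div, le_div_iff₀ (by positivity)]
  have : ((Real.log w - Real.binEntropy τ - τ * Real.log (w - 1)) /
      Real.log ((Q : ℝ) + 1) - ε) * (Real.log ((Q : ℝ) + 1) * n) =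
      n * (Real.log w - Real.binEntropy τ - τ * Real.log (w - 1) -
        ε * Real.log ((Q : ℝ) + 1)) := by
    field_simp
  rw [this]
  exact hr

/-- `w = q` for `β = 1 / q`. -/
theorem w_inv (q : ℕ) (hq : 2 ≤ q) :
    Real.exp (Real.binEntropy (1 / (q : ℝ))) * ((q : ℝ) - 1) ^ (1 - 1 / (q : ℝ)) = q := by
  have hqr : (2 : ℝ) ≤ q := by exact_mod_cast hq
  have h1 : (0 : ℝ) < (q : ℝ) - 1 := by linarith
  rw [Real.rpow_def_of_pos h1, ← Real.exp_add]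
  have h2 : (q : ℝ) = Real.exp (Real.log q) := (Real.exp_log (by linarith)).symm
  conv_rhs => rw [h2]
  congr 1
  unfold Real.binEntropy
  have e1 : (1 / (q : ℝ))⁻¹ = q := by field_simp
  have e2 : (1 - 1 / (q : ℝ))⁻¹ = q / (q - 1) := by
    rw [inv_eq_iff_eq_inv, inv_div]
    field_simp
  rw [e1, e2, Real.log_div (by linarith) (by linarith)]
  ring

/-- The range of Ahlswede, Bassalygo and Pinsker: `β = 1 / q`. -/
theorem t_ABP (h : RATE2) : ∀ q : ℕ, 3 ≤ q → ∀ τ : ℝ, 0 < τ →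
    τ < 1 / 2 - ((q : ℝ) - 2) / (2 * q * (2 * q - 3)) → ∀ ε : ℝ, 0 < ε →
    ∃ n₀ : ℕ, ∀ n : ℕ, n₀ ≤ n → ∃ M : ℕ, 1 ≤ M ∧
      (∃ f : Fin M → Finset (Fin n) → Fin n → Fin q, Corrects ⌊τ * n⌋₊ f) ∧
      hammingRate q τ - ε ≤ Real.logb q M / n := by
  intro q hq τ h0 h1 ε hε
  have hqr : (3 : ℝ) ≤ q := by exact_mod_cast hq
  have hA : 1 / 2 - ((q : ℝ) - 2) / (2 * q * (2 * q - 3)) =
      ((q : ℝ) - 1) ^ 2 / (q * (2 * q - 3)) := by
    have : (2 : ℝ) * q - 3 ≠ 0 := by nlinarith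
    field_simp
    ring
  have h1' : τ < 1 / 2 := by
    have : 0 ≤ ((q : ℝ) - 2) / (2 * q * (2 * q - 3)) := by
      apply div_nonneg (by linarith)
      nlinarith
    linarith
  have hq0 : (q : ℝ) ≠ 0 := by linarith
  have hq1 : (q : ℝ) - 1 ≠ 0 := by nlinarith
  have hc : 1 / (q : ℝ) * (1 - τ * q / (q - 1)) < 1 - 2 * τ := by
    rw [hA, lt_div_iff₀ (by nlinarith)] at h1
    have e : 1 - 2 * τ - 1 / (q : ℝ) * (1 - τ * q / (q - 1)) =
        (((q : ℝ) - 1) ^ 2 - τ * (q * (2 * q - 3))) / (q * (q - 1)) := by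
      field_simp
      ring
    have : 0 < 1 - 2 * τ - 1 / (q : ℝ) * (1 - τ * q / (q - 1)) := by
      rw [e]
      apply div_pos (by linarith)
      nlinarith
    linarith
  obtain ⟨n₀, hn⟩ := t_FIN2 h q hq τ h0 h1' ε hε (1 / q) q (by positivity)
    (by rw [div_le_div_iff₀ (by linarith) (by norm_num)]; linarith) (w_inv q (by omega)).symm hc
  refine ⟨n₀, fun n hn' => ?_⟩
  obtain ⟨M, hM, hf, hr⟩ := hn n hn'
  refine ⟨M, hM, hf, le_trans (le_of_eq ?_) hr⟩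
  obtain ⟨Q, rfl⟩ : ∃ Q, q = Q + 1 := ⟨q - 1, by omega⟩
  rw [fin_ham Q (by omega) τ]
  push_cast
  rw [add_sub_cancel_right]

end Pool.Agent.H517R2.RS
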