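import Pool.Agent.H517R2.RS.Defs

/-!
# IND: independent patterns on disjoint sets of coordinates
-/

set_option autoImplicit false

namespace Pool.Agent.H517R2.RS

open Finset

/-- flipping on a set of coordinates: counting the members of an invariant set -/
theorem ind_fiber {κ : Type} [Fintype κ] [DecidableEq κ] (E0 : Finset κ) (v0 : κ → Bool)
    (P : (κ → Bool) → Prop) [DecidablePred P]
    (hP : ∀ w w' : κ → Bool, (∀ e, e ∉ E0 → w e = w' e) → P w → P w') :
    ((univ : Finset (κ → Bool)).filter P).card = 2 ^ E0.card *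
      ((univ : Finset (κ → Bool)).filter (fun w => P w ∧ ∀ e ∈ E0, w e = v0 e)).card := by
  rw [← card_powerset, ← card_product]
  refine card_nbij' (fun w => (E0.filter (fun e => w e ≠ v0 e),
      fun e => if e ∈ E0 then v0 e else w e))
    (fun p e => if e ∈ p.1 then !(p.2 e) else p.2 e) ?_ ?_ ?_ ?_
  · intro w hw
    simp only [coe_filter, mem_univ, true_and, Set.mem_setOf_eq] at hw
    simp only [coe_product, Set.mem_prod, mem_coe, mem_powerset, mem_filter, mem_univ, true_and]
    refine ⟨filter_subset _ _, hP w _ ?_ hw, ?_⟩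
    · intro e he
      simp [he]
    · intro e he
      simp [he]
  · rintro ⟨s, w⟩ hw
    simp only [coe_product, Set.mem_prod, mem_coe, mem_powerset, mem_filter, mem_univ,
      true_and] at hw
    simp only [coe_filter, mem_univ, true_and, Set.mem_setOf_eq]
    refine hP w _ ?_ hw.2.1
    intro e he
    rw [if_neg (fun h => he (hw.1 h))]
  · intro w _
    funext e
    simp only [mem_filter]
    by_cases he : e ∈ E0
    · by_cases hv : w e = v0 e
      · simp [he, hv]
      · simp only [he, ne_eq, hv, not_false_eq_true, and_self, if_true]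
        cases h1 : w e <;> cases h2 : v0 e <;> simp_all
    · simp [he]
  · rintro ⟨s, w⟩ hw
    simp only [coe_product, Set.mem_prod, mem_coe, mem_powerset, mem_filter, mem_univ,
      true_and] at hw
    obtain ⟨hs, -, hv⟩ := hw
    simp only [Prod.mk.injEq]
    constructor
    · ext e
      simp only [mem_filter]
      constructor
      · rintro ⟨he, h⟩
        by_contra hes
        rw [if_neg hes] at h
        exact h (hv e he)
      · intro he
        refine ⟨hs he, ?_⟩
        rw [if_pos he, hv e (hs he)]
        cases v0 e <;> simp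
    · funext e
      by_cases he : e ∈ E0
      · rw [if_pos he, hv e he]
      · rw [if_neg he, if_neg (fun h => he (hs h))]

theorem t_IND : IND := by
  intro κ ι _ _ _ B C E v
  induction C using Finset.induction_on with
  | empty =>
    intro _ _
    simp
  | insert l0 C hl0 ih =>
    intro hB hd
    have ih' := ih (fun l hl => hB l (mem_insert_of_mem hl))
      (fun l hl l' hl' => hd l (mem_insert_of_mem hl) l' (mem_insert_of_mem hl'))
    have hb : (E l0).card ≤ B := hB l0 (mem_insert_self _ _)
    have hfib := ind_fiber (E l0) (v l0) (fun w => ∀ l ∈ C, ∃ e ∈ E l, w e ≠ v l e) (by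
      intro w w' hww hw l hl
      obtain ⟨e, he, hne⟩ := hw l hl
      refine ⟨e, he, ?_⟩
      have hdis : Disjoint (E l) (E l0) := hd l (mem_insert_of_mem hl) l0 (mem_insert_self _ _)
        (fun h => hl0 (h ▸ hl))
      rw [← hww e (fun h => disjoint_left.1 hdis he h)]
      exact hne)
    have hsplit := card_filter_add_card_filter_not (s := (univ : Finset (κ → Bool)).filter
      (fun w => ∀ l ∈ C, ∃ e ∈ E l, w e ≠ v l e)) (fun w => ∀ e ∈ E l0, w e = v l0 e)
    rw [filter_filter, filter_filter] at hsplit
    have hins : ((univ : Finset (κ → Bool)).filter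
        (fun w => ∀ l ∈ insert l0 C, ∃ e ∈ E l, w e ≠ v l e)).card =
        ((univ : Finset (κ → Bool)).filter (fun w => (∀ l ∈ C, ∃ e ∈ E l, w e ≠ v l e) ∧
          ¬ ∀ e ∈ E l0, w e = v l0 e)).card := by
      congr 1
      ext w
      simp only [mem_filter, mem_univ, true_and, mem_insert, forall_eq_or_imp]
      constructor
      · rintro ⟨⟨e, he, hne⟩, h⟩
        exact ⟨h, fun h' => hne (h' e he)⟩
      · rintro ⟨h, h'⟩
        push_neg at h'
        exact ⟨h', h⟩
    rw [hins, card_insert_of_notMem hl0]
    rw [hfib] at hsplit ih'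
    generalize ((univ : Finset (κ → Bool)).filter (fun w => (∀ l ∈ C, ∃ e ∈ E l, w e ≠ v l e) ∧
          ¬ ∀ e ∈ E l0, w e = v l0 e)).card = x at *
    generalize ((univ : Finset (κ → Bool)).filter (fun w => (∀ l ∈ C, ∃ e ∈ E l, w e ≠ v l e) ∧
          ∀ e ∈ E l0, w e = v l0 e)).card = y at *
    have h2 : 2 ^ (E l0).card ≤ 2 ^ B := Nat.pow_le_pow_right (by norm_num) hb
    obtain ⟨m, hm⟩ : ∃ m, 2 ^ B = m + 1 := ⟨2 ^ B - 1, by
      have : 0 < 2 ^ B := by positivity
      omega⟩
    rw [hm] at h2 ih' ⊢
    simp only [Nat.add_sub_cancel] at ih' ⊢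
    generalize 2 ^ (E l0).card = T at *
    have hx : x ≤ m * y := by nlinarith
    have h3 : x * (m + 1) ≤ m * (T * y) := by
      rw [← hsplit]
      nlinarith
    calc x * (m + 1) ^ (C.card + 1) = x * (m + 1) * (m + 1) ^ C.card := by ring
      _ ≤ m * (T * y) * (m + 1) ^ C.card := Nat.mul_le_mul_right _ h3
      _ = m * (T * y * (m + 1) ^ C.card) := by ring
      _ ≤ m * (m ^ C.card * 2 ^ Fintype.card κ) := Nat.mul_le_mul_left _ ih'
      _ = m ^ (C.card + 1) * 2 ^ Fintype.card κ := by ring

end Pool.Agent.H517R2.RS
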