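import Mathlib
import Pool.Agent.H517R2.RS.Defs2

/-! INDEP: independent sets in digraphs of small out-degree. -/

namespace Pool.Agent.H517R2.RS

open Finset

theorem t_INDEP : INDEP := by
  intro ι _ B R
  induction R with
  | zero => intro C O _ _ _; exact ⟨∅, empty_subset _, rfl, by simp⟩
  | succ R ih =>
    intro C O hC hO hl
    have hCpos : 0 < C.card := lt_of_lt_of_le (by positivity) hC
    obtain ⟨l, hlC, hin⟩ : ∃ l ∈ C, (C.filter (fun x => l ∈ O x)).card ≤ B := by
      by_contra hcon
      push Not at hcon
      have h1 : ∑ l ∈ C, (C.filter (fun x => l ∈ O x)).card =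
          ∑ x ∈ C, (C.filter (fun l => l ∈ O x)).card := by
        simp only [card_filter]
        exact sum_comm
      have h2 : ∑ x ∈ C, (C.filter (fun l => l ∈ O x)).card ≤ ∑ x ∈ C, B :=
        sum_le_sum fun x hx =>
          (card_le_card (fun y hy => (mem_filter.1 hy).2)).trans (hO x hx)
      have h3 : ∑ l ∈ C, B < ∑ l ∈ C, (C.filter (fun x => l ∈ O x)).card :=
        sum_lt_sum_of_nonempty (card_pos.1 hCpos) (fun l hl => hcon l hl)
      omega
    set C1 := C.filter (fun x => x ≠ l ∧ x ∉ O l ∧ l ∉ O x) with hC1def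
    have hC1 : (2 * B + 1) * R ≤ C1.card := by
      have hsub : C ⊆ C1 ∪ ({l} ∪ (O l ∪ C.filter (fun x => l ∈ O x))) := by
        intro x hx
        by_cases h1 : x = l
        · simp [h1]
        · by_cases h2 : x ∈ O l
          · simp [h2]
          · by_cases h3 : l ∈ O x
            · simp [h3, hx]
            · simp [hC1def, hx, h1, h2, h3]
      have e1 := card_le_card hsub
      have e2 := card_union_le C1 ({l} ∪ (O l ∪ C.filter (fun x => l ∈ O x)))
      have e3 := card_union_le {l} (O l ∪ C.filter (fun x => l ∈ O x))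
      have e4 := card_union_le (O l) (C.filter (fun x => l ∈ O x))
      have e5 := hO l hlC
      rw [card_singleton] at e3
      have e6 : (2 * B + 1) * (R + 1) = (2 * B + 1) * R + (2 * B + 1) := by ring
      omega
    obtain ⟨C', hC'1, hC'c, hC'd⟩ := ih C1 O hC1 (fun x hx => hO x (mem_filter.1 hx).1)
      (fun x hx => hl x (mem_filter.1 hx).1)
    have hlC' : l ∉ C' := by
      intro h
      exact (mem_filter.1 (hC'1 h)).2.1 rfl
    refine ⟨insert l C', ?_, ?_, ?_⟩
    · intro x hx
      rcases mem_insert.1 hx with rfl | h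
      · exact hlC
      · exact (mem_filter.1 (hC'1 h)).1
    · rw [card_insert_of_notMem hlC', hC'c]
    · intro x hx
      rw [Finset.disjoint_left]
      intro y hy1 hy2
      rcases mem_insert.1 hx with rfl | h
      · rcases mem_insert.1 hy2 with rfl | h'
        · exact hl _ hlC hy1
        · exact (mem_filter.1 (hC'1 h')).2.2.1 hy1
      · rcases mem_insert.1 hy2 with rfl | h'
        · exact (mem_filter.1 (hC'1 h)).2.2.2 hy1
        · exact (Finset.disjoint_left.1 (hC'd x h)) hy1 h'

end Pool.Agent.H517R2.RS
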