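import Pool.Agent.H517R2.RS.Defs

/-! Task RS15 (helper794): the mode of the binomial expansion. -/

set_option autoImplicit false

namespace Pool.Agent.H517R2.RS

/-- the term `k` of the expansion of `(t + (l - t)) ^ l` -/
private def modeU (l t k : ℕ) : ℕ := l.choose k * (t ^ k * (l - t) ^ (l - k))

private theorem mode_step_up (l t k : ℕ) (hk : k < t) (ht : t ≤ l) :
    modeU l t k ≤ modeU l t (k + 1) := by
  unfold modeU
  rcases Nat.eq_or_lt_of_le ht with rfl | htl
  · rw [Nat.sub_self, zero_pow (by omega)]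
    simp
  have h1 := Nat.choose_succ_right_eq l k
  -- choose l (k+1) * (k+1) = choose l k * (l - k)
  have e1 : (l - t) ^ (l - k) = (l - t) ^ (l - (k + 1)) * (l - t) := by
    rw [← pow_succ]
    congr 1
    omega
  have e2 : t ^ (k + 1) = t ^ k * t := pow_succ _ _
  rw [e1, e2]
  have h2 : (k + 1) * (l - t) ≤ (l - k) * t := by
    obtain ⟨m, rfl⟩ : ∃ m, l = t + m := ⟨l - t, by omega⟩
    obtain ⟨j, rfl⟩ : ∃ j, t = k + 1 + j := ⟨t - (k + 1), by omega⟩
    have e3 : k + 1 + j + m - (k + 1 + j) = m := by omega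
    have e4 : k + 1 + j + m - k = 1 + j + m := by omega
    rw [e3, e4]
    nlinarith
  -- multiply by (k+1)
  apply Nat.le_of_mul_le_mul_right (c := k + 1) _ (by omega)
  calc l.choose k * (t ^ k * ((l - t) ^ (l - (k + 1)) * (l - t))) * (k + 1)
      = (l.choose k * (t ^ k * (l - t) ^ (l - (k + 1)))) * ((k + 1) * (l - t)) := by ring
    _ ≤ (l.choose k * (t ^ k * (l - t) ^ (l - (k + 1)))) * ((l - k) * t) :=
        Nat.mul_le_mul_left _ h2
    _ = (l.choose k * (l - k)) * (t ^ k * t * (l - t) ^ (l - (k + 1))) := by ring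
    _ = (l.choose (k + 1) * (k + 1)) * (t ^ k * t * (l - t) ^ (l - (k + 1))) := by rw [h1]
    _ = _ := by ring

private theorem mode_step_down (l t k : ℕ) (hk : t ≤ k) (hkl : k < l) :
    modeU l t (k + 1) ≤ modeU l t k := by
  unfold modeU
  have h1 := Nat.choose_succ_right_eq l k
  have e1 : (l - t) ^ (l - k) = (l - t) ^ (l - (k + 1)) * (l - t) := by
    rw [← pow_succ]
    congr 1
    omega
  have e2 : t ^ (k + 1) = t ^ k * t := pow_succ _ _
  rw [e1, e2]
  have h2 : (l - k) * t ≤ (k + 1) * (l - t) := by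
    obtain ⟨m, rfl⟩ : ∃ m, l = k + 1 + m := ⟨l - (k + 1), by omega⟩
    obtain ⟨j, rfl⟩ : ∃ j, k = t + j := ⟨k - t, by omega⟩
    have e3 : t + j + 1 + m - (t + j) = 1 + m := by omega
    have e4 : t + j + 1 + m - t = j + 1 + m := by omega
    rw [e3, e4]
    nlinarith
  apply Nat.le_of_mul_le_mul_right (c := k + 1) _ (by omega)
  calc l.choose (k + 1) * (t ^ k * t * (l - t) ^ (l - (k + 1))) * (k + 1)
      = (l.choose (k + 1) * (k + 1)) * (t ^ k * t * (l - t) ^ (l - (k + 1))) := by ring
    _ = (l.choose k * (l - k)) * (t ^ k * t * (l - t) ^ (l - (k + 1))) := by rw [h1]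
    _ = (l.choose k * (t ^ k * (l - t) ^ (l - (k + 1)))) * ((l - k) * t) := by ring
    _ ≤ (l.choose k * (t ^ k * (l - t) ^ (l - (k + 1)))) * ((k + 1) * (l - t)) :=
        Nat.mul_le_mul_left _ h2
    _ = _ := by ring

private theorem mode_max (l t k : ℕ) (ht : t ≤ l) (hk : k ≤ l) :
    modeU l t k ≤ modeU l t t := by
  rcases le_total k t with h | h
  · -- k ≤ t : increasing
    obtain ⟨d, hd⟩ : ∃ d, t = k + d := ⟨t - k, by omega⟩
    have : ∀ d, k + d ≤ t → modeU l t k ≤ modeU l t (k + d) := by
      intro d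
      induction d with
      | zero => intro _; exact le_rfl
      | succ d ih =>
        intro h2
        exact (ih (by omega)).trans (mode_step_up l t (k + d) (by omega) ht)
    have h3 := this d (by omega)
    rwa [← hd] at h3
  · obtain ⟨d, hd⟩ : ∃ d, k = t + d := ⟨k - t, by omega⟩
    have : ∀ d, t + d ≤ l → modeU l t (t + d) ≤ modeU l t t := by
      intro d
      induction d with
      | zero => intro _; exact le_rfl
      | succ d ih =>
        intro h2
        exact (mode_step_down l t (t + d) (by omega) (by omega)).trans (ih (by omega))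
    rw [hd]
    exact this d (by omega)

private theorem mode_nat (l t : ℕ) (ht : t ≤ l) :
    l ^ l ≤ (l + 1) * (l.choose t * (t ^ t * (l - t) ^ (l - t))) := by
  have h1 : l ^ l = ∑ k ∈ Finset.range (l + 1), t ^ k * (l - t) ^ (l - k) * l.choose k := by
    conv_lhs => rw [show l ^ l = (t + (l - t)) ^ l by rw [Nat.add_sub_of_le ht]]
    rw [add_pow]
    simp
  rw [h1]
  calc ∑ k ∈ Finset.range (l + 1), t ^ k * (l - t) ^ (l - k) * l.choose k
      ≤ ∑ k ∈ Finset.range (l + 1), modeU l t t := by
        refine Finset.sum_le_sum fun k hk => ?_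
        have := mode_max l t k ht (by have := Finset.mem_range.1 hk; omega)
        refine le_trans (le_of_eq ?_) this
        unfold modeU
        ring
    _ = _ := by
        rw [Finset.sum_const, Finset.card_range, smul_eq_mul]
        rfl

theorem t_MODE : MODE := fun l t ht => mode_nat l t ht

end Pool.Agent.H517R2.RS
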