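import Pool.Agent.H517R2.RS.Defs

/-!
# NC: the numerical conditions hold for large `n`
-/

namespace Pool.Agent.H517R2.RS

open Finset

theorem NC_exp (c C : ℝ) (hc : 0 < c) (n : ℕ) (hn : 2 * C / c ^ 2 ≤ n) :
    C * n ≤ Real.exp (c * n) := by
  have hn0 : (0 : ℝ) ≤ n := Nat.cast_nonneg n
  have h1 := Real.quadratic_le_exp_of_nonneg (x := c * n) (by positivity)
  have h2 : C * n ≤ (c * n) ^ 2 / 2 := by
    rw [div_le_iff₀ (by positivity)] at hn
    nlinarith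
  have h3 : 0 ≤ c * n := by positivity
  linarith

theorem t_NC (h : RAT) : NC := by
  intro Q τ η κ ρ hQ hτ0 hτ hη0 hη hκ hκη hρ
  have hQ2 : (2 : ℝ) ≤ Q := by exact_mod_cast hQ
  have hQ1 : (1 : ℝ) ≤ (Q : ℝ) - 1 := by linarith
  have hκQ : κ * ((Q : ℝ) - 1) = τ * Q := by
    rw [hκ]
    exact div_mul_cancel₀ _ (by linarith)
  have hκτ : τ < κ := by
    rw [hκ, lt_div_iff₀ (by linarith)]
    nlinarith
  obtain ⟨k1, hk1⟩ : ∃ k1 : ℝ, k1 = κ + η / 2 := ⟨_, rfl⟩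
  have hk1κ : κ < k1 := by rw [hk1]; linarith
  have hk1τ : 0 < k1 - τ := by linarith
  obtain ⟨r1, hr1⟩ : ∃ r1 : ℝ, r1 = k1 / (k1 - τ) := ⟨_, rfl⟩
  have hr1m : r1 * (k1 - τ) = k1 := by
    rw [hr1]
    exact div_mul_cancel₀ _ hk1τ.ne'
  have hr11 : 1 < r1 := by
    rw [hr1, lt_div_iff₀ hk1τ]
    linarith
  have hr1Q : r1 < Q := by
    rw [hr1, div_lt_iff₀ hk1τ]
    nlinarith
  have hr10 : 0 < r1 := by linarith
  obtain ⟨θ, hθ⟩ : ∃ θ : ℝ, θ = Q / r1 := ⟨_, rfl⟩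
  have hθ1 : 1 < θ := by
    rw [hθ, lt_div_iff₀ hr10]
    linarith
  have hθr : θ * r1 = Q := by
    rw [hθ]
    exact div_mul_cancel₀ _ hr10.ne'
  have hlogθ : 0 < Real.log θ := Real.log_pos hθ1
  have hlog4 : 0 < Real.log 4 := Real.log_pos (by norm_num)
  obtain ⟨c, hc⟩ : ∃ c : ℝ, c = 1 - κ - η := ⟨_, rfl⟩
  have hc0 : 0 < c := by rw [hc]; linarith
  have hc1 : c < 1 := by rw [hc]; linarith
  obtain ⟨L, hLd⟩ : ∃ L : ℕ, L = ⌈12 + 2 * Real.log 4 / ρ⌉₊ + 1 := ⟨_, rfl⟩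
  have hL1 : 1 ≤ L := by omega
  have hL : 12 + 2 * Real.log 4 / ρ ≤ (L : ℝ) + 1 := by
    have := Nat.le_ceil (12 + 2 * Real.log 4 / ρ)
    rw [hLd]
    push_cast
    linarith
  have hL0 : (0 : ℝ) < (L : ℝ) + 1 := by positivity
  have hq0 : 0 < 2 * Real.log 4 / ρ := by positivity
  obtain ⟨δ, hδ⟩ : ∃ δ : ℝ, δ = c / ((L : ℝ) + 1) := ⟨_, rfl⟩
  have hδ0 : 0 < δ := by rw [hδ]; positivity
  have hLδ : ((L : ℝ) + 1) * δ = c := by
    rw [hδ]
    exact mul_div_cancel₀ _ hL0.ne'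
  have hδ12 : δ ≤ 1 / 12 := by
    rw [hδ, div_le_iff₀ hL0]
    linarith
  have hδρ : δ * Real.log 4 ≤ ρ / 2 := by
    rw [hδ, div_mul_eq_mul_div, div_le_iff₀ hL0]
    have h1 : Real.log 4 ≤ ρ / 2 * ((L : ℝ) + 1) := by
      have h2 : ρ / 2 * (2 * Real.log 4 / ρ) ≤ ρ / 2 * ((L : ℝ) + 1) :=
        mul_le_mul_of_nonneg_left (by linarith) (by positivity)
      have h3 : ρ / 2 * (2 * Real.log 4 / ρ) = Real.log 4 := by field_simp
      linarith
    nlinarith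
  refine ⟨L, δ, hL1, hδ0, by rw [hLδ, hc], ?_⟩
  refine ⟨⌈1 / δ⌉₊ + ⌈2 * 1 / (ρ / 2) ^ 2⌉₊ + ⌈2 * (2 * θ) / (δ * Real.log θ) ^ 2⌉₊ + 1, ?_⟩
  intro n hn a K ha hK
  have hnR : ((⌈1 / δ⌉₊ + ⌈2 * 1 / (ρ / 2) ^ 2⌉₊ + ⌈2 * (2 * θ) / (δ * Real.log θ) ^ 2⌉₊ + 1 : ℕ) : ℝ)
      ≤ n := by exact_mod_cast hn
  push_cast at hnR
  have hg1 := Nat.le_ceil (1 / δ)
  have hg2 := Nat.le_ceil (2 * 1 / (ρ / 2) ^ 2)
  have hg3 := Nat.le_ceil (2 * (2 * θ) / (δ * Real.log θ) ^ 2)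
  have hp1 : (0 : ℝ) ≤ (⌈1 / δ⌉₊ : ℝ) := Nat.cast_nonneg _
  have hp2 : (0 : ℝ) ≤ (⌈2 * 1 / (ρ / 2) ^ 2⌉₊ : ℝ) := Nat.cast_nonneg _
  have hp3 : (0 : ℝ) ≤ (⌈2 * (2 * θ) / (δ * Real.log θ) ^ 2⌉₊ : ℝ) := Nat.cast_nonneg _
  have hn0 : (0 : ℝ) ≤ n := Nat.cast_nonneg n
  have hn1 : 1 / δ ≤ n := by linarith
  have hn2 : 2 * 1 / (ρ / 2) ^ 2 ≤ n := by linarith
  have hn3 : 2 * (2 * θ) / (δ * Real.log θ) ^ 2 ≤ n := by linarith
  obtain ⟨d, hd⟩ : ∃ d : ℕ, d = ⌊δ * n⌋₊ := ⟨_, rfl⟩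
  obtain ⟨t, ht⟩ : ∃ t : ℕ, t = ⌊τ * n⌋₊ := ⟨_, rfl⟩
  rw [← hd, ← ht]
  have hd1 : (d : ℝ) ≤ δ * n := by rw [hd]; exact Nat.floor_le (by positivity)
  have hd2 : δ * n - 1 < d := by rw [hd]; exact Nat.sub_one_lt_floor _
  have ht1 : (t : ℝ) ≤ τ * n := by rw [ht]; exact Nat.floor_le (by positivity)
  have hd0 : (0 : ℝ) ≤ d := Nat.cast_nonneg d
  have ht0 : (0 : ℝ) ≤ t := Nat.cast_nonneg t
  have hc1' : 1 ≤ d := by
    rw [hd]
    apply Nat.le_floor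
    rw [div_le_iff₀ hδ0] at hn1
    push_cast
    linarith
  have hLd' : ((L : ℝ) + 1) * d ≤ (1 - κ - η) * n := by
    calc ((L : ℝ) + 1) * d ≤ ((L : ℝ) + 1) * (δ * n) := mul_le_mul_of_nonneg_left hd1 hL0.le
      _ = (1 - κ - η) * n := by rw [← mul_assoc, hLδ, hc]
  have hsum : (L + 1) * d + t + a ≤ n := by
    have h1 : ((L : ℝ) + 1) * d + t + a ≤ n := by
      have h2 : (1 - κ - η) * n + τ * n + η / 2 * n ≤ n := by
        have h3 : 0 ≤ (κ - τ + η / 2) * n := mul_nonneg (by linarith) hn0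
        nlinarith
      linarith
    exact_mod_cast h1
  have han : a ≤ n := by omega
  refine ⟨hc1', hsum, ?_, ?_⟩
  · -- first condition
    have hle : d ≤ (L + 1) * d := Nat.le_mul_of_pos_left d (by omega)
    have hdt : d + t ≤ n - a := by omega
    have hcast : ((n - a : ℕ) : ℝ) = (n : ℝ) - a := by
      rw [Nat.cast_sub han]
    have h1 := h (n - a) t d 4 hdt (by norm_num) (by
      rw [hcast]
      have h2 : (d : ℝ) ≤ 1 / 12 * n := hd1.trans (mul_le_mul_of_nonneg_right hδ12 hn0)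
      have h3 : (a : ℝ) ≤ 1 / 8 * n :=
        ha.trans (mul_le_mul_of_nonneg_right (by linarith) hn0)
      have h4 : (t : ℝ) ≤ 1 / 2 * n := ht1.trans (mul_le_mul_of_nonneg_right hτ.le hn0)
      linarith)
    have h5 : (n : ℝ) * 4 ^ d ≤ K := by
      refine le_trans ?_ hK
      have h6 : (n : ℝ) ≤ Real.exp (ρ / 2 * n) := by
        have := NC_exp (ρ / 2) 1 (by positivity) n hn2
        linarith
      have h7 : (4 : ℝ) ^ d ≤ Real.exp (ρ / 2 * n) := by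
        have h8 : (4 : ℝ) ^ d = Real.exp (d * Real.log 4) := by
          rw [Real.exp_nat_mul, Real.exp_log (by norm_num)]
        rw [h8]
        apply Real.exp_le_exp.2
        calc (d : ℝ) * Real.log 4 ≤ δ * n * Real.log 4 := mul_le_mul_of_nonneg_right hd1 hlog4.le
          _ = δ * Real.log 4 * n := by ring
          _ ≤ ρ / 2 * n := mul_le_mul_of_nonneg_right hδρ hn0
      calc (n : ℝ) * 4 ^ d ≤ Real.exp (ρ / 2 * n) * Real.exp (ρ / 2 * n) :=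
            mul_le_mul h6 h7 (by positivity) (Real.exp_pos _).le
        _ = Real.exp (ρ * n) := by
            rw [← Real.exp_add]
            congr 1
            ring
    have h9 : (n : ℝ) * ((n - a).choose d : ℝ) ≤ K * ((n - a - t).choose d : ℝ) := by
      calc (n : ℝ) * ((n - a).choose d : ℝ) ≤ n * (4 ^ d * ((n - a - t).choose d : ℝ)) :=
            mul_le_mul_of_nonneg_left h1 hn0
        _ = (n * 4 ^ d) * ((n - a - t).choose d : ℝ) := by ring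
        _ ≤ K * ((n - a - t).choose d : ℝ) :=
            mul_le_mul_of_nonneg_right h5 (Nat.cast_nonneg _)
    exact_mod_cast h9
  · intro g' hg' _
    have hexp : (L + 1) * d = L * d + d := by ring
    have hdt : d + t ≤ g' := by
      have h1 : d + t ≤ n - a - L * d := by
        rw [hexp] at hsum
        omega
      exact h1.trans hg'
    have hg'n : n ≤ g' + a + L * d := by omega
    have hg'R : (n : ℝ) ≤ g' + a + L * d := by exact_mod_cast hg'n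
    have hk : k1 * n ≤ (g' : ℝ) - d := by
      have h1 : ((L : ℝ) + 1) * d = L * d + d := by ring
      have h2 : k1 * n = n - (1 - κ - η) * n - η / 2 * n := by rw [hk1]; ring
      rw [h2]
      linarith
    have h1 := h g' t d r1 hdt hr11.le (by
      have h2 : r1 * t ≤ (r1 - 1) * ((g' : ℝ) - d) := by
        have h3 : (r1 - 1) * (k1 * n) ≤ (r1 - 1) * ((g' : ℝ) - d) :=
          mul_le_mul_of_nonneg_left hk (by linarith)
        have h4 : r1 * t ≤ r1 * (τ * n) := mul_le_mul_of_nonneg_left ht1 hr10.le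
        have h5 : (r1 - 1) * (k1 * n) = r1 * (τ * n) := by
          have h6 : (r1 - 1) * k1 = r1 * τ := by linarith
          rw [← mul_assoc, h6, mul_assoc]
        linarith
      nlinarith)
    have h7 : (2 : ℝ) * n ≤ θ ^ d := by
      have h8 := NC_exp (δ * Real.log θ) (2 * θ) (by positivity) n hn3
      have hθ0 : 0 < θ := by linarith
      have h9 : θ ^ (δ * n - 1) ≤ θ ^ (d : ℝ) :=
        Real.rpow_le_rpow_of_exponent_le hθ1.le hd2.le
      rw [Real.rpow_natCast] at h9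
      refine le_trans ?_ h9
      rw [Real.rpow_sub hθ0, Real.rpow_one, le_div_iff₀ hθ0, Real.rpow_def_of_pos hθ0]
      have h10 : Real.log θ * (δ * n) = δ * Real.log θ * n := by ring
      rw [h10]
      linarith
    have h11 : (2 : ℝ) * n * (g'.choose d : ℝ) ≤ Q ^ d * ((g' - t).choose d : ℝ) := by
      calc (2 : ℝ) * n * (g'.choose d : ℝ) ≤ 2 * n * (r1 ^ d * ((g' - t).choose d : ℝ)) :=
            mul_le_mul_of_nonneg_left h1 (by positivity)
        _ = 2 * n * r1 ^ d * ((g' - t).choose d : ℝ) := by ring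
        _ ≤ θ ^ d * r1 ^ d * ((g' - t).choose d : ℝ) := by
            refine mul_le_mul_of_nonneg_right ?_ (Nat.cast_nonneg _)
            exact mul_le_mul_of_nonneg_right h7 (by positivity)
        _ = Q ^ d * ((g' - t).choose d : ℝ) := by rw [← mul_pow, hθr]
    exact_mod_cast h11

end Pool.Agent.H517R2.RS
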