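import Pool.Agent.H517R2.RS.Defs2

/-!
# Localized errors, task NC2: the numerical conditions
-/

namespace Pool.Agent.H517R2.RS

open Finset

private theorem nc2_log {x c : ℝ} (hx : 0 < x) (hc : 0 < c) :
    Real.log x ≤ c * x - 1 - Real.log c := by
  have h1 := Real.log_le_sub_one_of_pos (mul_pos hc hx)
  rw [Real.log_mul hc.ne' hx.ne'] at h1
  linarith

theorem t_NC2 (h1 : RAT) (h2 : WNL) : NC2 := by
  intro Q τ β w η κ ρ hQ hτ0 hτ1 hβ0 hβ1 hw hw1 hη0 hη1 hκ hκη hρ
  have hwpos : 0 < w := by rw [hw]; exact Real.exp_pos _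
  have hw2 : 1 < w := by nlinarith
  have hw3 : 0 < w - 1 := by linarith
  have hκw : κ * (w - 1) = τ * w := by rw [hκ]; field_simp
  have hκτ : τ < κ := by
    rw [hκ, lt_div_iff₀ hw3]
    nlinarith
  set k1 : ℝ := κ + η / 2 with hk1
  have hk1τ : 0 < k1 - τ := by rw [hk1]; linarith
  have hk1pos : 0 < k1 := by linarith
  set r1 : ℝ := k1 / (k1 - τ) with hr1
  have hr1gt : 1 < r1 := by
    rw [hr1, lt_div_iff₀ hk1τ]
    linarith
  have hr1w : r1 < w := by
    rw [hr1, div_lt_iff₀ hk1τ]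
    nlinarith
  have hr1pos : 0 < r1 := by linarith
  set m : ℝ := 1 - κ - η with hm
  have hm0 : 0 < m := by rw [hm]; linarith
  have hm1 : m ≤ 1 := by rw [hm]; linarith
  set L : ℕ := ⌈12 + Real.log 4 / ρ⌉₊ with hL
  have hlog4 : 0 < Real.log 4 := Real.log_pos (by norm_num)
  have hLge : 12 + Real.log 4 / ρ ≤ (L : ℝ) := Nat.le_ceil _
  have hLdiv : 0 < Real.log 4 / ρ := by positivity
  have hL12 : (12 : ℝ) ≤ L := by linarith
  have hL1 : (0 : ℝ) < (L : ℝ) + 1 := by linarith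
  set δ : ℝ := m / ((L : ℝ) + 1) with hδ
  have hδ0 : 0 < δ := by positivity
  have hLδ : ((L : ℝ) + 1) * δ = m := by rw [hδ]; field_simp
  have hδ12 : δ ≤ 1 / 12 := by
    rw [hδ, div_le_div_iff₀ hL1 (by norm_num)]
    linarith
  have hδρ : δ * Real.log 4 ≤ ρ := by
    have h3 : Real.log 4 ≤ ρ * ((L : ℝ) + 1) := by
      have h4 : Real.log 4 / ρ ≤ (L : ℝ) + 1 := by linarith
      rw [div_le_iff₀ hρ] at h4
      linarith
    rw [hδ, div_mul_eq_mul_div, div_le_iff₀ hL1]
    nlinarith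
  -- the exponential gap
  set ε : ℝ := (Real.log w - Real.log r1) / 2 with hε
  have hε0 : 0 < ε := by
    have := Real.log_lt_log hr1pos hr1w
    rw [hε]; linarith
  obtain ⟨d₀, hd₀⟩ := h2 Q β ε hQ hβ0 hβ1 hε0
  set c : ℝ := δ * ε / 4 with hc
  have hc0 : 0 < c := by positivity
  have hLpos : 1 ≤ L := by
    have : (1 : ℝ) ≤ (L : ℝ) := by linarith
    exact_mod_cast this
  refine ⟨L, δ, hLpos, hδ0, hLδ, ?_⟩
  refine ⟨max 1 (max ⌈((d₀ : ℝ) + 1) / δ⌉₊ ⌈2 * (ε - 1 - Real.log c) / (δ * ε)⌉₊), fun n hn => ?_⟩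
  have hn1 : 1 ≤ n := (le_max_left _ _).trans hn
  have hn2 : ((d₀ : ℝ) + 1) / δ ≤ n :=
    (Nat.le_ceil _).trans (by exact_mod_cast ((le_max_left _ _).trans (le_max_right _ _)).trans hn)
  have hn3 : 2 * (ε - 1 - Real.log c) / (δ * ε) ≤ n :=
    (Nat.le_ceil _).trans (by exact_mod_cast ((le_max_right _ _).trans (le_max_right _ _)).trans hn)
  have hnpos : (0 : ℝ) < n := by exact_mod_cast hn1
  rw [div_le_iff₀ hδ0] at hn2
  rw [div_le_iff₀ (by positivity)] at hn3
  set d : ℕ := ⌊δ * n⌋₊ with hd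
  set t : ℕ := ⌊τ * n⌋₊ with ht
  set a : ℕ := ⌊η / 2 * n⌋₊ with ha
  have hdle : (d : ℝ) ≤ δ * n := Nat.floor_le (by positivity)
  have htle : (t : ℝ) ≤ τ * n := Nat.floor_le (by positivity)
  have hale : (a : ℝ) ≤ η / 2 * n := Nat.floor_le (by positivity)
  have hdge : δ * n - 1 ≤ d := (Nat.sub_one_lt_floor (δ * n)).le
  have hd₀d : d₀ ≤ d := Nat.le_floor (by nlinarith)
  have hd1 : 1 ≤ d := Nat.le_floor (by push_cast; nlinarith [(Nat.cast_nonneg d₀ : (0:ℝ) ≤ d₀)])
  have hLd : ((L : ℝ) + 1) * d ≤ m * n := by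
    calc ((L : ℝ) + 1) * d ≤ ((L : ℝ) + 1) * (δ * n) := mul_le_mul_of_nonneg_left hdle hL1.le
      _ = m * n := by rw [← hLδ]; ring
  have hsumR : ((L : ℝ) + 1) * d + t + a ≤ n := by
    have h3 : m * n + τ * n + η / 2 * n ≤ n := by
      rw [hm]
      nlinarith
    linarith
  have hsum : (L + 1) * d + t + a ≤ n := by exact_mod_cast hsumR
  have hLd1 : d ≤ (L + 1) * d := Nat.le_mul_of_pos_left d (by omega)
  have hLd2 : (L + 1) * d = L * d + d := by ring
  refine ⟨hd1, hsum, ?_, ?_⟩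
  · -- third condition
    have hg : d + t ≤ n - a := by omega
    have hcast : ((n - a : ℕ) : ℝ) = (n : ℝ) - a := by rw [Nat.cast_sub (by omega)]
    have h3 := h1 (n - a) t d 4 hg (by norm_num) (by
      rw [hcast]
      have h4 : (a : ℝ) ≤ 1 / 8 * n := hale.trans (by nlinarith)
      have h5 : (d : ℝ) ≤ 1 / 12 * n := hdle.trans (by nlinarith)
      have h6 : (t : ℝ) ≤ 1 / 2 * n := htle.trans (by nlinarith)
      linarith)
    refine h3.trans ?_
    refine mul_le_mul_of_nonneg_right ?_ (Nat.cast_nonneg _)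
    have h4 : (4 : ℝ) ^ d = Real.exp (d * Real.log 4) := by
      rw [mul_comm, Real.exp_mul, Real.exp_log (by norm_num), Real.rpow_natCast]
    rw [h4]
    apply Real.exp_le_exp.mpr
    calc (d : ℝ) * Real.log 4 ≤ δ * n * Real.log 4 := mul_le_mul_of_nonneg_right hdle hlog4.le
      _ = (δ * Real.log 4) * n := by ring
      _ ≤ ρ * n := mul_le_mul_of_nonneg_right hδρ hnpos.le
  · -- fourth condition
    intro g' hg1 hg2
    have hg : d + t ≤ g' := by omega
    have hgR : (n : ℝ) ≤ g' + a + L * d := by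
      have : n ≤ g' + a + L * d := by omega
      exact_mod_cast this
    have hgd : k1 * n ≤ (g' : ℝ) - d := by
      have h3 : m * n + η / 2 * n + k1 * n = n := by rw [hm, hk1]; ring
      nlinarith
    have h3 := h1 g' t d r1 hg hr1gt.le (by
      have h4 : (r1 - 1) * (k1 * n) = r1 * (τ * n) := by
        have h5 : (r1 - 1) * k1 = r1 * τ := by
          rw [hr1]
          field_simp
          ring
        calc (r1 - 1) * (k1 * n) = ((r1 - 1) * k1) * n := by ring
          _ = r1 * (τ * n) := by rw [h5]; ring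
      have h6 : (r1 - 1) * (k1 * n) ≤ (r1 - 1) * ((g' : ℝ) - d) :=
        mul_le_mul_of_nonneg_left hgd (by linarith)
      have h7 : r1 * (t : ℝ) ≤ r1 * (τ * n) := mul_le_mul_of_nonneg_left htle hr1pos.le
      nlinarith)
    -- size of Wn
    have h8 := hd₀ d hd₀d
    have hdpos : (0 : ℝ) < d := by exact_mod_cast hd1
    have hlw : Real.log (wf Q β) = Real.log w := by rw [hw]
    rw [hlw] at h8
    have hlogr : 0 < Real.log r1 := Real.log_pos hr1gt
    have hsp : Real.log w - ε = ε + Real.log r1 := by rw [hε]; ring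
    rw [hsp] at h8
    set W : ℕ := Wn Q d ⌊β * d⌋₊ with hW
    have hWpos : 0 < (W : ℝ) := by
      by_contra hcon
      have hW0 : (W : ℝ) = 0 := le_antisymm (not_lt.mp hcon) (Nat.cast_nonneg _)
      rw [hW0, Real.log_zero] at h8
      have : 0 < (d : ℝ) * (ε + Real.log r1) := by positivity
      linarith
    have hlog2n : Real.log (2 * n) ≤ d * ε := by
      have h9 := nc2_log (x := 2 * n) (c := c) (by positivity) hc0
      have h10 : c * (2 * n) = δ * ε * n / 2 := by rw [hc]; ring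
      have h11 : (δ * n - 1) * ε ≤ d * ε := mul_le_mul_of_nonneg_right hdge hε0.le
      rw [h10] at h9
      nlinarith
    have h12 : 2 * (n : ℝ) * r1 ^ d ≤ W := by
      rw [← Real.log_le_log_iff (by positivity) hWpos, Real.log_mul (by positivity) (by positivity),
        Real.log_pow]
      nlinarith
    have h13 : (2 * (n : ℝ)) * (g'.choose d : ℝ) ≤ (W : ℝ) * ((g' - t).choose d : ℝ) := by
      calc (2 * (n : ℝ)) * (g'.choose d : ℝ)
          ≤ (2 * (n : ℝ)) * (r1 ^ d * ((g' - t).choose d : ℝ)) :=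
            mul_le_mul_of_nonneg_left h3 (by positivity)
        _ = (2 * (n : ℝ) * r1 ^ d) * ((g' - t).choose d : ℝ) := by ring
        _ ≤ (W : ℝ) * ((g' - t).choose d : ℝ) :=
            mul_le_mul_of_nonneg_right h12 (Nat.cast_nonneg _)
    exact_mod_cast h13

end Pool.Agent.H517R2.RS
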