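import Pool.Agent.H517R2.RS.Defs

/-!
# RS21: the limit of the rate
-/

namespace Pool.Agent.H517R2.RS

open Finset Filter Topology

theorem t_NL (h1 : BINE) (h2 : CHU) : NL := by
  intro Q L τ η κ δ ε hQ hτ hτ2 hη hκ hκη hδ hLδ hε
  have hQ1 : (2 : ℝ) ≤ Q := by exact_mod_cast hQ
  have hQ0 : (0 : ℝ) < (Q : ℝ) - 1 := by linarith
  have hκτ : τ ≤ κ := by
    rw [hκ, le_div_iff₀ hQ0]
    nlinarith
  have hlQ : 0 ≤ Real.log Q := Real.log_nonneg (by linarith)
  have hl4 : 0 ≤ Real.log 4 := Real.log_nonneg (by norm_num)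
  have hL0 : (0 : ℝ) ≤ L := Nat.cast_nonneg _
  set k1 : ℝ := κ + η / 2 with hk1
  have hk1τ : τ < k1 := by rw [hk1]; linarith
  have hk10 : 0 < k1 := hτ.trans hk1τ
  have hk11 : k1 ≤ 1 := by rw [hk1]; linarith
  have T1 : Tendsto (fun n : ℕ => ((⌊k1 * (n : ℝ)⌋₊ : ℕ) : ℝ) / (n : ℝ)) atTop (𝓝 k1) :=
    (tendsto_nat_floor_mul_div_atTop hk10.le).comp tendsto_natCast_atTop_atTop
  have T2 : Tendsto (fun n : ℕ => ((⌊τ * (n : ℝ)⌋₊ : ℕ) : ℝ) / (n : ℝ)) atTop (𝓝 τ) :=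
    (tendsto_nat_floor_mul_div_atTop hτ.le).comp tendsto_natCast_atTop_atTop
  have T3 : Tendsto (fun n : ℕ => ((⌊k1 * (n : ℝ)⌋₊ : ℕ) : ℝ) / (n : ℝ) * Real.binEntropy
      (((⌊τ * (n : ℝ)⌋₊ : ℕ) : ℝ) / (n : ℝ) / (((⌊k1 * (n : ℝ)⌋₊ : ℕ) : ℝ) / (n : ℝ)))) atTop
      (𝓝 (k1 * Real.binEntropy (τ / k1))) :=
    T1.mul ((Real.binEntropy_continuous.tendsto _).comp (T2.div T1 hk10.ne'))
  have hB : k1 * Real.binEntropy (τ / k1) - ε / 2 < k1 * Real.binEntropy (τ / k1) := by linarith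
  have T4 : ∀ᶠ n : ℕ in atTop, Real.log (n : ℝ) ≤ ε / (4 * ((L : ℝ) + 1)) * n := by
    have h3 := (Real.isLittleO_log_id_atTop.def (c := ε / (4 * ((L : ℝ) + 1))) (by positivity))
    filter_upwards [tendsto_natCast_atTop_atTop.eventually h3] with n hn
    simp only [id_eq, Real.norm_eq_abs, Nat.abs_cast] at hn
    exact (le_abs_self _).trans hn
  have T5 : ∀ᶠ n : ℕ in atTop, 4 * ((L : ℝ) + 1) * (Real.log Q + Real.log 4) / ε ≤ (n : ℝ) :=
    tendsto_natCast_atTop_atTop.eventually_ge_atTop _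
  have T6 : ∀ᶠ n : ℕ in atTop, 1 / τ ≤ (n : ℝ) :=
    tendsto_natCast_atTop_atTop.eventually_ge_atTop _
  obtain ⟨n₀, hn₀⟩ := eventually_atTop.1 ((T3.eventually (eventually_gt_nhds hB)).and
    (T4.and (T5.and (T6.and (eventually_ge_atTop 1)))))
  refine ⟨n₀, fun n hn a ha hsum => ?_⟩
  obtain ⟨a3, a4, a5, a6, a7⟩ := hn₀ n hn
  have hn0 : (0 : ℝ) < n := by exact_mod_cast a7
  have hn1 : (1 : ℝ) ≤ n := by exact_mod_cast a7
  set d : ℕ := ⌊δ * (n : ℝ)⌋₊ with hd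
  set t : ℕ := ⌊τ * (n : ℝ)⌋₊ with ht
  set l0 : ℕ := ⌊k1 * (n : ℝ)⌋₊ with hl0
  have ht1 : 1 ≤ t := by
    rw [ht]
    apply Nat.le_floor
    rw [div_le_iff₀ hτ] at a6
    push_cast
    linarith
  have htn : (t : ℝ) ≤ τ * n := Nat.floor_le (by positivity)
  have htl : t ≤ l0 := Nat.floor_le_floor (by nlinarith)
  have hl0n : (l0 : ℝ) ≤ k1 * n := Nat.floor_le (by positivity)
  have hdn : (d : ℝ) ≤ δ * n := Nat.floor_le (by positivity)
  have hdn2 : δ * n < (d : ℝ) + 1 := Nat.lt_floor_add_one _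
  -- the three parts
  have p1 : ((1 - κ - η) * n - ((L : ℝ) + 1)) * Real.log Q ≤
      (((L + 1) * d : ℕ) : ℝ) * Real.log Q := by
    refine mul_le_mul_of_nonneg_right ?_ hlQ
    push_cast
    rw [← hLδ]
    nlinarith
  have p2 : Real.log ((n - a - d).choose t) ≤ n * Real.binEntropy τ := by
    refine le_trans ?_ (h2 τ hτ hτ2 n t htn)
    have h3 : t ≤ n - a - d := by
      have : d ≤ (L + 1) * d := Nat.le_mul_of_pos_left _ (Nat.succ_pos _)
      omega
    have h4 : 0 < (n - a - d).choose t := Nat.choose_pos h3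
    apply Real.log_le_log (by exact_mod_cast h4)
    exact_mod_cast Nat.choose_le_choose t (by omega : n - a - d ≤ n)
  have hll : l0 ≤ n - a - (L + 1) * d := by
    have h3 : a + (L + 1) * d ≤ n := by omega
    have h4 : l0 + (a + (L + 1) * d) ≤ n := by
      have h5 : ((l0 + (a + (L + 1) * d) : ℕ) : ℝ) ≤ n := by
        push_cast
        have h6 : ((L : ℝ) + 1) * d ≤ (1 - κ - η) * n := by
          rw [← hLδ]
          nlinarith
        have h7 : k1 * n + η / 2 * n + (1 - κ - η) * n = n := by rw [hk1]; ring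
        linarith
      exact_mod_cast h5
    omega
  have p3 : (l0 : ℝ) * Real.binEntropy ((t : ℝ) / l0) - Real.log (l0 + 1) ≤
      Real.log ((n - a - (L + 1) * d).choose t) := by
    refine (h1 l0 t ht1 htl).trans ?_
    have h4 : 0 < l0.choose t := Nat.choose_pos htl
    apply Real.log_le_log (by exact_mod_cast h4)
    exact_mod_cast Nat.choose_le_choose t hll
  have p4 : n * (k1 * Real.binEntropy (τ / k1) - ε / 2) ≤
      (l0 : ℝ) * Real.binEntropy ((t : ℝ) / l0) := by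
    rw [div_div_div_cancel_right₀ hn0.ne'] at a3
    have h5 := mul_le_mul_of_nonneg_left a3.le hn0.le
    have h6 : (n : ℝ) * ((l0 : ℝ) / n * Real.binEntropy ((t : ℝ) / l0)) =
        (l0 : ℝ) * Real.binEntropy ((t : ℝ) / l0) := by
      field_simp
    rw [h6] at h5
    exact h5
  have h4n : Real.log (4 * n) = Real.log 4 + Real.log n :=
    Real.log_mul (by norm_num) hn0.ne'
  have p5 : Real.log ((l0 : ℝ) + 1) ≤ Real.log (4 * n) := by
    apply Real.log_le_log (by positivity)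
    have : k1 * n ≤ 1 * n := mul_le_mul_of_nonneg_right hk11 hn0.le
    linarith
  have p6 : ((L : ℝ) + 1) * Real.log Q + Real.log ((l0 : ℝ) + 1) + L * Real.log (4 * n) ≤
      ε / 2 * n := by
    have e1 : ((L : ℝ) + 1) * Real.log n ≤ ε / 4 * n := by
      have h5 := mul_le_mul_of_nonneg_left a4 (by positivity : (0 : ℝ) ≤ (L : ℝ) + 1)
      have h6 : ((L : ℝ) + 1) * (ε / (4 * ((L : ℝ) + 1)) * n) = ε / 4 * n := by field_simp
      rw [h6] at h5
      exact h5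
    have e2 : ((L : ℝ) + 1) * (Real.log Q + Real.log 4) ≤ ε / 4 * n := by
      rw [div_le_iff₀ hε] at a5
      linarith
    have e3 : ((L : ℝ) + 1) * Real.log Q + Real.log ((l0 : ℝ) + 1) + L * Real.log (4 * n) ≤
        ((L : ℝ) + 1) * (Real.log Q + Real.log 4) + ((L : ℝ) + 1) * Real.log n := by
      calc ((L : ℝ) + 1) * Real.log Q + Real.log ((l0 : ℝ) + 1) + L * Real.log (4 * n) ≤
          ((L : ℝ) + 1) * Real.log Q + Real.log (4 * n) + L * Real.log (4 * n) := by linarith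
        _ = _ := by rw [h4n]; ring
    linarith
  have e7 : n * ((1 - κ - η) * Real.log Q + k1 * Real.binEntropy (τ / k1) -
      Real.binEntropy τ - ε) = ((1 - κ - η) * n - ((L : ℝ) + 1)) * Real.log Q +
      ((L : ℝ) + 1) * Real.log Q + n * (k1 * Real.binEntropy (τ / k1) - ε / 2) -
      n * Real.binEntropy τ - ε / 2 * n := by ring
  rw [e7]
  linarith

end Pool.Agent.H517R2.RS
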