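import Pool.Agent.H517R2.RS.Defs2

namespace Pool.Agent.H517R2.RS

open Finset Filter Topology

set_option maxHeartbeats 4000000 in
theorem t_NL2 (h1 : BINE) (h2 : CHU) (h3 : WNL) : NL2 := by
  intro Q L τ β w η κ δ ε hQ hτ hτ2 hβ hβ2 hw hw1 hη hκ hκη hδ hLδ hε
  have hw0 : 1 < w := by
    have hwp : 0 < w := by rw [hw]; exact Real.exp_pos _
    nlinarith
  have hlw : 0 < Real.log w := Real.log_pos hw0
  have hκτ : τ < κ := by
    rw [hκ, lt_div_iff₀ (by linarith)]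
    nlinarith
  obtain ⟨d₀, hd₀⟩ := h3 Q β (ε / 4) hQ hβ hβ2 (by linarith)
  set k1 : ℝ := κ + η / 2 with hk1
  have hk1pos : 0 < k1 := by linarith
  have hk1lt : k1 < 1 := by linarith
  have hcast : Tendsto (fun n : ℕ => (n : ℝ)) atTop atTop := tendsto_natCast_atTop_atTop
  have T1 : Tendsto (fun n : ℕ => ((⌊τ * n⌋₊ : ℕ) : ℝ) / n) atTop (𝓝 τ) :=
    (tendsto_nat_floor_mul_div_atTop hτ.le).comp hcast
  have T2 : Tendsto (fun n : ℕ => ((⌊k1 * n⌋₊ : ℕ) : ℝ) / n) atTop (𝓝 k1) :=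
    (tendsto_nat_floor_mul_div_atTop hk1pos.le).comp hcast
  have T3 : Tendsto (fun n : ℕ => ((⌊τ * n⌋₊ : ℕ) : ℝ) / ((⌊k1 * n⌋₊ : ℕ) : ℝ)) atTop
      (𝓝 (τ / k1)) := by
    have h := T1.div T2 hk1pos.ne'
    refine h.congr' ?_
    filter_upwards [eventually_ge_atTop 1] with n hn
    have hn0 : (n : ℝ) ≠ 0 := by
      have : (1 : ℝ) ≤ n := by exact_mod_cast hn
      linarith
    simp only [Pi.div_apply]
    rw [div_div_div_cancel_right₀ hn0]
  have T5 : Tendsto (fun n : ℕ => ((⌊k1 * n⌋₊ : ℕ) : ℝ) / n *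
      Real.binEntropy (((⌊τ * n⌋₊ : ℕ) : ℝ) / ((⌊k1 * n⌋₊ : ℕ) : ℝ))) atTop
      (𝓝 (k1 * Real.binEntropy (τ / k1))) :=
    T2.mul ((Real.binEntropy_continuous.tendsto _).comp T3)
  have T6 : Tendsto (fun n : ℕ => Real.log ((n : ℝ) + 1) / n) atTop (𝓝 0) := by
    have h := Real.tendsto_pow_log_div_mul_add_atTop 1 (-1) 1 one_ne_zero
    have h' := h.comp (tendsto_atTop_add_const_right atTop (1 : ℝ) hcast)
    refine h'.congr ?_
    intro n
    simp only [Function.comp_apply]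
    congr 1
    · ring
    · ring
  have T7 : Tendsto (fun n : ℕ => Real.log (4 * (n : ℝ)) / n) atTop (𝓝 0) := by
    have h := Real.tendsto_pow_log_div_mul_add_atTop (1 / 4) 0 1 (by norm_num)
    have h' := h.comp (hcast.const_mul_atTop (show (0 : ℝ) < 4 by norm_num))
    refine h'.congr ?_
    intro n
    simp only [Function.comp_apply]
    congr 1
    · ring
    · ring
  have T8 : Tendsto (fun n : ℕ => ((L : ℝ) + 1) * Real.log w / n) atTop (𝓝 0) :=
    hcast.const_div_atTop _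
  have T7' : Tendsto (fun n : ℕ => (L : ℝ) * (Real.log (4 * (n : ℝ)) / n)) atTop (𝓝 0) := by
    simpa using T7.const_mul (L : ℝ)
  have hfl : Tendsto (fun n : ℕ => ⌊δ * n⌋₊) atTop atTop :=
    tendsto_nat_floor_atTop.comp (hcast.const_mul_atTop hδ)
  have hft : Tendsto (fun n : ℕ => ⌊τ * n⌋₊) atTop atTop :=
    tendsto_nat_floor_atTop.comp (hcast.const_mul_atTop hτ)
  have ev : ∀ᶠ n : ℕ in atTop, 1 ≤ n ∧ d₀ ≤ ⌊δ * n⌋₊ ∧ 1 ≤ ⌊τ * n⌋₊ ∧
      k1 * Real.binEntropy (τ / k1) - ε / 4 < ((⌊k1 * n⌋₊ : ℕ) : ℝ) / n *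
        Real.binEntropy (((⌊τ * n⌋₊ : ℕ) : ℝ) / ((⌊k1 * n⌋₊ : ℕ) : ℝ)) ∧
      Real.log ((n : ℝ) + 1) / n < ε / 8 ∧ (L : ℝ) * (Real.log (4 * (n : ℝ)) / n) < ε / 8 ∧
      ((L : ℝ) + 1) * Real.log w / n < ε / 8 := by
    filter_upwards [eventually_ge_atTop 1, hfl.eventually_ge_atTop d₀, hft.eventually_ge_atTop 1,
      T5.eventually_const_lt (show k1 * Real.binEntropy (τ / k1) - ε / 4 <
        k1 * Real.binEntropy (τ / k1) by linarith),
      T6.eventually_lt_const (show (0 : ℝ) < ε / 8 by linarith),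
      T7'.eventually_lt_const (show (0 : ℝ) < ε / 8 by linarith),
      T8.eventually_lt_const (show (0 : ℝ) < ε / 8 by linarith)] with n a1 a2 a3 a4 a5 a6 a7
    exact ⟨a1, a2, a3, a4, a5, a6, a7⟩
  obtain ⟨n₀, hn₀⟩ := eventually_atTop.mp ev
  refine ⟨n₀, fun n hn => ?_⟩
  obtain ⟨e0, e1, e2, e3, e4, e5, e6⟩ := hn₀ n hn
  have hn1 : (1 : ℝ) ≤ n := by exact_mod_cast e0
  have hnpos : (0 : ℝ) < n := by linarith
  set d := ⌊δ * n⌋₊ with hd
  set t := ⌊τ * n⌋₊ with ht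
  set a := ⌊η / 2 * n⌋₊ with ha
  set l0 := ⌊k1 * n⌋₊ with hl0
  have hdle : (d : ℝ) ≤ δ * n := Nat.floor_le (by positivity)
  have hdge : δ * n - 1 < (d : ℝ) := Nat.sub_one_lt_floor _
  have hale : (a : ℝ) ≤ η / 2 * n := Nat.floor_le (by positivity)
  have htle : (t : ℝ) ≤ τ * n := Nat.floor_le (by positivity)
  have hl0le : (l0 : ℝ) ≤ k1 * n := Nat.floor_le (by positivity)
  have hLd : ((L : ℝ) + 1) * d ≤ (1 - κ - η) * n := by
    calc ((L : ℝ) + 1) * d ≤ ((L : ℝ) + 1) * (δ * n) := by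
          apply mul_le_mul_of_nonneg_left hdle; positivity
      _ = (1 - κ - η) * n := by rw [← hLδ]; ring
  have hLd2 : (1 - κ - η) * n - ((L : ℝ) + 1) ≤ ((L : ℝ) + 1) * d := by
    have h : ((L : ℝ) + 1) * (δ * n - 1) ≤ ((L : ℝ) + 1) * d := by
      apply mul_le_mul_of_nonneg_left hdge.le; positivity
    have h' : ((L : ℝ) + 1) * (δ * n - 1) = (1 - κ - η) * n - ((L : ℝ) + 1) := by
      rw [← hLδ]; ring
    linarith
  -- natural numbers
  have hsum : l0 + (L + 1) * d + a ≤ n := by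
    have h : ((l0 + (L + 1) * d + a : ℕ) : ℝ) ≤ (n : ℝ) := by
      push_cast
      have : k1 * n + (1 - κ - η) * n + η / 2 * n = n := by rw [hk1]; ring
      linarith
    exact_mod_cast h
  have hl : l0 ≤ n - a - (L + 1) * d := by omega
  have htl0 : t ≤ l0 := Nat.floor_mono (by
    apply mul_le_mul_of_nonneg_right _ hnpos.le
    linarith)
  have hdL : d ≤ (L + 1) * d := Nat.le_mul_of_pos_left d (Nat.succ_pos L)
  have hm : l0 ≤ n - a - d := by omega
  -- lower bound of the first binomial coefficient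
  have b1 : (l0 : ℝ) * Real.binEntropy ((t : ℝ) / l0) - Real.log (l0 + 1) ≤
      Real.log ((n - a - (L + 1) * d).choose t) := by
    refine (h1 l0 t e2 htl0).trans ?_
    apply Real.log_le_log
    · exact_mod_cast Nat.choose_pos htl0
    · exact_mod_cast Nat.choose_le_choose t hl
  -- upper bound of the second
  have b2 : Real.log ((n - a - d).choose t) ≤ n * Real.binEntropy τ := by
    refine le_trans ?_ (h2 τ hτ hτ2 n t htle)
    apply Real.log_le_log
    · exact_mod_cast Nat.choose_pos (htl0.trans hm)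
    · exact_mod_cast Nat.choose_le_choose t (by omega)
  -- the words
  have b3 : ((L : ℝ) + 1) * (d * (Real.log w - ε / 4)) ≤
      ((L : ℝ) + 1) * Real.log (Wn Q d ⌊β * d⌋₊) := by
    apply mul_le_mul_of_nonneg_left _ (by positivity)
    have := hd₀ d e1
    rw [← hw] at this
    exact this
  have b4 : ((1 - κ - η) * n - ((L : ℝ) + 1)) * Real.log w ≤ ((L : ℝ) + 1) * d * Real.log w :=
    mul_le_mul_of_nonneg_right hLd2 hlw.le
  have b5 : ((L : ℝ) + 1) * d * (ε / 4) ≤ n * (ε / 4) := by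
    apply mul_le_mul_of_nonneg_right _ (by linarith)
    have : (1 - κ - η) * n ≤ 1 * n := by
      apply mul_le_mul_of_nonneg_right _ hnpos.le
      linarith
    linarith
  have b6 : Real.log ((l0 : ℝ) + 1) ≤ Real.log ((n : ℝ) + 1) := by
    apply Real.log_le_log (by positivity)
    have : k1 * n ≤ 1 * n := mul_le_mul_of_nonneg_right hk1lt.le hnpos.le
    linarith
  -- multiply by n
  have c3 : n * (k1 * Real.binEntropy (τ / k1) - ε / 4) ≤
      (l0 : ℝ) * Real.binEntropy ((t : ℝ) / l0) := by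
    have h := mul_le_mul_of_nonneg_left e3.le hnpos.le
    have h' : (n : ℝ) * (((l0 : ℕ) : ℝ) / n * Real.binEntropy ((t : ℝ) / l0)) =
        (l0 : ℝ) * Real.binEntropy ((t : ℝ) / l0) := by
      field_simp
    rw [h'] at h
    exact h
  have c4 : Real.log ((n : ℝ) + 1) ≤ n * (ε / 8) := by
    rw [div_lt_iff₀ hnpos] at e4
    linarith
  have c5 : (L : ℝ) * Real.log (4 * (n : ℝ)) ≤ n * (ε / 8) := by
    rw [← mul_div_assoc, div_lt_iff₀ hnpos] at e5
    linarith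
  have c6 : ((L : ℝ) + 1) * Real.log w ≤ n * (ε / 8) := by
    rw [div_lt_iff₀ hnpos] at e6
    linarith
  have b3' : ((L : ℝ) + 1) * (d * (Real.log w - ε / 4)) =
      ((L : ℝ) + 1) * d * Real.log w - ((L : ℝ) + 1) * d * (ε / 4) := by ring
  have b4' : ((1 - κ - η) * n - ((L : ℝ) + 1)) * Real.log w =
      n * ((1 - κ - η) * Real.log w) - ((L : ℝ) + 1) * Real.log w := by ring
  have g1 : n * ((1 - κ - η) * Real.log w + k1 * Real.binEntropy (τ / k1) -
      Real.binEntropy τ - ε) = n * ((1 - κ - η) * Real.log w) +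
      n * (k1 * Real.binEntropy (τ / k1) - ε / 4) - n * Real.binEntropy τ - n * (ε / 8) * 6 := by
    ring
  have g2 : n * (ε / 4) = n * (ε / 8) * 2 := by ring
  rw [g1]
  rw [b3'] at b3
  rw [b4'] at b4
  rw [g2] at b5
  have g3 : 0 ≤ n * (ε / 8) := by positivity
  linarith [g3, b1, b2, b3, b4, b5, b6, c3, c4, c5, c6]

end Pool.Agent.H517R2.RS
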