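import Pool.Agent.H517R2.RS.Defs

/-! # Task PHI: choice of `η` -/

set_option autoImplicit false

namespace Pool.Agent.H517R2.RS

open Real Filter Topology

theorem PHI_ent (Q : ℝ) (hQ : 2 ≤ Q) :
    binEntropy ((Q - 1) / Q) = log Q - (Q - 1) / Q * log (Q - 1) := by
  have hQ0 : Q ≠ 0 := by linarith
  have hQ1 : Q - 1 ≠ 0 := by linarith
  have e : 1 - (Q - 1) / Q = 1 / Q := by field_simp; ring
  rw [binEntropy, e, inv_div, one_div, inv_inv, log_div hQ0 hQ1]
  field_simp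
  ring

theorem PHI_zero (Q τ : ℝ) (hQ : 2 ≤ Q) (hτ : 0 < τ) :
    (1 - τ * Q / (Q - 1)) * log Q + (τ * Q / (Q - 1)) * binEntropy (τ / (τ * Q / (Q - 1))) =
      log Q - τ * log (Q - 1) := by
  have hQ0 : Q ≠ 0 := by linarith
  have hQ1 : Q - 1 ≠ 0 := by linarith
  have e : τ / (τ * Q / (Q - 1)) = (Q - 1) / Q := by
    field_simp
  rw [e, PHI_ent Q hQ]
  field_simp
  ring

theorem PHI_cont (Q τ : ℝ) (κ : ℝ) (hκ : 0 < κ) :
    ContinuousAt (fun η : ℝ => (1 - κ - η) * log Q + (κ + η / 2) * binEntropy (τ / (κ + η / 2))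
      - binEntropy τ) 0 := by
  have h1 : ContinuousAt (fun η : ℝ => κ + η / 2) 0 := by fun_prop
  have h2 : ContinuousAt (fun η : ℝ => τ / (κ + η / 2)) 0 := by
    refine ContinuousAt.div continuousAt_const h1 ?_
    simp [hκ.ne']
  have h3 : ContinuousAt (fun η : ℝ => binEntropy (τ / (κ + η / 2))) 0 :=
    (binEntropy_continuous.continuousAt).comp h2
  have h4 : ContinuousAt (fun η : ℝ => (1 - κ - η) * log Q) 0 := by fun_prop
  exact (h4.add (h1.mul h3)).sub continuousAt_const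

theorem t_PHI : PHI := by
  intro Q τ ε hQ hτ hτ2 hε
  have hQr : (2 : ℝ) ≤ Q := by exact_mod_cast hQ
  have hQ1 : (0 : ℝ) < (Q : ℝ) - 1 := by linarith
  set κ : ℝ := τ * Q / (Q - 1) with hκ
  have hκ0 : 0 < κ := by positivity
  have hκ1 : κ < 1 := by
    rw [hκ, div_lt_one hQ1]
    nlinarith
  have hc := PHI_cont Q τ κ hκ0
  have hz := PHI_zero (Q : ℝ) τ hQr hτ
  rw [← hκ] at hz
  have h0 : Real.log Q - Real.binEntropy τ - τ * Real.log (Q - 1) - ε <
      (fun η : ℝ => (1 - κ - η) * log Q + (κ + η / 2) * binEntropy (τ / (κ + η / 2))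
      - binEntropy τ) 0 := by
    simp only [sub_zero, zero_div, add_zero]
    linarith
  have h1 : ∀ᶠ η : ℝ in 𝓝 0, Real.log Q - Real.binEntropy τ - τ * Real.log (Q - 1) - ε <
      (1 - κ - η) * log Q + (κ + η / 2) * binEntropy (τ / (κ + η / 2)) - binEntropy τ :=
    hc.eventually_const_lt h0
  have h2 : ∀ᶠ η : ℝ in 𝓝[>] 0, Real.log Q - Real.binEntropy τ - τ * Real.log (Q - 1) - ε <
      (1 - κ - η) * log Q + (κ + η / 2) * binEntropy (τ / (κ + η / 2)) - binEntropy τ :=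
    h1.filter_mono nhdsWithin_le_nhds
  have h3 : ∀ᶠ η : ℝ in 𝓝[>] 0, η < min (1 / 4) (min (1 / 2 - τ) (1 - κ)) :=
    (eventually_lt_nhds (show (0 : ℝ) < min (1 / 4) (min (1 / 2 - τ) (1 - κ)) by
      simp only [lt_min_iff]; exact ⟨by norm_num, by linarith, by linarith⟩)).filter_mono
      nhdsWithin_le_nhds
  obtain ⟨η, ⟨h4, h5⟩, h6⟩ := ((h2.and h3).and (self_mem_nhdsWithin (s := Set.Ioi (0:ℝ)))).exists
  simp only [lt_min_iff] at h5
  exact ⟨η, κ, h6, h5.1, by linarith [h5.2.1], rfl, by linarith [h5.2.2], h4.le⟩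

end Pool.Agent.H517R2.RS
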