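import Pool.Agent.H517R2.RS.Defs2

set_option autoImplicit false

open Filter Topology

namespace Pool.Agent.H517R2.RS

theorem PHI2_entropy (w : ℝ) (hw : 1 < w) :
    Real.binEntropy ((w - 1) / w) = Real.log w - (w - 1) / w * Real.log (w - 1) := by
  have hw0 : w ≠ 0 := by linarith
  have hw1 : w - 1 ≠ 0 := by linarith
  have h1 : 1 - (w - 1) / w = 1 / w := by field_simp; ring
  unfold Real.binEntropy
  rw [h1, one_div, inv_inv, Real.log_inv, Real.log_div hw1 hw0]
  field_simp
  ring

theorem t_PHI2 : PHI2 := by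
  intro τ β w κ ε hτ hτ2 hβ hw hκ hβκ hε
  have hw1 : 1 < w := by nlinarith
  have hκ0 : 0 < κ := by rw [hκ]; exact div_pos (by nlinarith) (by linarith)
  have hκ1 : κ < 1 := by rw [hκ, div_lt_one (by linarith)]; nlinarith
  have hcont : ContinuousAt (fun η : ℝ => (1 - κ - η) * Real.log w +
      (κ + η / 2) * Real.binEntropy (τ / (κ + η / 2))) 0 := by
    apply ContinuousAt.add
    · fun_prop
    · apply ContinuousAt.mul
      · fun_prop
      · apply Real.binEntropy_continuous.continuousAt.comp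
        apply ContinuousAt.div
        · fun_prop
        · fun_prop
        · simpa using hκ0.ne'
  have hval : (1 - κ - 0) * Real.log w + (κ + 0 / 2) * Real.binEntropy (τ / (κ + 0 / 2))
      = Real.log w - τ * Real.log (w - 1) := by
    have h1 : τ / (κ + 0 / 2) = (w - 1) / w := by
      rw [hκ]
      have hw0 : w ≠ 0 := by linarith
      have hw1' : w - 1 ≠ 0 := by linarith
      field_simp
      ring
    rw [h1, PHI2_entropy w hw1]
    have h2 : κ * ((w - 1) / w) = τ := by
      rw [hκ]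
      have hw0 : w ≠ 0 := by linarith
      have hw1' : w - 1 ≠ 0 := by linarith
      field_simp
    linear_combination (-Real.log (w - 1)) * h2
  have e1 : ∀ᶠ η in 𝓝 (0 : ℝ), Real.log w - τ * Real.log (w - 1) - ε <
      (1 - κ - η) * Real.log w + (κ + η / 2) * Real.binEntropy (τ / (κ + η / 2)) := by
    have h3 : Real.log w - τ * Real.log (w - 1) - ε <
        (fun η : ℝ => (1 - κ - η) * Real.log w +
      (κ + η / 2) * Real.binEntropy (τ / (κ + η / 2))) 0 := by
      show _ < (1 - κ - 0) * Real.log w + (κ + 0 / 2) * Real.binEntropy (τ / (κ + 0 / 2))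
      rw [hval]; linarith
    exact hcont.eventually (lt_mem_nhds h3)
  have e2 : ∀ᶠ η in 𝓝 (0 : ℝ), η < 1 / 4 := gt_mem_nhds (by norm_num)
  have e3 : ∀ᶠ η in 𝓝 (0 : ℝ), η < 1 - κ := gt_mem_nhds (by linarith)
  have e4 : ∀ᶠ η in 𝓝 (0 : ℝ), η < 1 - 2 * τ - β * (1 - κ) := gt_mem_nhds (by linarith)
  have e5 := ((e1.and (e2.and (e3.and e4))).filter_mono nhdsWithin_le_nhds :
    ∀ᶠ η in 𝓝[>] (0 : ℝ), _)
  obtain ⟨η, ⟨h1, h2, h3, h4⟩, h5⟩ := (e5.and self_mem_nhdsWithin).exists
  have h5' : 0 < η := h5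
  exact ⟨η, h5', h2, by linarith, by linarith, by linarith⟩

end Pool.Agent.H517R2.RS
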