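import Pool.Agent.H517R2.RS.Defs

/-!
# Tasks RAT and IDE (helper201)
-/

namespace Pool.Agent.H517R2.RS

open Finset

theorem t_RAT : RAT := by
  intro g t d r hdt hr h
  have hcast : ∀ i ∈ range d, (((g - i : ℕ) : ℝ)) ≤ r * (((g - t - i : ℕ) : ℝ)) := by
    intro i hi
    rw [mem_range] at hi
    rw [Nat.cast_sub (by omega), Nat.cast_sub (by omega), Nat.cast_sub (by omega)]
    have hid : (i : ℝ) ≤ d := by exact_mod_cast hi.le
    nlinarith
  have hprod : ((g.descFactorial d : ℕ) : ℝ) ≤ r ^ d * (((g - t).descFactorial d : ℕ) : ℝ) := by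
    rw [Nat.descFactorial_eq_prod_range, Nat.descFactorial_eq_prod_range, Nat.cast_prod,
      Nat.cast_prod]
    calc ∏ i ∈ range d, (((g - i : ℕ) : ℝ)) ≤ ∏ i ∈ range d, (r * (((g - t - i : ℕ) : ℝ))) :=
          prod_le_prod (fun i _ => Nat.cast_nonneg _) hcast
      _ = r ^ d * ∏ i ∈ range d, (((g - t - i : ℕ) : ℝ)) := by
          rw [prod_mul_distrib, prod_const, card_range]
  rw [Nat.descFactorial_eq_factorial_mul_choose, Nat.descFactorial_eq_factorial_mul_choose] at hprod
  push_cast at hprod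
  have hf : (0 : ℝ) < (d.factorial : ℝ) := by exact_mod_cast d.factorial_pos
  have h2 : (d.factorial : ℝ) * (g.choose d : ℝ) ≤
      (d.factorial : ℝ) * (r ^ d * ((g - t).choose d : ℝ)) := by
    calc (d.factorial : ℝ) * (g.choose d : ℝ)
        ≤ r ^ d * ((d.factorial : ℝ) * ((g - t).choose d : ℝ)) := hprod
      _ = (d.factorial : ℝ) * (r ^ d * ((g - t).choose d : ℝ)) := by ring
  exact le_of_mul_le_mul_left h2 hf

theorem t_IDE : IDE := by
  intro g t m h
  have h1 := Nat.choose_mul (n := g) (k := m + t) (s := t) (Nat.le_add_left _ _)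
  have h2 := Nat.choose_mul (n := g) (k := m + t) (s := m) (Nat.le_add_right _ _)
  rw [Nat.add_sub_cancel] at h1
  rw [Nat.add_sub_cancel_left, Nat.choose_symm_add, h1] at h2
  rw [mul_comm, h2, mul_comm]

end Pool.Agent.H517R2.RS
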