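import Pool.Agent.H517R2.RS.Defs2

/-!
# RATE2: the final rate
-/

namespace Pool.Agent.H517R2.RS

open Finset
open Pool.Agent.H517R2.LE (Corrects)

private theorem RATE2_Wn_pos (Q d b : ℕ) (hQ : 1 ≤ Q) : 0 < Wn Q d b := by
  unfold Wn
  refine Finset.sum_pos' (fun _ _ => Nat.zero_le _) ⟨0, by simp, ?_⟩
  simp only [Nat.choose_zero_right, Nat.sub_zero, one_mul]
  exact pow_pos hQ _

theorem t_RATE2 (h1 : FAMA) (h2 : COMB2) (h3 : IDE) (h4 : PHI2) (h5 : NC2) (h6 : NL2) :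
    RATE2 := by
  intro Q τ β κ w ε hQ hτ0 hτ1 hβ0 hβ1 hw hw1 hκ hβκ hε
  obtain ⟨η, hη0, hη1, hκη, hbud, hphi⟩ :=
    h4 τ β w κ (ε / 2) hτ0 hτ1 hβ0 hw1 hκ hβκ (by linarith)
  have hβ' : 0 ≤ β * (1 - κ) := mul_nonneg hβ0 (by linarith)
  obtain ⟨ρ, hρ, hfam⟩ := h1 τ (β * (1 - κ)) (η / 2) hτ0 hβ' (by linarith) (by linarith)
  obtain ⟨L, δ, hL, hδ, hLδ, n2, hnc⟩ :=
    h5 Q τ β w η κ ρ hQ hτ0 hτ1 hβ0 hβ1 hw hw1 hη0 hη1 hκ hκη hρ
  obtain ⟨B, n1, hfam⟩ := hfam (Q + 2)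
  obtain ⟨n3, hnl⟩ := h6 Q L τ β w η κ δ (ε / 2) hQ hτ0 hτ1 hβ0 hβ1 hw hw1 hη0 hκ hκη hδ hLδ
    (by linarith)
  refine ⟨max n1 (max n2 (max n3 1)), fun n hn => ?_⟩
  have hn1 : n1 ≤ n := (le_max_left _ _).trans hn
  have hn' : max n2 (max n3 1) ≤ n := (le_max_right _ _).trans hn
  have hn2 : n2 ≤ n := (le_max_left _ _).trans hn'
  have hn'' : max n3 1 ≤ n := (le_max_right _ _).trans hn'
  have hn3 : n3 ≤ n := (le_max_left _ _).trans hn''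
  have hn4 : 1 ≤ n := (le_max_right _ _).trans hn''
  have hnR : (0 : ℝ) < n := by
    have : 0 < n := by omega
    exact_mod_cast this
  have htn : ((⌊τ * n⌋₊ : ℕ) : ℝ) ≤ τ * n := Nat.floor_le (by positivity)
  have hdn : ((⌊δ * n⌋₊ : ℕ) : ℝ) ≤ δ * n := Nat.floor_le (by positivity)
  obtain ⟨hd1, hsum, hc1, hc2⟩ := hnc n hn2
  have hnl' := hnl n hn3
  have hbn : (((L + 1) * ⌊β * ⌊δ * n⌋₊⌋₊ : ℕ) : ℝ) ≤ β * (1 - κ) * n := by
    have hb : ((⌊β * ⌊δ * n⌋₊⌋₊ : ℕ) : ℝ) ≤ β * ⌊δ * n⌋₊ := Nat.floor_le (by positivity)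
    have hb2 : ((⌊β * ⌊δ * n⌋₊⌋₊ : ℕ) : ℝ) ≤ β * (δ * n) :=
      hb.trans (mul_le_mul_of_nonneg_left hdn hβ0)
    push_cast
    calc ((L : ℝ) + 1) * (⌊β * ⌊δ * n⌋₊⌋₊ : ℝ) ≤ ((L : ℝ) + 1) * (β * (δ * n)) := by
          apply mul_le_mul_of_nonneg_left hb2
          positivity
      _ = β * (((L : ℝ) + 1) * δ) * n := by ring
      _ = β * (1 - κ - η) * n := by rw [hLδ]
      _ ≤ β * (1 - κ) * n := by
          apply mul_le_mul_of_nonneg_right _ hnR.le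
          apply mul_le_mul_of_nonneg_left _ hβ0
          linarith
  have hda : ⌊δ * n⌋₊ + ⌊η / 2 * n⌋₊ + ⌊τ * n⌋₊ ≤ n := by
    have : ⌊δ * n⌋₊ ≤ (L + 1) * ⌊δ * n⌋₊ := Nat.le_mul_of_pos_left _ (by omega)
    omega
  obtain ⟨N, A, D, hF⟩ := hfam n ⌊τ * n⌋₊ ((L + 1) * ⌊β * ⌊δ * n⌋₊⌋₊) ⌊δ * n⌋₊ hn1 htn hbn hda hc1
  obtain ⟨T, f, hf, hT⟩ := h2 n ⌊τ * n⌋₊ ⌊η / 2 * n⌋₊ ⌊β * ⌊δ * n⌋₊⌋₊ B N Q ⌊δ * n⌋₊ L A D hF hQ
    hn4 hd1 hL (by omega) hc2
  have hW := RATE2_Wn_pos Q ⌊δ * n⌋₊ ⌊β * ⌊δ * n⌋₊⌋₊ hQ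
  generalize Wn Q ⌊δ * (n : ℝ)⌋₊ ⌊β * ⌊δ * (n : ℝ)⌋₊⌋₊ = W at *
  generalize ⌊τ * (n : ℝ)⌋₊ = t at *
  generalize ⌊η / 2 * (n : ℝ)⌋₊ = a at *
  generalize ⌊δ * (n : ℝ)⌋₊ = d at *
  have hLd : (L + 1) * d = L * d + d := by ring
  set m := L * d with hm
  set G := n - a - d with hG
  have hmG : m + t ≤ G := by omega
  have hGm : n - a - (L + 1) * d = G - m := by omega
  have hT' : W ^ (L + 1) * (G - t).choose m ≤ T * (4 * n) ^ L * G.choose m := hT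
  have hch1 : 0 < (G - t).choose m := Nat.choose_pos (by omega)
  have hch2 : 0 < G.choose m := Nat.choose_pos (by omega)
  have hch3 : 0 < (G - m).choose t := Nat.choose_pos (by omega)
  have hch4 : 0 < G.choose t := Nat.choose_pos (by omega)
  have hQ0 : 0 < W ^ (L + 1) := pow_pos hW _
  have hT1 : 1 ≤ T := by
    by_contra h
    have h0 : T = 0 := by omega
    rw [h0, zero_mul, zero_mul] at hT'
    have := Nat.mul_pos hQ0 hch1
    omega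
  have hide := h3 G t m hmG
  have hmain : W ^ (L + 1) * (G - m).choose t ≤ T * (4 * n) ^ L * G.choose t := by
    have h8 : W ^ (L + 1) * (G - m).choose t * G.choose m ≤
        T * (4 * n) ^ L * G.choose t * G.choose m := by
      calc W ^ (L + 1) * (G - m).choose t * G.choose m =
          W ^ (L + 1) * (G - t).choose m * G.choose t := by
            rw [mul_assoc, ← hide, ← mul_assoc]
        _ ≤ T * (4 * n) ^ L * G.choose m * G.choose t := Nat.mul_le_mul_right _ hT'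
        _ = _ := by ring
    exact Nat.le_of_mul_le_mul_right h8 hch2
  have hmainR : ((W : ℝ) ^ (L + 1)) * ((G - m).choose t : ℝ) ≤
      (T : ℝ) * (4 * (n : ℝ)) ^ L * (G.choose t : ℝ) := by
    exact_mod_cast hmain
  have hWR : (0 : ℝ) < W := by exact_mod_cast hW
  have hTR : (0 : ℝ) < T := by
    have : 0 < T := by omega
    exact_mod_cast this
  have hc3R : (0 : ℝ) < ((G - m).choose t : ℝ) := by exact_mod_cast hch3
  have hc4R : (0 : ℝ) < (G.choose t : ℝ) := by exact_mod_cast hch4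
  have hlog := Real.log_le_log (by positivity) hmainR
  rw [Real.log_mul (by positivity) (by positivity), Real.log_pow,
    Real.log_mul (by positivity) (by positivity), Real.log_mul (by positivity) (by positivity),
    Real.log_pow] at hlog
  refine ⟨T, f, hT1, hf, ?_⟩
  rw [hGm] at hnl'
  have h9 : (n : ℝ) * (Real.log w - Real.binEntropy τ - τ * Real.log (w - 1) - ε) ≤
      n * ((1 - κ - η) * Real.log w + (κ + η / 2) * Real.binEntropy (τ / (κ + η / 2)) -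
          Real.binEntropy τ - ε / 2) := by
    refine mul_le_mul_of_nonneg_left ?_ hnR.le
    linarith
  have h10 : ((L + 1 : ℕ) : ℝ) * Real.log W = ((L : ℝ) + 1) * Real.log W := by push_cast; ring
  rw [h10] at hlog
  linarith

end Pool.Agent.H517R2.RS
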