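import Pool.Agent.H517R2.RS.Defs

/-!
# RATEB: the final rate
-/

namespace Pool.Agent.H517R2.RS

open Finset
open Pool.Agent.H517R2.LE (Corrects)

theorem t_RATEB (h1 : ANCA) (h2 : COMB) (_h3 : RAT) (h4 : IDE) (h5 : PHI) (h6 : NC) (h7 : NL) :
    RATEB := by
  intro Q τ ε hQ hτ0 hτ1 hε
  obtain ⟨η, κ, hη0, hη1, hη2, hκ, hκη, hphi⟩ := h5 Q τ (ε / 2) hQ hτ0 hτ1 (by linarith)
  obtain ⟨ρ, hρ, n1, hanc⟩ := h1 τ hτ0 (η / 2) (by linarith) (by linarith)
  obtain ⟨L, δ, hL, hδ, hLδ, n2, hnc⟩ := h6 Q τ η κ ρ hQ hτ0 hτ1 hη0 hη1 hκ hκη hρ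
  obtain ⟨n3, hnl⟩ := h7 Q L τ η κ δ (ε / 2) hQ hτ0 hτ1 hη0 hκ hκη hδ hLδ (by linarith)
  refine ⟨max n1 (max n2 (max n3 1)), fun n hn => ?_⟩
  have hn1 : n1 ≤ n := (le_max_left _ _).trans hn
  have hn' : max n2 (max n3 1) ≤ n := (le_max_right _ _).trans hn
  have hn2 : n2 ≤ n := (le_max_left _ _).trans hn'
  have hn'' : max n3 1 ≤ n := (le_max_right _ _).trans hn'
  have hn3 : n3 ≤ n := (le_max_left _ _).trans hn''
  have hn4 : 1 ≤ n := (le_max_right _ _).trans hn''
  have hnR : (0 : ℝ) < n := by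
    have : 0 < n := by omega
    exact_mod_cast this
  have htn : ((⌊τ * n⌋₊ : ℕ) : ℝ) ≤ τ * n := Nat.floor_le (by positivity)
  obtain ⟨a, K, ha, hK, s, hs⟩ := hanc n ⌊τ * n⌋₊ hn1 htn
  obtain ⟨hd1, hsum, hc1, hc2⟩ := hnc n hn2 a K ha hK
  have hnl' := hnl n hn3 a ha hsum
  obtain ⟨T, f, hf, hT⟩ := h2 n ⌊τ * n⌋₊ a K Q ⌊δ * n⌋₊ L s hs (by omega) hn4 hd1 hL hsum hc1 hc2
  generalize ⌊τ * (n : ℝ)⌋₊ = t at *
  generalize ⌊δ * (n : ℝ)⌋₊ = d at *
  have hLd : (L + 1) * d = L * d + d := by ring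
  set m := L * d with hm
  set G := n - a - d with hG
  have hmG : m + t ≤ G := by omega
  have hGm : n - a - (L + 1) * d = G - m := by omega
  have hT' : Q ^ ((L + 1) * d) * (G - t).choose m ≤ T * (4 * n) ^ L * G.choose m := hT
  have hch1 : 0 < (G - t).choose m := Nat.choose_pos (by omega)
  have hch2 : 0 < G.choose m := Nat.choose_pos (by omega)
  have hch3 : 0 < (G - m).choose t := Nat.choose_pos (by omega)
  have hch4 : 0 < G.choose t := Nat.choose_pos (by omega)
  have hQ0 : 0 < Q ^ ((L + 1) * d) := pow_pos (by omega) _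
  have hT1 : 1 ≤ T := by
    by_contra h
    have h0 : T = 0 := by omega
    rw [h0, zero_mul, zero_mul] at hT'
    have := Nat.mul_pos hQ0 hch1
    omega
  have hide := h4 G t m hmG
  have hmain : Q ^ ((L + 1) * d) * (G - m).choose t ≤ T * (4 * n) ^ L * G.choose t := by
    have h8 : Q ^ ((L + 1) * d) * (G - m).choose t * G.choose m ≤
        T * (4 * n) ^ L * G.choose t * G.choose m := by
      calc Q ^ ((L + 1) * d) * (G - m).choose t * G.choose m =
          Q ^ ((L + 1) * d) * (G - t).choose m * G.choose t := by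
            rw [mul_assoc, ← hide, ← mul_assoc]
        _ ≤ T * (4 * n) ^ L * G.choose m * G.choose t := Nat.mul_le_mul_right _ hT'
        _ = _ := by ring
    exact Nat.le_of_mul_le_mul_right h8 hch2
  have hmainR : ((Q : ℝ) ^ ((L + 1) * d)) * ((G - m).choose t : ℝ) ≤
      (T : ℝ) * (4 * (n : ℝ)) ^ L * (G.choose t : ℝ) := by
    exact_mod_cast hmain
  have hQR : (0 : ℝ) < Q := by
    have : 0 < Q := by omega
    exact_mod_cast this
  have hTR : (0 : ℝ) < T := by
    have : 0 < T := by omega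
    exact_mod_cast this
  have hc3R : (0 : ℝ) < ((G - m).choose t : ℝ) := by exact_mod_cast hch3
  have hc4R : (0 : ℝ) < (G.choose t : ℝ) := by exact_mod_cast hch4
  have hlog := Real.log_le_log (by positivity) hmainR
  rw [Real.log_mul (by positivity) (by positivity), Real.log_pow,
    Real.log_mul (by positivity) (by positivity), Real.log_mul (by positivity) (by positivity),
    Real.log_pow] at hlog
  refine ⟨T, f, hT1, hf, ?_⟩
  rw [hGm] at hnl'
  have h9 : (n : ℝ) * (Real.log Q - Real.binEntropy τ - τ * Real.log (Q - 1) - ε) ≤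
      n * ((1 - κ - η) * Real.log Q + (κ + η / 2) * Real.binEntropy (τ / (κ + η / 2)) -
          Real.binEntropy τ - ε / 2) := by
    refine mul_le_mul_of_nonneg_left ?_ hnR.le
    linarith
  have h10 : Real.log ((4 : ℝ) * n) = Real.log (4 * n) := rfl
  linarith

end Pool.Agent.H517R2.RS
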