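import Pool.Agent.H517R2.RS.Defs

/-! RND: random functions, union bound (helper509). -/

set_option autoImplicit false

namespace Pool.Agent.H517R2.RS

open Finset

theorem t_RND (h1 : RND1) (h2 : RND2) : RND := by
  intro X ι A P _ _ _ _ _ _ _ S s B I H N h hS hI hH hn1 hn2
  classical
  have hc : 0 < Fintype.card X := Fintype.card_pos
  set c := Fintype.card X with hcdef
  set T := c ^ Fintype.card ι with hT
  have hT0 : 0 < T := pow_pos hc _
  have hcardT : (univ : Finset (ι → X)).card = T := by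
    rw [Finset.card_univ, Fintype.card_fun]
  set b1 : A → Finset (ι → X) := fun F => (univ : Finset (ι → X)).filter
    (fun f => B + 1 ≤ ((univ : Finset ι).filter (fun i => f i ∈ S F)).card) with hb1
  set b2 : P → Finset (ι → X) := fun p => (univ : Finset (ι → X)).filter
    (fun f => ∀ i ∈ I p, f i ∉ H p) with hb2
  -- the first kind
  have e1 : ∀ F, (b1 F).card * c ^ (B + 1) ≤ (Fintype.card ι * s) ^ (B + 1) * T := by
    intro F
    refine (h1 X ι (S F) B).trans ?_
    exact Nat.mul_le_mul_right _ (Nat.pow_le_pow_left (Nat.mul_le_mul_left _ (hS F)) _)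
  have e2 : 2 * ∑ F, (b1 F).card < T := by
    have h3 : (∑ F, (b1 F).card) * c ^ (B + 1) ≤
        Fintype.card A * ((Fintype.card ι * s) ^ (B + 1) * T) := by
      rw [Finset.sum_mul]
      refine (Finset.sum_le_sum (fun F _ => e1 F)).trans ?_
      rw [Finset.sum_const, Finset.card_univ, smul_eq_mul]
    have h4 : (2 * ∑ F, (b1 F).card) * c ^ (B + 1) < T * c ^ (B + 1) := by
      calc (2 * ∑ F, (b1 F).card) * c ^ (B + 1) = 2 * ((∑ F, (b1 F).card) * c ^ (B + 1)) := by ring
        _ ≤ 2 * (Fintype.card A * ((Fintype.card ι * s) ^ (B + 1) * T)) :=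
          Nat.mul_le_mul_left _ h3
        _ = (2 * (Fintype.card A * (Fintype.card ι * s) ^ (B + 1))) * T := by ring
        _ < c ^ (B + 1) * T := Nat.mul_lt_mul_of_pos_right hn1 hT0
        _ = T * c ^ (B + 1) := by ring
    exact lt_of_mul_lt_mul_right h4 (Nat.zero_le _)
  -- the second kind
  have e3 : ∀ p, (b2 p).card * c ^ N ≤ (c - h) ^ N * T := by
    intro p
    obtain ⟨m, hm⟩ := Nat.exists_eq_add_of_le (hI p)
    have h3 := h2 X ι (H p) (I p)
    rw [hm, pow_add, pow_add] at h3
    have h4 : c - (H p).card ≤ c - h := Nat.sub_le_sub_left (hH p) _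
    have h5 : c - (H p).card ≤ c := Nat.sub_le _ _
    have h6 : (b2 p).card * c ^ N * c ^ m ≤ (c - h) ^ N * T * c ^ m := by
      calc (b2 p).card * c ^ N * c ^ m = (b2 p).card * (c ^ N * c ^ m) := by ring
        _ = (c - (H p).card) ^ N * (c - (H p).card) ^ m * T := h3
        _ ≤ (c - h) ^ N * c ^ m * T := by
          refine Nat.mul_le_mul_right _ (Nat.mul_le_mul ?_ ?_)
          · exact Nat.pow_le_pow_left h4 _
          · exact Nat.pow_le_pow_left h5 _
        _ = (c - h) ^ N * T * c ^ m := by ring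
    exact Nat.le_of_mul_le_mul_right h6 (pow_pos hc _)
  have e4 : 2 * ∑ p, (b2 p).card < T := by
    have h3 : (∑ p, (b2 p).card) * c ^ N ≤ Fintype.card P * ((c - h) ^ N * T) := by
      rw [Finset.sum_mul]
      refine (Finset.sum_le_sum (fun p _ => e3 p)).trans ?_
      rw [Finset.sum_const, Finset.card_univ, smul_eq_mul]
    have h4 : (2 * ∑ p, (b2 p).card) * c ^ N < T * c ^ N := by
      calc (2 * ∑ p, (b2 p).card) * c ^ N = 2 * ((∑ p, (b2 p).card) * c ^ N) := by ring
        _ ≤ 2 * (Fintype.card P * ((c - h) ^ N * T)) := Nat.mul_le_mul_left _ h3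
        _ = (2 * (Fintype.card P * (c - h) ^ N)) * T := by ring
        _ < c ^ N * T := Nat.mul_lt_mul_of_pos_right hn2 hT0
        _ = T * c ^ N := by ring
    exact lt_of_mul_lt_mul_right h4 (Nat.zero_le _)
  -- a function outside
  by_contra hcon
  push Not at hcon
  have hcov : (univ : Finset (ι → X)) ⊆ (univ.biUnion b1) ∪ (univ.biUnion b2) := by
    intro f _
    rw [Finset.mem_union, Finset.mem_biUnion, Finset.mem_biUnion]
    by_cases hf : ∀ F, ((univ : Finset ι).filter (fun i => f i ∈ S F)).card ≤ B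
    · obtain ⟨p, hp⟩ := hcon f hf
      right
      refine ⟨p, mem_univ _, ?_⟩
      rw [hb2, Finset.mem_filter]
      exact ⟨mem_univ _, hp⟩
    · push Not at hf
      obtain ⟨F, hF⟩ := hf
      left
      refine ⟨F, mem_univ _, ?_⟩
      rw [hb1, Finset.mem_filter]
      exact ⟨mem_univ _, hF⟩
  have h3 := Finset.card_le_card hcov
  have h4 := Finset.card_union_le (univ.biUnion b1) (univ.biUnion b2)
  have h5 : (univ.biUnion b1).card ≤ ∑ F, (b1 F).card := Finset.card_biUnion_le
  have h6 : (univ.biUnion b2).card ≤ ∑ p, (b2 p).card := Finset.card_biUnion_le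
  rw [hcardT] at h3
  omega

end Pool.Agent.H517R2.RS
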