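import Pool.Agent.H517R2.RS.Defs

namespace Pool.Agent.H517R2.RS

open Finset

private theorem rnd1_card {X ι : Type} [Fintype X] [DecidableEq X] [Fintype ι] [DecidableEq ι]
    (S : Finset X) (B : ℕ) (T : Finset ι) (hT : T.card = B + 1) :
    (Fintype.piFinset (fun i : ι => if i ∈ T then S else (univ : Finset X))).card *
      Fintype.card X ^ (B + 1) = S.card ^ (B + 1) * Fintype.card X ^ Fintype.card ι := by
  have h1 : (Fintype.piFinset (fun i : ι => if i ∈ T then S else (univ : Finset X))).card =
      S.card ^ (B + 1) * Fintype.card X ^ (Fintype.card ι - (B + 1)) := by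
    rw [Fintype.card_piFinset]
    have h2 : ∀ i : ι, (if i ∈ T then S else (univ : Finset X)).card =
        if i ∈ T then S.card else Fintype.card X := by
      intro i
      split_ifs
      · rfl
      · exact Finset.card_univ
    rw [Finset.prod_congr rfl (fun i _ => h2 i), Finset.prod_ite, Finset.prod_const,
      Finset.prod_const]
    have h3 : (univ.filter (fun i : ι => i ∈ T)).card = B + 1 := by
      rw [Finset.filter_mem_eq_inter, Finset.univ_inter, hT]
    have h4 : (univ.filter (fun i : ι => i ∉ T)).card = Fintype.card ι - (B + 1) := by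
      have h5 := Finset.card_filter_add_card_filter_not (s := (univ : Finset ι)) (fun i => i ∈ T)
      rw [h3, Finset.card_univ] at h5
      omega
    rw [h3, h4]
  have h6 : B + 1 ≤ Fintype.card ι := by
    rw [← hT]
    exact Finset.card_le_univ T
  rw [h1, mul_assoc, ← pow_add, Nat.sub_add_cancel h6]

theorem t_RND1 : RND1 := by
  intro X ι _ _ _ _ S B
  have hsub : (univ : Finset (ι → X)).filter
      (fun f => B + 1 ≤ ((univ : Finset ι).filter (fun i => f i ∈ S)).card) ⊆
      ((univ : Finset ι).powersetCard (B + 1)).biUnion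
        (fun T => Fintype.piFinset (fun i : ι => if i ∈ T then S else (univ : Finset X))) := by
    intro f hf
    obtain ⟨_, hf⟩ := mem_filter.1 hf
    obtain ⟨T, hT1, hT2⟩ := Finset.exists_subset_card_eq hf
    refine mem_biUnion.2 ⟨T, mem_powersetCard.2 ⟨subset_univ _, hT2⟩, ?_⟩
    rw [Fintype.mem_piFinset]
    intro i
    split_ifs with hi
    · exact (mem_filter.1 (hT1 hi)).2
    · exact mem_univ _
  calc ((univ : Finset (ι → X)).filter
        (fun f => B + 1 ≤ ((univ : Finset ι).filter (fun i => f i ∈ S)).card)).card *
        Fintype.card X ^ (B + 1)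
      ≤ (((univ : Finset ι).powersetCard (B + 1)).biUnion
        (fun T => Fintype.piFinset (fun i : ι => if i ∈ T then S else (univ : Finset X)))).card *
        Fintype.card X ^ (B + 1) := Nat.mul_le_mul_right _ (Finset.card_le_card hsub)
    _ ≤ (∑ T ∈ (univ : Finset ι).powersetCard (B + 1),
        (Fintype.piFinset (fun i : ι => if i ∈ T then S else (univ : Finset X))).card) *
        Fintype.card X ^ (B + 1) := Nat.mul_le_mul_right _ Finset.card_biUnion_le
    _ = ∑ T ∈ (univ : Finset ι).powersetCard (B + 1),
        S.card ^ (B + 1) * Fintype.card X ^ Fintype.card ι := by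
        rw [Finset.sum_mul]
        exact Finset.sum_congr rfl (fun T hT => rnd1_card S B T (mem_powersetCard.1 hT).2)
    _ = (Fintype.card ι).choose (B + 1) * (S.card ^ (B + 1) * Fintype.card X ^ Fintype.card ι) := by
        rw [Finset.sum_const, Finset.card_powersetCard, Finset.card_univ, smul_eq_mul]
    _ ≤ Fintype.card ι ^ (B + 1) * (S.card ^ (B + 1) * Fintype.card X ^ Fintype.card ι) :=
        Nat.mul_le_mul_right _ (Nat.choose_le_pow _ _)
    _ = (Fintype.card ι * S.card) ^ (B + 1) * Fintype.card X ^ Fintype.card ι := by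
        rw [mul_pow, mul_assoc]

end Pool.Agent.H517R2.RS
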