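import Pool.Agent.H517R2.RS.Defs

/-! RND2: the number of functions missing `H` on `I`. -/

namespace Pool.Agent.H517R2.RS

open Finset

theorem t_RND2 : RND2 := by
  intro X ι _ _ _ _ H I
  have h1 : ((univ : Finset (ι → X)).filter (fun f => ∀ i ∈ I, f i ∉ H)) =
      Fintype.piFinset (fun i => if i ∈ I then Hᶜ else univ) := by
    ext f
    simp only [mem_filter, mem_univ, true_and, Fintype.mem_piFinset]
    constructor
    · intro h i
      by_cases hi : i ∈ I
      · rw [if_pos hi, mem_compl]; exact h i hi
      · rw [if_neg hi]; exact mem_univ _
    · intro h i hi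
      have := h i
      rw [if_pos hi, mem_compl] at this
      exact this
  have h2 : ((univ : Finset (ι → X)).filter (fun f => ∀ i ∈ I, f i ∉ H)).card =
      (Fintype.card X - H.card) ^ I.card * Fintype.card X ^ (Fintype.card ι - I.card) := by
    rw [h1, Fintype.card_piFinset]
    have h3 : ∀ i, (if i ∈ I then Hᶜ else (univ : Finset X)).card =
        if i ∈ I then Fintype.card X - H.card else Fintype.card X := by
      intro i
      by_cases hi : i ∈ I
      · rw [if_pos hi, if_pos hi, card_compl]
      · rw [if_neg hi, if_neg hi, card_univ]
    rw [prod_congr rfl (fun i _ => h3 i), prod_ite, prod_const, prod_const]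
    congr 2
    · congr 1
      ext i; simp
    · rw [← card_compl]
      congr 1
      ext i; simp
  rw [h2, mul_assoc, ← pow_add, Nat.sub_add_cancel (card_le_univ I)]

end Pool.Agent.H517R2.RS
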