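import Pool.Agent.H517R2.RS.Defs

namespace Pool.Agent.H517R2.RS

open Finset
open Pool.Agent.H517R2.LE (Corrects)

theorem t_STEP (h : COV) : STEP := by
  intro n t Q d g J M J' M' hQ hdt hg hJ hstg hM G hG
  obtain ⟨D, hD, hDc⟩ := h n t g d J hdt hg hJ G hG
  have hcard : ∀ i, (G \ D i).card = g - d := by
    intro i
    rw [Finset.card_sdiff_of_subset (hD i).1, hG, (hD i).2]
  choose D' hD'1 hD'2 x' hx' using fun i => hstg (G \ D i) (hcard i)
  have hemb : ∀ i, Nonempty ((Fin M × Fin J') ↪ (↥(D i) → Fin Q)) := by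
    intro i
    apply Function.Embedding.nonempty_of_card_le
    simp only [Fintype.card_prod, Fintype.card_fin, Fintype.card_fun, Fintype.card_coe, (hD i).2]
    exact hM
  set psi : ∀ i, (Fin M × Fin J') ↪ (↥(D i) → Fin Q) := fun i => (hemb i).some with hpsi
  set ip : ∀ (i : Fin J) (E : Finset (Fin n)), E.card ≤ t → Fin J' :=
    fun i E hE => (hD'2 i E hE).choose with hip
  have hip' : ∀ i E (hE : E.card ≤ t), Disjoint (D' i (ip i E hE)) E :=
    fun i E hE => (hD'2 i E hE).choose_spec
  refine ⟨D, hD, hDc, fun m E i p =>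
    if hE : E.card ≤ t then
      (if hp : p ∈ D i then psi i ((finProdFinEquiv.symm m).1, ip i E hE) ⟨p, hp⟩
        else x' i (finProdFinEquiv.symm m).2 E (ip i E hE) p)
    else ⟨0, hQ⟩, ?_⟩
  intro i m m' E E' hE hE' hd hd' hag
  have h1 : ((finProdFinEquiv.symm m).1, ip i E hE) = ((finProdFinEquiv.symm m').1, ip i E' hE') := by
    apply (psi i).injective
    funext ⟨p, hp⟩
    have hpE : p ∉ E := fun hc => (Finset.disjoint_left.1 hd hp) hc
    have hpE' : p ∉ E' := fun hc => (Finset.disjoint_left.1 hd' hp) hc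
    have := hag p ((hD i).1 hp) hpE hpE'
    simp only [hE, hE', hp, dif_pos] at this
    exact this
  rw [Prod.mk.injEq] at h1
  have h2 : (finProdFinEquiv.symm m).2 = (finProdFinEquiv.symm m').2 := by
    apply hx' i (ip i E hE) _ _ E E' hE hE' (hip' i E hE) (by rw [h1.2]; exact hip' i E' hE')
    intro p hp hpE hpE'
    rw [Finset.mem_sdiff] at hp
    have := hag p hp.1 hpE hpE'
    simp only [hE, hE', hp.2, dif_pos, dif_neg, not_false_eq_true] at this
    rw [this, h1.2]
  have h3 : finProdFinEquiv.symm m = finProdFinEquiv.symm m' := Prod.ext h1.1 h2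
  exact finProdFinEquiv.symm.injective h3

end Pool.Agent.H517R2.RS
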