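import Pool.Agent.H517R2.RS.Defs2

/-! Task STEP2: one more stage, words with few symbols `last`. -/

set_option autoImplicit false

namespace Pool.Agent.H517R2.RS

open Finset
open Pool.Agent.H517R2.LE (Corrects)

theorem t_STEP2 (h1 : COV) (h2 : WORDS) : STEP2 := by
  intro n t Q d b c g J M J' M' hQ hdt hg hJ hstg hM G hG
  obtain ⟨D, hD, hDc⟩ := h1 n t g d J hdt hg hJ G hG
  have hcard : ∀ i, (G \ D i).card = g - d := by
    intro i
    rw [Finset.card_sdiff_of_subset (hD i).1, hG, (hD i).2]
  choose D' hD'1 hD'2 x' hx'c hx' using fun i => hstg (G \ D i) (hcard i)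
  choose psi hpsi0 hpsib hpsi using fun i => h2 n Q d b (M * J') (D i) hQ (hD i).2 hM
  set ip : ∀ (i : Fin J) (E : Finset (Fin n)), E.card ≤ t → Fin J' :=
    fun i E hE => (hD'2 i E hE).choose with hip
  have hip' : ∀ i E (hE : E.card ≤ t), Disjoint (D' i (ip i E hE)) E :=
    fun i E hE => (hD'2 i E hE).choose_spec
  refine ⟨D, hD, hDc, fun m E i p =>
    if hE : E.card ≤ t then
      (if p ∈ D i then psi i (finProdFinEquiv ((finProdFinEquiv.symm m).1, ip i E hE)) p
        else x' i (finProdFinEquiv.symm m).2 E (ip i E hE) p)
    else 0, ?_, ?_⟩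
  · intro m E i
    by_cases hE : E.card ≤ t
    · simp only [hE, dif_pos]
      have hsub : (univ : Finset (Fin n)).filter (fun p =>
          (if p ∈ D i then psi i (finProdFinEquiv ((finProdFinEquiv.symm m).1, ip i E hE)) p
            else x' i (finProdFinEquiv.symm m).2 E (ip i E hE) p) = Fin.last Q) ⊆
          (univ : Finset (Fin n)).filter (fun p =>
            psi i (finProdFinEquiv ((finProdFinEquiv.symm m).1, ip i E hE)) p = Fin.last Q) ∪
          (univ : Finset (Fin n)).filter (fun p =>
            x' i (finProdFinEquiv.symm m).2 E (ip i E hE) p = Fin.last Q) := by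
        intro p hp
        rw [Finset.mem_filter] at hp
        rw [Finset.mem_union, Finset.mem_filter, Finset.mem_filter]
        by_cases hpD : p ∈ D i
        · left
          refine ⟨Finset.mem_univ _, ?_⟩
          have := hp.2
          rwa [if_pos hpD] at this
        · right
          refine ⟨Finset.mem_univ _, ?_⟩
          have := hp.2
          rwa [if_neg hpD] at this
      refine (Finset.card_le_card hsub).trans ((Finset.card_union_le _ _).trans ?_)
      exact Nat.add_le_add (hpsib i _) (hx'c i _ E _)
    · simp only [hE, dif_neg, not_false_eq_true]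
      rw [Finset.filter_false_of_mem]
      · simp
      · intro p _ h0
        have := congrArg Fin.val h0
        simp at this
        omega
  · intro i m m' E E' hE hE' hd hd' hag
    have h3 : finProdFinEquiv ((finProdFinEquiv.symm m).1, ip i E hE) =
        finProdFinEquiv ((finProdFinEquiv.symm m').1, ip i E' hE') := by
      apply hpsi i
      intro p hp
      have hpE : p ∉ E := fun hc => (Finset.disjoint_left.1 hd hp) hc
      have hpE' : p ∉ E' := fun hc => (Finset.disjoint_left.1 hd' hp) hc
      have := hag p ((hD i).1 hp) hpE hpE'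
      simp only [hE, hE', hp, dif_pos, if_true] at this
      exact this
    have h4 := finProdFinEquiv.injective h3
    rw [Prod.mk.injEq] at h4
    have h5 : (finProdFinEquiv.symm m).2 = (finProdFinEquiv.symm m').2 := by
      apply hx' i (ip i E hE) _ _ E E' hE hE' (hip' i E hE) (by rw [h4.2]; exact hip' i E' hE')
      intro p hp hpE hpE'
      rw [Finset.mem_sdiff] at hp
      have := hag p hp.1 hpE hpE'
      simp only [hE, hE', hp.2, dif_pos, if_false] at this
      rw [this, h4.2]
    have h6 : finProdFinEquiv.symm m = finProdFinEquiv.symm m' := Prod.ext h4.1 h5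
    exact finProdFinEquiv.symm.injective h6

end Pool.Agent.H517R2.RS
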