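import Pool.Agent.H517R2.RS.Defs

/-!
# Task TOP: anchors and the first stage
-/

namespace Pool.Agent.H517R2.RS

open Finset
open Pool.Agent.H517R2.LE (Corrects)

/-- an injection of pairs into the words on `D`, extended to all coordinates -/
private theorem top_psi (n M J' Q d : ℕ) (hQ : 1 ≤ Q) (D : Finset (Fin n)) (hD : D.card = d)
    (hM : M * J' ≤ Q ^ d) :
    ∃ psi : Fin M → Fin J' → Fin n → Fin Q, ∀ m i m' i',
      (∀ p ∈ D, psi m i p = psi m' i' p) → m = m' ∧ i = i' := by
  classical
  have hcard : Fintype.card (Fin M × Fin J') ≤ Fintype.card (D → Fin Q) := by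
    simp only [Fintype.card_prod, Fintype.card_fin, Fintype.card_fun, Fintype.card_coe, hD]
    exact hM
  obtain ⟨e⟩ := Function.Embedding.nonempty_of_card_le hcard
  refine ⟨fun m i p => if h : p ∈ D then e (m, i) ⟨p, h⟩ else ⟨0, hQ⟩, ?_⟩
  intro m i m' i' h
  have h2 : (m, i) = (m', i') := by
    apply e.injective
    funext p
    have h3 := h p.1 p.2
    simpa [p.2] using h3
  exact ⟨congrArg Prod.fst h2, congrArg Prod.snd h2⟩

theorem t_TOP (h : COV0) : TOP := by
  classical
  intro n t a K Q d J' M' M s hA hQ hn hd hc hS hMJ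
  obtain ⟨hA1, hA2⟩ := hA
  obtain ⟨D, hD1, hD2⟩ := h n t a K d hn hd hc s hA1
  have key : ∀ (k : Fin K) (S : Finset (Fin n)), ∃ (D' : Fin J' → Finset (Fin n))
      (x' : Fin M' → Finset (Fin n) → Fin J' → Fin n → Fin Q)
      (psi : Fin M → Fin J' → Fin n → Fin Q), S.card = a →
        (∀ E : Finset (Fin n), E.card ≤ t → ∃ i, Disjoint (D' i) E) ∧
        (∀ (i : Fin J') (m m' : Fin M') (E E' : Finset (Fin n)), E.card ≤ t → E'.card ≤ t →
          Disjoint (D' i) E → Disjoint (D' i) E' →
          (∀ p, p ∉ S → p ∉ D k S → p ∉ E → p ∉ E' → x' m E i p = x' m' E' i p) → m = m') ∧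
        (∀ m i m' i', (∀ p ∈ D k S, psi m i p = psi m' i' p) → m = m' ∧ i = i') := by
    intro k S
    by_cases hSa : S.card = a
    · obtain ⟨hD3, hD4⟩ := hD1 k S hSa
      have hG : ((univ : Finset (Fin n)) \ (D k S ∪ S)).card = n - a - d := by
        rw [card_sdiff_of_subset (subset_univ _), card_union_of_disjoint hD3, hD4, hSa, card_univ,
          Fintype.card_fin]
        omega
      obtain ⟨D', -, hD'2, x', hx'⟩ := hS _ hG
      obtain ⟨psi, hpsi⟩ := top_psi n M J' Q d hQ (D k S) hD4 hMJ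
      refine ⟨D', x', psi, fun _ => ⟨hD'2, ?_, hpsi⟩⟩
      intro i m m' E E' hE hE' h1 h2 h3
      apply hx' i m m' E E' hE hE' h1 h2
      intro p hp hpE hpE'
      simp only [mem_sdiff, mem_univ, true_and, mem_union, not_or] at hp
      exact h3 p hp.2 hp.1 hpE hpE'
    · exact ⟨fun _ => ∅, fun _ _ _ _ => ⟨0, hQ⟩, fun _ _ _ => ⟨0, hQ⟩, fun h => absurd h hSa⟩
  choose D' x' psi hkey using key
  choose kk hkk using hD2
  have hii : ∀ (E : Finset (Fin n)) (hE : E.card ≤ t),
      ∃ i, Disjoint (D' (kk E hE) (s E (kk E hE)) i) E := by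
    intro E hE
    exact (hkey _ _ (hA1 E _ hE).1).1 E hE
  choose ii hii using hii
  set f : Fin (M * M') → Finset (Fin n) → Fin n → Fin (Q + 1) := fun m E p =>
    if hE : E.card ≤ t then
      (if p ∈ s E (kk E hE) then Fin.last Q
       else if p ∈ D (kk E hE) (s E (kk E hE)) then
        (psi (kk E hE) (s E (kk E hE)) (finProdFinEquiv.symm m).1 (ii E hE) p).castSucc
       else (x' (kk E hE) (s E (kk E hE)) (finProdFinEquiv.symm m).2 E (ii E hE) p).castSucc)
    else 0 with hf
  refine ⟨f, ?_⟩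
  intro m m' hmm E E' hE hE' ⟨y, hy1, hy2⟩
  have hag : ∀ p, p ∉ E → p ∉ E' → f m E p = f m' E' p := by
    intro p h1 h2
    rw [← hy1 p h1, ← hy2 p h2]
  apply hmm
  have hkE := hkk E hE
  have hkE' := hkk E' hE'
  have hiE := hii E hE
  have hiE' := hii E' hE'
  have hSE := hA1 E (kk E hE) hE
  have hSE' := hA1 E' (kk E' hE') hE'
  have hf1 : ∀ p, f m E p = if p ∈ s E (kk E hE) then Fin.last Q
       else if p ∈ D (kk E hE) (s E (kk E hE)) then
        (psi (kk E hE) (s E (kk E hE)) (finProdFinEquiv.symm m).1 (ii E hE) p).castSucc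
       else (x' (kk E hE) (s E (kk E hE)) (finProdFinEquiv.symm m).2 E (ii E hE) p).castSucc := by
    intro p
    simp only [hf, dif_pos hE]
  have hf2 : ∀ p, f m' E' p = if p ∈ s E' (kk E' hE') then Fin.last Q
       else if p ∈ D (kk E' hE') (s E' (kk E' hE')) then
        (psi (kk E' hE') (s E' (kk E' hE')) (finProdFinEquiv.symm m').1 (ii E' hE') p).castSucc
       else (x' (kk E' hE') (s E' (kk E' hE')) (finProdFinEquiv.symm m').2 E'
        (ii E' hE') p).castSucc := by
    intro p
    simp only [hf, dif_pos hE']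
  simp only [hf1, hf2] at hag
  have hanch := hA2 E E' (kk E hE) (kk E' hE') hE hE'
  generalize kk E hE = k at *
  generalize kk E' hE' = k' at *
  generalize ii E hE = i at *
  generalize ii E' hE' = i' at *
  generalize hS1 : s E k = S at *
  generalize hS2 : s E' k' = S' at *
  have hs1 : S ⊆ E' ∪ S' := by
    intro p hp
    by_contra hcon
    simp only [mem_union, not_or] at hcon
    have hpE : p ∉ E := fun h => (Finset.disjoint_left.mp hSE.2 hp) h
    have h1 := hag p hpE hcon.1
    rw [if_pos hp, if_neg hcon.2] at h1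
    split_ifs at h1
    · exact (Fin.castSucc_lt_last _).ne h1.symm
    · exact (Fin.castSucc_lt_last _).ne h1.symm
  have hs2 : S' ⊆ E ∪ S := by
    intro p hp
    by_contra hcon
    simp only [mem_union, not_or] at hcon
    have hpE : p ∉ E' := fun h => (Finset.disjoint_left.mp hSE'.2 hp) h
    have h1 := hag p hcon.1 hpE
    rw [if_pos hp, if_neg hcon.2] at h1
    split_ifs at h1
    · exact (Fin.castSucc_lt_last _).ne h1
    · exact (Fin.castSucc_lt_last _).ne h1
  obtain ⟨hSS, hkk'⟩ := hanch hs1 hs2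
  subst hkk'
  subst hSS
  obtain ⟨-, hx, hpsi⟩ := hkey k S hSE.1
  have hDS := (hD1 k S hSE.1).1
  have h12 : (finProdFinEquiv.symm m).1 = (finProdFinEquiv.symm m').1 ∧ i = i' := by
    apply hpsi
    intro p hp
    have h1 : p ∉ S := fun h => Finset.disjoint_left.mp hDS hp h
    have h2 := hag p (fun h => Finset.disjoint_left.mp hkE hp h)
      (fun h => Finset.disjoint_left.mp hkE' hp h)
    rw [if_neg h1, if_neg h1, if_pos hp, if_pos hp] at h2
    exact Fin.castSucc_injective _ h2
  obtain ⟨h1, h2⟩ := h12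
  subst h2
  have h3 : (finProdFinEquiv.symm m).2 = (finProdFinEquiv.symm m').2 := by
    apply hx i _ _ E E' hE hE' hiE hiE'
    intro p hp1 hp2 hp3 hp4
    have h4 := hag p hp3 hp4
    rw [if_neg hp1, if_neg hp1, if_neg hp2, if_neg hp2] at h4
    exact Fin.castSucc_injective _ h4
  have h5 : finProdFinEquiv.symm m = finProdFinEquiv.symm m' := Prod.ext h1 h3
  exact finProdFinEquiv.symm.injective h5

end Pool.Agent.H517R2.RS
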