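import Pool.Agent.H517R2.RS.Defs2

/-!
# TOP2: anchors and the first stage
-/

namespace Pool.Agent.H517R2.RS

open Finset
open Pool.Agent.H517R2.LE (Corrects)

theorem t_TOP2 (h1 : INDEP) (h2 : TOUR) (h3 : WORDS) : TOP2 := by
  classical
  intro n t a b c d R N B Q J' M' M A D hFam hQ hda hStg hMJ hnum
  obtain ⟨hAD, hcov, hmany⟩ := hFam
  have hG : ∀ l, ((A l ∪ D l)ᶜ : Finset (Fin n)).card = n - a - d := by
    intro l
    rw [Finset.card_compl, Fintype.card_fin, Finset.card_union_of_disjoint (hAD l).2.2,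
      (hAD l).1, (hAD l).2.1]
    omega
  choose D' hD'1 hD'2 x' hx'1 hx'2 using fun l => hStg ((A l ∪ D l)ᶜ) (hG l)
  choose i' hi' using hD'2
  choose ψ _hψ1 hψ2 hψ3 using fun l => h3 n Q d b (M * J') (D l) hQ (hAD l).2.1 hMJ
  -- the words
  let W : ({E : Finset (Fin n) // E.card ≤ t} × Fin (M * M')) → Fin N → Fin n → Fin (Q + 1) :=
    fun p l q =>
      if q ∈ A l then Fin.last Q
      else if q ∈ D l then
        ψ l (finProdFinEquiv ((finProdFinEquiv.symm p.2).1, i' l p.1.1 p.1.2)) q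
      else x' l (finProdFinEquiv.symm p.2).2 p.1.1 (i' l p.1.1 p.1.2) q
  let Pl : ({E : Finset (Fin n) // E.card ≤ t} × Fin (M * M')) → Fin N → Finset (Fin n) :=
    fun p l => univ.filter (fun q => q ∉ A l ∧ W p l q = Fin.last Q)
  have hPl : ∀ p l, (Pl p l).card ≤ b + c := by
    intro p l
    have hsub : Pl p l ⊆ (univ.filter (fun q => ψ l (finProdFinEquiv
        ((finProdFinEquiv.symm p.2).1, i' l p.1.1 p.1.2)) q = Fin.last Q)) ∪
        (univ.filter (fun q => x' l (finProdFinEquiv.symm p.2).2 p.1.1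
          (i' l p.1.1 p.1.2) q = Fin.last Q)) := by
      intro q hq
      obtain ⟨-, hqA, hqW⟩ := Finset.mem_filter.1 hq
      have hqW' : (if q ∈ A l then Fin.last Q
        else if q ∈ D l then
          ψ l (finProdFinEquiv ((finProdFinEquiv.symm p.2).1, i' l p.1.1 p.1.2)) q
        else x' l (finProdFinEquiv.symm p.2).2 p.1.1 (i' l p.1.1 p.1.2) q) = Fin.last Q := hqW
      rw [if_neg hqA] at hqW'
      rw [Finset.mem_union, Finset.mem_filter, Finset.mem_filter]
      by_cases hqD : q ∈ D l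
      · rw [if_pos hqD] at hqW'
        exact Or.inl ⟨Finset.mem_univ _, hqW'⟩
      · rw [if_neg hqD] at hqW'
        exact Or.inr ⟨Finset.mem_univ _, hqW'⟩
    exact (Finset.card_le_card hsub).trans ((Finset.card_union_le _ _).trans
      (add_le_add (hψ2 l _) (hx'1 l _ _ _)))
  let C0 : ({E : Finset (Fin n) // E.card ≤ t} × Fin (M * M')) → Finset (Fin N) :=
    fun p => univ.filter (fun l => Disjoint (A l) p.1.1 ∧ Disjoint (D l) p.1.1)
  let O0 : ({E : Finset (Fin n) // E.card ≤ t} × Fin (M * M')) → Fin N → Finset (Fin N) :=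
    fun p l => univ.filter (fun l' => l' ≠ l ∧ A l' ⊆ p.1.1 ∪ A l ∪ Pl p l)
  have hO0 : ∀ p l, (O0 p l).card ≤ B := by
    intro p l
    refine (Finset.card_le_card ?_).trans (hcov (p.1.1 ∪ A l ∪ Pl p l) ?_)
    · intro l' hl'
      obtain ⟨-, -, h⟩ := Finset.mem_filter.1 hl'
      exact Finset.mem_filter.2 ⟨Finset.mem_univ _, h⟩
    · refine (Finset.card_union_le _ _).trans (add_le_add ?_ (hPl p l))
      refine (Finset.card_union_le _ _).trans (add_le_add p.1.2 (hAD l).1.le)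
  choose C' hC'1 hC'2 hC'3 using fun p => h1 (Fin N) B R (C0 p) (O0 p)
    (hmany p.1.1 p.1.2) (fun l _ => hO0 p l)
    (fun l _ h => (Finset.mem_filter.1 h).2.1 rfl)
  have hcardP : Fintype.card ({E : Finset (Fin n) // E.card ≤ t} × Fin (M * M')) ≤
      2 ^ n * (M * M') := by
    rw [Fintype.card_prod, Fintype.card_fin]
    refine Nat.mul_le_mul_right _ ?_
    refine (Fintype.card_subtype_le _).trans ?_
    rw [Fintype.card_finset, Fintype.card_fin]
  obtain ⟨T, hT1, hT2⟩ := h2 (Fin N) ({E : Finset (Fin n) // E.card ≤ t} × Fin (M * M')) B R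
    C' O0 (fun p => (hC'2 p).ge) (fun p l hl => ⟨hO0 p l, hC'3 p l hl⟩)
    (lt_of_le_of_lt (Nat.mul_le_mul_right _ hcardP) hnum)
  choose sel hsel1 hsel2 using hT2
  refine ⟨fun m E => if hE : E.card ≤ t then W (⟨E, hE⟩, m) (sel (⟨E, hE⟩, m)) else fun _ => 0,
    ?_⟩
  intro m m' hmm E E' hE hE' hy
  obtain ⟨y, hy1, hy2⟩ := hy
  simp only [dif_pos hE] at hy1
  simp only [dif_pos hE'] at hy2
  -- sub-claim
  have hsubA : ∀ (p p' : {E : Finset (Fin n) // E.card ≤ t} × Fin (M * M')),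
      (∀ q, q ∉ p.1.1 → q ∉ p'.1.1 → W p (sel p) q = W p' (sel p') q) →
      A (sel p) ⊆ p'.1.1 ∪ A (sel p') ∪ Pl p' (sel p') := by
    intro p p' hag q hq
    have hC := (Finset.mem_filter.1 (hC'1 p (hsel1 p))).2
    have hqE : q ∉ p.1.1 := Finset.disjoint_left.1 hC.1 hq
    rw [Finset.mem_union, Finset.mem_union]
    by_cases hqE' : q ∈ p'.1.1
    · exact Or.inl (Or.inl hqE')
    · by_cases hqA' : q ∈ A (sel p')
      · exact Or.inl (Or.inr hqA')
      · right
        refine Finset.mem_filter.2 ⟨Finset.mem_univ _, hqA', ?_⟩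
        rw [← hag q hqE hqE']
        show (if q ∈ A (sel p) then Fin.last Q else _) = Fin.last Q
        rw [if_pos hq]
  obtain ⟨p, hp⟩ : ∃ p : {E : Finset (Fin n) // E.card ≤ t} × Fin (M * M'),
      p = (⟨E, hE⟩, m) := ⟨_, rfl⟩
  obtain ⟨p', hp'⟩ : ∃ p' : {E : Finset (Fin n) // E.card ≤ t} × Fin (M * M'),
      p' = (⟨E', hE'⟩, m') := ⟨_, rfl⟩
  rw [← hp] at hy1
  rw [← hp'] at hy2
  have hpE : p.1.1 = E := by rw [hp]
  have hpE' : p'.1.1 = E' := by rw [hp']
  have hpm : p.2 = m := by rw [hp]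
  have hpm' : p'.2 = m' := by rw [hp']
  have hag : ∀ q, q ∉ p.1.1 → q ∉ p'.1.1 → W p (sel p) q = W p' (sel p') q := by
    intro q hq hq'
    rw [hpE] at hq
    rw [hpE'] at hq'
    rw [← hy1 q hq, ← hy2 q hq']
  have hll : sel p = sel p' := by
    by_contra hne
    have ha := hsubA p p' hag
    have hb := hsubA p' p (fun q hq hq' => (hag q hq' hq).symm)
    have hc : T (sel p') (sel p) :=
      hsel2 p' (sel p) (Finset.mem_filter.2 ⟨Finset.mem_univ _, hne, ha⟩)
    have hd : T (sel p) (sel p') :=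
      hsel2 p (sel p') (Finset.mem_filter.2 ⟨Finset.mem_univ _, Ne.symm hne, hb⟩)
    exact hT1 _ _ hne hd hc
  have hC := (Finset.mem_filter.1 (hC'1 p (hsel1 p))).2
  have hC' := (Finset.mem_filter.1 (hC'1 p' (hsel1 p'))).2
  rw [← hll] at hC' hag
  set l := sel p with hl
  -- the block `D l`
  have hDl : finProdFinEquiv ((finProdFinEquiv.symm p.2).1, i' l p.1.1 p.1.2) =
      finProdFinEquiv ((finProdFinEquiv.symm p'.2).1, i' l p'.1.1 p'.1.2) := by
    refine hψ3 l _ _ fun q hq => ?_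
    have hqA : q ∉ A l := fun h => (Finset.disjoint_left.1 (hAD l).2.2 h) hq
    have h5 := hag q (Finset.disjoint_left.1 hC.2 hq) (Finset.disjoint_left.1 hC'.2 hq)
    have h6 : (if q ∈ A l then Fin.last Q
        else if q ∈ D l then
          ψ l (finProdFinEquiv ((finProdFinEquiv.symm p.2).1, i' l p.1.1 p.1.2)) q
        else x' l (finProdFinEquiv.symm p.2).2 p.1.1 (i' l p.1.1 p.1.2) q) =
        (if q ∈ A l then Fin.last Q
        else if q ∈ D l then
          ψ l (finProdFinEquiv ((finProdFinEquiv.symm p'.2).1, i' l p'.1.1 p'.1.2)) q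
        else x' l (finProdFinEquiv.symm p'.2).2 p'.1.1 (i' l p'.1.1 p'.1.2) q) := h5
    rw [if_neg hqA, if_neg hqA, if_pos hq, if_pos hq] at h6
    exact h6
  have hpair := finProdFinEquiv.injective hDl
  rw [Prod.mk.injEq] at hpair
  obtain ⟨hm1, hii⟩ := hpair
  have hm2 : (finProdFinEquiv.symm p.2).2 = (finProdFinEquiv.symm p'.2).2 := by
    refine hx'2 l (i' l p.1.1 p.1.2) _ _ p.1.1 p'.1.1 p.1.2 p'.1.2 (hi' l p.1.1 p.1.2)
      (by rw [hii]; exact hi' l p'.1.1 p'.1.2) fun q hq hqE hqE' => ?_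
    rw [Finset.mem_compl, Finset.mem_union, not_or] at hq
    have h5 := hag q hqE hqE'
    have h6 : (if q ∈ A l then Fin.last Q
        else if q ∈ D l then
          ψ l (finProdFinEquiv ((finProdFinEquiv.symm p.2).1, i' l p.1.1 p.1.2)) q
        else x' l (finProdFinEquiv.symm p.2).2 p.1.1 (i' l p.1.1 p.1.2) q) =
        (if q ∈ A l then Fin.last Q
        else if q ∈ D l then
          ψ l (finProdFinEquiv ((finProdFinEquiv.symm p'.2).1, i' l p'.1.1 p'.1.2)) q
        else x' l (finProdFinEquiv.symm p'.2).2 p'.1.1 (i' l p'.1.1 p'.1.2) q) := h5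
    rw [if_neg hq.1, if_neg hq.1, if_neg hq.2, if_neg hq.2, ← hii] at h6
    exact h6
  have hmm' : p.2 = p'.2 := finProdFinEquiv.symm.injective (Prod.ext hm1 hm2)
  rw [hpm, hpm'] at hmm'
  exact hmm hmm'

end Pool.Agent.H517R2.RS
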