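import Pool.Agent.H517R2.RS.Defs

/-!
# A random tournament (`TOUR`)
-/

namespace Pool.Agent.H517R2.RS

open Finset

namespace TOURaux

theorem cancel_pow (b X R c K : ℕ) (hRc : R ≤ c) (hb : 0 < b)
    (h : X * b ^ c ≤ (b - 1) ^ c * K) : X * b ^ R ≤ (b - 1) ^ R * K := by
  obtain ⟨k, rfl⟩ := Nat.exists_eq_add_of_le hRc
  have h1 : (b - 1) ^ k ≤ b ^ k := Nat.pow_le_pow_left (Nat.sub_le _ _) _
  have h2 : (X * b ^ R) * b ^ k ≤ ((b - 1) ^ R * K) * b ^ k := by
    calc (X * b ^ R) * b ^ k = X * b ^ (R + k) := by rw [pow_add]; ring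
      _ ≤ (b - 1) ^ (R + k) * K := h
      _ = ((b - 1) ^ R * K) * (b - 1) ^ k := by rw [pow_add]; ring
      _ ≤ ((b - 1) ^ R * K) * b ^ k := Nat.mul_le_mul_left _ h1
  exact Nat.le_of_mul_le_mul_right h2 (by positivity)

end TOURaux

theorem t_TOUR (h : IND) : TOUR := by
  intro ι P _ _ _ B R C O hR hO hnum
  classical
  let e : ι ≃ Fin (Fintype.card ι) := Fintype.equivFin ι
  let pr : ι → ι → ι × ι := fun l o => if e l < e o then (l, o) else (o, l)
  let E : P → ι → Finset (ι × ι) := fun p l => (O p l).image (pr l)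
  let v : ι → ι × ι → Bool := fun l z => decide (z.1 = l)
  let bad : P → Finset (ι × ι → Bool) := fun p =>
    (univ : Finset (ι × ι → Bool)).filter (fun w => ∀ l ∈ C p, ∃ z ∈ E p l, w z ≠ v l z)
  have hdisj : ∀ p, ∀ l ∈ C p, ∀ l' ∈ C p, l ≠ l' → Disjoint (E p l) (E p l') := by
    intro p l hl l' hl' hne
    rw [Finset.disjoint_left]
    intro z hz hz'
    obtain ⟨o, ho, hoz⟩ := Finset.mem_image.1 hz
    obtain ⟨o', ho', hoz'⟩ := Finset.mem_image.1 hz'
    have h1 : o ∉ C p := Finset.disjoint_left.1 (hO p l hl).2 ho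
    have h2 : o' ∉ C p := Finset.disjoint_left.1 (hO p l' hl').2 ho'
    have key : pr l o = pr l' o' := hoz.trans hoz'.symm
    have hl2 : l = l' ∨ l = o' := by
      simp only [pr] at key
      split_ifs at key <;> simp only [Prod.mk.injEq] at key
      · exact Or.inl key.1
      · exact Or.inr key.1
      · exact Or.inr key.2
      · exact Or.inl key.2
    rcases hl2 with hh | hh
    · exact hne hh
    · exact h2 (hh ▸ hl)
  have hbad : ∀ p, (bad p).card * (2 ^ B) ^ R ≤ (2 ^ B - 1) ^ R * 2 ^ Fintype.card (ι × ι) := by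
    intro p
    have h1 := h (ι × ι) ι B (C p) (E p) v
      (fun l hl => (Finset.card_image_le).trans (hO p l hl).1) (hdisj p)
    refine TOURaux.cancel_pow (2 ^ B) _ R (C p).card _ (hR p) (by positivity) ?_
    convert h1 using 3
    ext w
    simp only [bad, Finset.mem_filter]
  have hsum : ∑ p : P, (bad p).card < 2 ^ Fintype.card (ι × ι) := by
    by_contra hcon
    push Not at hcon
    have h1 : (∑ p : P, (bad p).card) * (2 ^ B) ^ R ≤
        Fintype.card P * (2 ^ B - 1) ^ R * 2 ^ Fintype.card (ι × ι) := by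
      rw [Finset.sum_mul]
      refine (Finset.sum_le_sum (fun p _ => hbad p)).trans (le_of_eq ?_)
      rw [Finset.sum_const, Finset.card_univ, smul_eq_mul]
      ring
    have h2 : (2 : ℕ) ^ Fintype.card (ι × ι) * (2 ^ B) ^ R ≤
        (∑ p : P, (bad p).card) * (2 ^ B) ^ R := Nat.mul_le_mul_right _ hcon
    have h3 : Fintype.card P * (2 ^ B - 1) ^ R * 2 ^ Fintype.card (ι × ι) <
        (2 ^ B) ^ R * 2 ^ Fintype.card (ι × ι) :=
      Nat.mul_lt_mul_of_pos_right hnum (by positivity)
    have h4 := h2.trans h1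
    rw [mul_comm] at h4
    exact absurd h3 (not_lt.2 h4)
  obtain ⟨w, hw⟩ : ∃ w : ι × ι → Bool, ∀ p, w ∉ bad p := by
    by_contra hcon
    push Not at hcon
    have h1 : (univ : Finset (ι × ι → Bool)) ⊆ (univ : Finset P).biUnion bad := by
      intro w _
      obtain ⟨p, hp⟩ := hcon w
      exact Finset.mem_biUnion.2 ⟨p, Finset.mem_univ _, hp⟩
    have h2 := (Finset.card_le_card h1).trans Finset.card_biUnion_le
    rw [Finset.card_univ, Fintype.card_fun, Fintype.card_bool] at h2
    exact absurd hsum (not_lt.2 h2)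
  refine ⟨fun x y => if e x < e y then w (x, y) = true else w (y, x) = false, ?_, ?_⟩
  · intro x y hxy h1 h2
    have hne : e x ≠ e y := fun hh => hxy (e.injective hh)
    rcases lt_or_gt_of_ne hne with hlt | hlt
    · simp only [if_pos hlt] at h1
      simp only [if_neg (not_lt.2 hlt.le)] at h2
      rw [h1] at h2
      exact absurd h2 (by decide)
    · simp only [if_neg (not_lt.2 hlt.le)] at h1
      simp only [if_pos hlt] at h2
      rw [h1] at h2
      exact absurd h2 (by decide)
  · intro p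
    have h1 := hw p
    simp only [bad, Finset.mem_filter, Finset.mem_univ, true_and] at h1
    push Not at h1
    obtain ⟨l, hl, h2⟩ := h1
    refine ⟨l, hl, ?_⟩
    intro o ho
    have hne : o ≠ l := by
      intro hh
      exact Finset.disjoint_left.1 (hO p l hl).2 ho (hh ▸ hl)
    have h3 := h2 (pr l o) (Finset.mem_image_of_mem _ ho)
    by_cases hlt : e l < e o
    · simp only [if_pos hlt]
      simp only [pr, if_pos hlt, v] at h3
      simpa using h3
    · simp only [if_neg hlt]
      simp only [pr, if_neg hlt, v] at h3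
      rw [h3]
      simpa using hne

end Pool.Agent.H517R2.RS
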