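import Pool.Agent.H517R2.RS.Defs2

/-! # WNL: exponential size of `Wn` (helper844) -/

set_option autoImplicit false

namespace Pool.Agent.H517R2.RS

open Finset Filter Topology

private theorem wnl_log (ε : ℝ) (hε : 0 < ε) :
    ∀ᶠ d : ℕ in atTop, Real.log ((d : ℝ) + 1) ≤ ε / 2 * d := by
  have h1 := Real.isLittleO_log_id_atTop.def (show (0 : ℝ) < ε / 4 by positivity)
  have h2 : Tendsto (fun d : ℕ => (d : ℝ) + 1) atTop atTop :=
    tendsto_atTop_add_const_right _ _ tendsto_natCast_atTop_atTop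
  filter_upwards [h2.eventually h1, eventually_ge_atTop 1] with d hd hd1
  have hd1' : (1 : ℝ) ≤ d := by exact_mod_cast hd1
  have h3 : Real.log ((d : ℝ) + 1) ≤ ε / 4 * ((d : ℝ) + 1) := by
    have h4 := (Real.le_norm_self _).trans hd
    rw [id, Real.norm_of_nonneg (by positivity)] at h4
    exact h4
  nlinarith

theorem t_WNL (h : BINE) : WNL := by
  intro Q β ε hQ hβ0 hβ1 hε
  have hlw : Real.log (wf Q β) = Real.binEntropy β + (1 - β) * Real.log Q := by
    unfold wf
    rw [Real.log_exp]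
  have hQ' : (1 : ℝ) ≤ Q := by exact_mod_cast hQ
  have hlQ : 0 ≤ Real.log Q := Real.log_nonneg hQ'
  rcases hβ0.eq_or_lt with hβ | hβ
  · refine ⟨0, fun d _ => ?_⟩
    subst hβ
    have h1 : Wn Q d ⌊(0 : ℝ) * d⌋₊ = Q ^ d := by
      rw [zero_mul, Nat.floor_zero]
      unfold Wn
      simp
    rw [h1, hlw, Real.binEntropy_zero]
    push_cast
    rw [Real.log_pow]
    have hd : (0 : ℝ) ≤ d := Nat.cast_nonneg d
    nlinarith
  · have h2 : Tendsto (fun d : ℕ => ((⌊β * d⌋₊ : ℕ) : ℝ) / d) atTop (𝓝 β) :=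
      (tendsto_nat_floor_mul_div_atTop (R := ℝ) hβ.le).comp tendsto_natCast_atTop_atTop
    have h3 : Tendsto (fun d : ℕ => Real.binEntropy (((⌊β * d⌋₊ : ℕ) : ℝ) / d)) atTop
        (𝓝 (Real.binEntropy β)) := (Real.binEntropy_continuous.tendsto β).comp h2
    have h4 : ∀ᶠ d : ℕ in atTop, Real.binEntropy β - ε / 2 <
        Real.binEntropy (((⌊β * d⌋₊ : ℕ) : ℝ) / d) :=
      h3.eventually (lt_mem_nhds (by linarith))
    have h5 : ∀ᶠ d : ℕ in atTop, 1 / β ≤ d :=
      tendsto_natCast_atTop_atTop.eventually (eventually_ge_atTop (1 / β))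
    have h6 : ∀ᶠ d : ℕ in atTop, d * (Real.log (wf Q β) - ε) ≤ Real.log (Wn Q d ⌊β * d⌋₊) := by
      filter_upwards [h4, h5, wnl_log ε hε, eventually_ge_atTop 1] with d h4 h5 h6 h7
      set b := ⌊β * d⌋₊ with hb
      have hd1 : (1 : ℝ) ≤ d := by exact_mod_cast h7
      have hd0 : (0 : ℝ) < d := by linarith
      have hb1 : 1 ≤ b := by
        rw [hb]
        refine Nat.le_floor ?_
        rw [Nat.cast_one]
        have := mul_le_mul_of_nonneg_left h5 hβ.le
        rwa [mul_one_div_cancel hβ.ne'] at this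
      have hbβ : (b : ℝ) ≤ β * d := Nat.floor_le (by positivity)
      have hbd : b ≤ d := by
        have h8 : (b : ℝ) ≤ d := by nlinarith
        exact_mod_cast h8
      have h9 := h d b hb1 hbd
      have hW : d.choose b * Q ^ (d - b) ≤ Wn Q d b := by
        unfold Wn
        exact Finset.single_le_sum (f := fun j => d.choose j * Q ^ (d - j))
          (fun _ _ => Nat.zero_le _) (Finset.mem_range.2 (Nat.lt_succ_self b))
      have hc : 0 < d.choose b := Nat.choose_pos hbd
      have hc' : (0 : ℝ) < d.choose b := by exact_mod_cast hc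
      have hQp : (0 : ℝ) < (Q : ℝ) ^ (d - b) := by positivity
      have hlog : Real.log (d.choose b) + ((d : ℝ) - b) * Real.log Q ≤ Real.log (Wn Q d b) := by
        have h10 : ((d.choose b * Q ^ (d - b) : ℕ) : ℝ) ≤ Wn Q d b := by exact_mod_cast hW
        push_cast at h10
        have h11 := Real.log_le_log (mul_pos hc' hQp) h10
        rw [Real.log_mul hc'.ne' hQp.ne', Real.log_pow, Nat.cast_sub hbd] at h11
        exact h11
      rw [hlw]
      have h12 : (1 - β) * d * Real.log Q ≤ ((d : ℝ) - b) * Real.log Q :=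
        mul_le_mul_of_nonneg_right (by linarith) hlQ
      have h13 : (d : ℝ) * (Real.binEntropy β - ε / 2) ≤ d * Real.binEntropy ((b : ℝ) / d) :=
        mul_le_mul_of_nonneg_left h4.le hd0.le
      nlinarith
    obtain ⟨d₀, hd₀⟩ := eventually_atTop.1 h6
    exact ⟨d₀, hd₀⟩

end Pool.Agent.H517R2.RS
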