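import Mathlib
import Pool.Agent.H517R2.RS.Defs2

/-! WORDS and WNU: words with few symbols `Fin.last Q`. -/

namespace Pool.Agent.H517R2.RS

open Finset

theorem t_WNU : WNU := by
  intro Q d b
  unfold Wn
  have h1 : (Q + 1) ^ d = ∑ j ∈ range (d + 1), d.choose j * Q ^ (d - j) := by
    rw [add_comm, add_pow]
    exact sum_congr rfl fun j _ => by
      rw [one_pow, one_mul]
      exact mul_comm _ _
  rw [h1]
  calc ∑ j ∈ range (b + 1), d.choose j * Q ^ (d - j)
      ≤ ∑ j ∈ range (max b d + 1), d.choose j * Q ^ (d - j) :=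
        sum_le_sum_of_subset (range_mono (by omega))
    _ = ∑ j ∈ range (d + 1), d.choose j * Q ^ (d - j) := by
      symm
      apply sum_subset (range_mono (by omega))
      intro j _ hj
      rw [mem_range, not_lt] at hj
      rw [Nat.choose_eq_zero_of_lt (by omega), zero_mul]

/-- the words with symbol `Fin.last Q` exactly on `J` -/
private def wordsF (n Q : ℕ) (D J : Finset (Fin n)) (p : Fin n) : Finset (Fin (Q + 1)) :=
  if p ∈ J then {Fin.last Q} else if p ∈ D then univ.erase (Fin.last Q) else {0}

private lemma words_card (n Q : ℕ) (D J : Finset (Fin n)) (hJ : J ⊆ D) :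
    (Fintype.piFinset (wordsF n Q D J)).card = Q ^ (D.card - J.card) := by
  rw [Fintype.card_piFinset]
  have e : ∀ p : Fin n, (wordsF n Q D J p).card = if p ∈ D \ J then Q else 1 := by
    intro p
    unfold wordsF
    by_cases h1 : p ∈ J
    · simp [h1]
    · by_cases h2 : p ∈ D
      · simp [h1, h2]
      · simp [h1, h2]
  simp only [e]
  rw [prod_ite_mem, univ_inter, prod_const, card_sdiff_of_subset hJ]

private lemma words_last (n Q : ℕ) (hQ : 1 ≤ Q) (D J : Finset (Fin n)) (hJ : J ⊆ D)
    (ψ : Fin n → Fin (Q + 1)) (h : ψ ∈ Fintype.piFinset (wordsF n Q D J)) :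
    (univ : Finset (Fin n)).filter (fun p => ψ p = Fin.last Q) = J ∧
      ∀ p, p ∉ D → ψ p = 0 := by
  rw [Fintype.mem_piFinset] at h
  have h0 : (0 : Fin (Q + 1)) ≠ Fin.last Q := by
    intro h
    have := congrArg Fin.val h
    simp at this
    omega
  constructor
  · ext p
    have hp := h p
    unfold wordsF at hp
    rw [mem_filter]
    by_cases h1 : p ∈ J
    · simp only [h1, if_true, mem_singleton] at hp
      simp [h1, hp]
    · by_cases h2 : p ∈ D
      · simp only [h1, h2, if_true, if_false, mem_erase] at hp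
        simp [h1, hp.1]
      · simp only [h1, h2, if_false, mem_singleton] at hp
        simp [h1, hp, h0]
  · intro p hpD
    have hp := h p
    unfold wordsF at hp
    rw [if_neg (fun h => hpD (hJ h)), if_neg hpD, mem_singleton] at hp
    exact hp

theorem t_WORDS : WORDS := by
  intro n Q d b M D hQ hD hM
  classical
  set I : Finset (Finset (Fin n)) := (range (b + 1)).biUnion (fun j => powersetCard j D) with hI
  have hIm : ∀ J ∈ I, J ⊆ D ∧ J.card ≤ b := by
    intro J hJ
    rw [hI, mem_biUnion] at hJ
    obtain ⟨j, hj, hJ⟩ := hJ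
    rw [mem_powersetCard] at hJ
    rw [mem_range] at hj
    exact ⟨hJ.1, by omega⟩
  set W : Finset (Fin n → Fin (Q + 1)) := I.biUnion (fun J => Fintype.piFinset (wordsF n Q D J))
    with hW
  have hWc : W.card = Wn Q d b := by
    rw [hW, card_biUnion]
    · rw [hI, sum_biUnion]
      · unfold Wn
        refine sum_congr rfl fun j _ => ?_
        rw [sum_congr rfl (g := fun _ => Q ^ (d - j))]
        · rw [sum_const, card_powersetCard, hD, smul_eq_mul]
        · intro J hJ
          rw [mem_powersetCard] at hJ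
          rw [words_card n Q D J hJ.1, hD, hJ.2]
      · intro j _ j' _ hjj'
        exact (pairwise_disjoint_powersetCard D) hjj'
    · intro J hJ J' hJ' hne
      have hJ := Finset.mem_coe.1 hJ
      have hJ' := Finset.mem_coe.1 hJ'
      change Disjoint _ _
      rw [Finset.disjoint_left]
      intro ψ h1 h2
      apply hne
      rw [← (words_last n Q hQ D J (hIm J hJ).1 ψ h1).1,
        ← (words_last n Q hQ D J' (hIm J' hJ').1 ψ h2).1]
  have hMW : M ≤ W.card := by rw [hWc]; exact hM
  let e := W.equivFin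
  have hmem : ∀ w : W, (∀ p, p ∉ D → w.1 p = 0) ∧
      ((univ : Finset (Fin n)).filter (fun p => w.1 p = Fin.last Q)).card ≤ b := by
    rintro ⟨w, hw⟩
    rw [hW, mem_biUnion] at hw
    obtain ⟨J, hJ, hw⟩ := hw
    obtain ⟨h1, h2⟩ := words_last n Q hQ D J (hIm J hJ).1 w hw
    refine ⟨h2, ?_⟩
    rw [h1]
    exact (hIm J hJ).2
  refine ⟨fun m => (e.symm (Fin.castLE hMW m)).1, fun m => (hmem _).1, fun m => (hmem _).2, ?_⟩
  intro m m' h
  have h3 : (e.symm (Fin.castLE hMW m)).1 = (e.symm (Fin.castLE hMW m')).1 := by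
    funext p
    by_cases hp : p ∈ D
    · exact h p hp
    · rw [(hmem (e.symm (Fin.castLE hMW m))).1 p hp, (hmem (e.symm (Fin.castLE hMW m'))).1 p hp]
  have h4 := e.symm.injective (Subtype.ext h3)
  exact Fin.castLE_injective hMW h4

end Pool.Agent.H517R2.RS
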